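import Mathlib
import Pool.Agent.H71.EX.Defs

/-!
Definitions for project LS: the Havet-Yu bound for graphs without nearly regular subgraphs that are
bipartite or small.

Plan (compare `Pool/Agent/H71/EX`).  A proper vertex labelling `c` with `m0 ≤ Δ - 4 Δ / N ^ 8` labels and windows
`W t = {v : |c v - t| < p}`. A random set `F0` of density `N ^ (-31)`; the edges inside `F0` get labels `t < T` in
advance (matchings `σ t`). The rest graph `G` (without the edges inside `F0`) is treated label by label: in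
step `t` a matching of the unused edges is found that covers all vertices outside `W t` with the possible
exception of some vertices of the sparse random set `F t ⊆ F0`, and no vertex is missed twice. So the last labels
can be completed by Fournier's theorem (`H71/DX/Fn2`, `final2`): the vertices of maximum degree of the rest are
in `F0` and pairwise non-adjacent in the rest.
-/

set_option autoImplicit false

namespace Pool.Agent.H12.LS

open Finset Classical
open Pool.Agent.H71.DN Pool.Agent.H71.EX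

/-- `G` is nearly `Δ`-regular, small sets expand, and `G` contains no nearly `Δ`-regular bipartite
subgraph (quality `N`). -/
structure Xs {V : Type} [Fintype V] (G : SimpleGraph V) (Δ N : ℕ) : Prop where
  hN : 1000 ≤ N
  hΔ : N ^ 250 ≤ Δ
  n2 : (Fintype.card V : ℝ) ≤ Real.exp N
  up : ∀ v, dg G v ≤ Δ
  lo : ∀ v, (Δ : ℝ) - Δ / (N : ℝ) ^ 20 ≤ dg G v
  ex : ∀ S : Finset V, S.card ≤ N ^ 60 * Δ →
    (Δ : ℝ) / N * S.card ≤ ee G S (univ \ S)
  nb : ∀ A B : Finset V, Disjoint A B →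
    (Δ : ℝ) / N * (A.card + B.card) + 2 * ee G A B ≤ Δ * (A.card + B.card)

/-- The stronger version for the original graph. -/
structure Xt {V : Type} [Fintype V] (G : SimpleGraph V) (Δ N : ℕ) : Prop where
  hN : 1000 ≤ N
  hΔ : N ^ 250 ≤ Δ
  n2 : (Fintype.card V : ℝ) ≤ Real.exp N
  up : ∀ v, dg G v ≤ Δ
  lo : ∀ v, (Δ : ℝ) - Δ / (N : ℝ) ^ 21 ≤ dg G v
  ex : ∀ S : Finset V, S.card ≤ N ^ 60 * Δ →
    2 * ((Δ : ℝ) / N) * S.card ≤ ee G S (univ \ S)
  nb : ∀ A B : Finset V, Disjoint A B →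
    (Δ : ℝ) / N * (A.card + B.card) + 2 * ee G A B ≤ Δ * (A.card + B.card)

/-- The data of the process: the graph `G`, the reserve `R`, the number of steps `T`, the sets `W t` of vertices
that are not covered in step `t`, the sets `F t` of vertices that may be missed in step `t`, and their
superset `F0`. -/
structure Pd {V : Type} [Fintype V] (G R : SimpleGraph V) (Δ N T w0 : ℕ) (W F : ℕ → Finset V)
    (F0 : Finset V) : Prop where
  xp : Xs G Δ N
  le : R ≤ G
  rd : ∀ v, |(dg R v : ℝ) - dg G v / (N : ℝ) ^ 8| ≤ Δ / (N : ℝ) ^ 20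
  rb : ∀ A B : Finset V, Disjoint A B →
    (ee R A B : ℝ) ≤ ee G A B / (N : ℝ) ^ 8 + Δ / (N : ℝ) ^ 20 * (A.card + B.card)
  rc : ∀ S : Finset V,
    (ee G S (univ \ S) : ℝ) / (N : ℝ) ^ 8 - Δ / (N : ℝ) ^ 20 * S.card ≤ ee R S (univ \ S)
  hT : (T : ℝ) ≤ Δ - 3 * (Δ / (N : ℝ) ^ 8)
  hw : (w0 : ℝ) ≤ Δ / (N : ℝ) ^ 29
  wc : ∀ v, ((range T).filter fun t => v ∈ W t).card ≤ w0
  wd : ∀ t < T, ∀ v, (dn G v (W t) : ℝ) ≤ Δ / (N : ℝ) ^ 20
  fW : ∀ t < T, ∀ v ∈ F t, v ∉ W t
  f0 : ∀ t < T, F t ⊆ F0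
  fl : ∀ t < T, ∀ v ∉ F0, (N : ℝ) ^ 4 / 8 ≤ dn R v (F t)
  fu : ∀ t < T, ∀ v, (dn R v (F t) : ℝ) ≤ 4 * (N : ℝ) ^ 4
  fm : ∀ v, (((range T).filter fun t => v ∈ F t).card : ℝ) ≤ 4 * (N : ℝ) ^ 43
  fo : ∀ s < T, ∀ t < T, s ≠ t → ∀ v, (dn R v (F s ∩ F t) : ℝ) ≤ (N : ℝ) ^ 3 / 64
  fi : ∀ u ∈ F0, ∀ v ∈ F0, ¬ G.Adj u v
  f1 : ∀ v, (dn G v F0 : ℝ) ≤ Δ / (N : ℝ) ^ 30

/-- The first potential: the deviations of the main degrees. -/
noncomputable def P1 {V : Type} [Fintype V] (G R : SimpleGraph V) (Δ N t : ℕ) (W : ℕ → Finset V)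
    (U : SimpleGraph V) : ℝ :=
  ∑ v, Real.cosh (dl R Δ N t U v / (N : ℝ) ^ 11) * Real.exp (- (aa G W Δ N t v / (N : ℝ) ^ 11))

/-- The bound for the first potential is `#V * B1`. -/
noncomputable def B1 (Δ N t : ℕ) : ℝ := Real.exp (2 * Δ / (N : ℝ) ^ 31 + 2 * t / (N : ℝ) ^ 32)

/-- The number of the used reserve edges from `v` to `F s`. -/
noncomputable def usd {V : Type} [Fintype V] (R : SimpleGraph V) (F : ℕ → Finset V)
    (U : SimpleGraph V) (v : V) (s : ℕ) : ℕ :=
  ((F s).filter fun u => R.Adj v u ∧ ¬ U.Adj v u).card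

/-- The second potential: used reserve edges to the sets `F s`. -/
noncomputable def P2 {V : Type} [Fintype V] (R : SimpleGraph V) (T : ℕ) (F : ℕ → Finset V)
    (U : SimpleGraph V) : ℝ :=
  ∑ v, ∑ s ∈ range T, Real.exp (usd R F U v s)

/-- The bound for the second potential is `#V * Δ * B2`. -/
noncomputable def B2 (Δ N t : ℕ) : ℝ := Real.exp (12 * (N : ℝ) ^ 2 * t / Δ)

/-- The weight of the misses: `1 / N ^ 45`. -/
noncomputable def e0 (N : ℕ) : ℝ := 1 / (N : ℝ) ^ 45

/-- The third potential: missed vertices in the sets `F s`, `t ≤ s < T`; `M` is the set of the missed vertices. -/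
noncomputable def P3 {V : Type} [Fintype V] (R : SimpleGraph V) (N T t : ℕ) (F : ℕ → Finset V)
    (M : Finset V) : ℝ :=
  ∑ v, ∑ s ∈ (range T).filter fun s => t ≤ s,
    Real.exp (64 / (N : ℝ) ^ 3 * dn R v (F s ∩ M) -
      128 / (N : ℝ) ^ 3 * e0 N * ∑ r ∈ range t, (dn R v (F r ∩ F s) : ℝ))

/-- The state of the process at time `t`: `U` is the graph of the unused edges, `M` the set of the missed
vertices. -/
structure Sm {V : Type} [Fintype V] (G R : SimpleGraph V) (Δ N T t : ℕ) (W F : ℕ → Finset V)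
    (F0 : Finset V) (U : SimpleGraph V) (M : Finset V) : Prop where
  le : U ≤ G
  mf : M ⊆ F0
  deg : ∀ v, dg U v + t = dg G v + ((range t).filter fun s => v ∈ W s).card +
    (if v ∈ M then 1 else 0)
  pot : P1 G R Δ N t W U / (Fintype.card V * B1 Δ N t) +
    P2 R T F U / (Fintype.card V * Δ * B2 Δ N t) +
    P3 R N T t F M / (Fintype.card V * Δ) ≤ 3

/-- The weight of a miss of `v` in step `t`. -/
noncomputable def ev {V : Type} (N t : ℕ) (F : ℕ → Finset V) (M : Finset V) (v : V) : ℝ :=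
  if v ∈ F t ∧ v ∉ M then e0 N else 0

/-- The main weight in step `t`. -/
noncomputable def th (Δ N t : ℕ) : ℝ := (1 - 1 / (N : ℝ) ^ 10) / Db Δ N t

/-- The weights of step `t`: `z` is a fractional matching of the unused edges outside `W t`, which misses `v` with
weight `ev`. -/
structure Zw {V : Type} [Fintype V] (R : SimpleGraph V) (Δ N t : ℕ) (W F : ℕ → Finset V)
    (U : SimpleGraph V) (M : Finset V) (z : V → V → ℝ) : Prop where
  main : ∀ v u, v ∉ W t → u ∉ W t → (U \ R).Adj v u → z v u = th Δ N t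
  res : ∀ v u, v ∉ W t → u ∉ W t → (U ⊓ R).Adj v u →
    1 / ((N : ℝ) ^ 2 * Δ) / 2 ≤ z v u ∧ z v u ≤ 3 / 2 * (1 / ((N : ℝ) ^ 2 * Δ))
  zer : ∀ v u, (v ∈ W t ∨ u ∈ W t ∨ ¬ U.Adj v u) → z v u = 0
  sum : ∀ v ∉ W t, ∑ u, z v u + ev N t F M v = 1

/-- A matching of step `t`: an involution that fixes `W t`, moves all other vertices along unused
edges, with the possible exception of vertices of `F t` that have not been missed yet. -/
structure Mt {V : Type} (t : ℕ) (W F : ℕ → Finset V) (U : SimpleGraph V) (M : Finset V)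
    (π : V → V) : Prop where
  inv : ∀ v, π (π v) = v
  fix : ∀ v ∈ W t, π v = v
  adj : ∀ v, π v ≠ v → U.Adj v (π v)
  mis : ∀ v ∉ W t, π v = v → v ∈ F t ∧ v ∉ M

end Pool.Agent.H12.LS
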