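import Mathlib
import Pool.Agent.H12.LS.Defs

/-!
GM: the graph `Gm G F0` = `G` without the edges inside `F0`, and the passage from `Xt` to `Xs`.

Proof.  `gm_dg`: the neighbours `u` of `v` in `G` that are no neighbours in `Gm G F0` are in `F0` (and then `v ∈ F0`): `dg G v ≤ dg (Gm G F0) v + dn G v F0`.
`gm_ee`: `ee G A B = ∑ a ∈ A, dn G a B` and `dn G a B ≤ dn (Gm G F0) a B + dn G a F0 ≤ dn (Gm G F0) a B + κ` (compare `np_ee` in
`EX/Np.lean`). `gm_nF`: for `v ∉ F0` the two graphs have the same neighbours at `v`.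
`xs_t`: `Xs.lo`: `Δ / N ^ 21 ≤ Δ / N ^ 20`; `ex`: `Δ / N ≤ 2 (Δ / N)`.
`xs_gm`: `up`, `nb`: `Gm G F0 ≤ G` (`ee` is monotone). `lo`: `gm_dg`, `Δ / N ^ 21 + 2 Δ / N ^ 31 ≤ Δ / N ^ 20`. `ex`: `gm_ee` with
`κ = 2 Δ / N ^ 31 ≤ Δ / N`: `ee (Gm G F0) S (univ \ S) ≥ 2 (Δ / N) #S - 2 Δ / N ^ 31 #S ≥ (Δ / N) #S`.
-/

set_option autoImplicit false

namespace Pool.Agent.H12.LS

open Finset Classical
open Pool.Agent.H71.DN Pool.Agent.H71.EX

/-- `G` without the edges inside `F0`. -/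
def Gm {V : Type} (G : SimpleGraph V) (F0 : Finset V) : SimpleGraph V where
  Adj a b := G.Adj a b ∧ ¬ (a ∈ F0 ∧ b ∈ F0)
  symm := ⟨fun a b h => ⟨h.1.symm, fun k => h.2 ⟨k.2, k.1⟩⟩⟩
  loopless := ⟨fun a h => h.1.ne rfl⟩

private theorem Gm_ee {V : Type} [Fintype V] (G : SimpleGraph V) (A C : Finset V) :
    ee G A C = ∑ a ∈ A, (C.filter fun u => G.Adj a u).card := by
  unfold ee
  rw [Finset.card_filter, Finset.sum_product]
  apply Finset.sum_congr rfl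
  intro a _
  rw [Finset.card_filter]

private theorem Gm_fil {V : Type} [Fintype V] (G : SimpleGraph V) (F0 B : Finset V) (v : V) :
    (B.filter fun u => G.Adj v u).card ≤ (B.filter fun u => (Gm G F0).Adj v u).card +
      dn G v F0 := by
  unfold dn
  refine le_trans (Finset.card_le_card ?_) (Finset.card_union_le _ _)
  intro u hu
  rw [Finset.mem_filter] at hu
  rw [Finset.mem_union, Finset.mem_filter, Finset.mem_filter]
  by_cases h : v ∈ F0 ∧ u ∈ F0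
  · exact Or.inr ⟨h.2, hu.2⟩
  · exact Or.inl ⟨hu.1, hu.2, h⟩

private theorem Gm_le {V : Type} (G : SimpleGraph V) (F0 : Finset V) : Gm G F0 ≤ G :=
  fun _ _ h => h.1

private theorem Gm_ee_le {V : Type} [Fintype V] (G : SimpleGraph V) (F0 : Finset V)
    (A B : Finset V) : ee (Gm G F0) A B ≤ ee G A B := by
  unfold ee
  refine Finset.card_le_card fun x hx => ?_
  rw [Finset.mem_filter] at hx ⊢
  exact ⟨hx.1, hx.2.1⟩

theorem gm_dg {V : Type} [Fintype V] (G : SimpleGraph V) (F0 : Finset V) (v : V) :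
    dg G v ≤ dg (Gm G F0) v + dn G v F0 := by
  exact Gm_fil G F0 univ v

theorem gm_ee {V : Type} [Fintype V] (G : SimpleGraph V) (F0 : Finset V) (κ : ℝ)
    (hκ : ∀ v, (dn G v F0 : ℝ) ≤ κ) (A B : Finset V) :
    (ee G A B : ℝ) ≤ ee (Gm G F0) A B + κ * A.card := by
  rw [Gm_ee, Gm_ee]
  push_cast
  rw [mul_comm κ, ← nsmul_eq_mul, ← Finset.sum_const, ← Finset.sum_add_distrib]
  refine Finset.sum_le_sum fun a _ => ?_
  have h1 : (((B.filter fun u => G.Adj a u).card : ℕ) : ℝ) ≤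
      (B.filter fun u => (Gm G F0).Adj a u).card + dn G a F0 := by
    exact_mod_cast Gm_fil G F0 B a
  exact h1.trans (add_le_add le_rfl (hκ a))

theorem gm_nF {V : Type} [Fintype V] (G : SimpleGraph V) (F0 : Finset V) (v : V) (hv : v ∉ F0)
    (A : Finset V) : dn (Gm G F0) v A = dn G v A := by
  unfold dn
  congr 1
  refine Finset.filter_congr fun u _ => ?_
  exact ⟨fun h => h.1, fun h => ⟨h, fun k => hv k.1⟩⟩

theorem xs_t {V : Type} [Fintype V] (G : SimpleGraph V) (Δ N : ℕ) (h : Xt G Δ N) : Xs G Δ N := by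
  have hN : (1000 : ℝ) ≤ N := by exact_mod_cast h.hN
  have hN0 : (0 : ℝ) < N := by linarith
  have hΔ0 : (0 : ℝ) ≤ Δ := Nat.cast_nonneg _
  refine ⟨h.hN, h.hΔ, h.n2, h.up, fun v => ?_, fun S hS => ?_, h.nb⟩
  · refine le_trans ?_ (h.lo v)
    have h1 : (Δ : ℝ) / (N : ℝ) ^ 21 ≤ Δ / (N : ℝ) ^ 20 :=
      div_le_div_of_nonneg_left hΔ0 (by positivity)
        (pow_le_pow_right₀ (by linarith) (by norm_num))
    linarith
  · refine le_trans ?_ (h.ex S hS)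
    have h1 : 0 ≤ (Δ : ℝ) / N * S.card := by positivity
    linarith

theorem xs_gm {V : Type} [Fintype V] (G : SimpleGraph V) (Δ N : ℕ) (h : Xt G Δ N)
    (F0 : Finset V) (hf : ∀ v, (dn G v F0 : ℝ) ≤ 2 * (Δ / (N : ℝ) ^ 31)) :
    Xs (Gm G F0) Δ N := by
  have hN : (1000 : ℝ) ≤ N := by exact_mod_cast h.hN
  have hN0 : (0 : ℝ) < N := by linarith
  have hΔ0 : (0 : ℝ) ≤ Δ := Nat.cast_nonneg _
  have e1 : (Δ : ℝ) / (N : ℝ) ^ 21 + 2 * (Δ / (N : ℝ) ^ 31) ≤ Δ / (N : ℝ) ^ 20 := by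
    have h1 : (Δ : ℝ) / (N : ℝ) ^ 31 ≤ Δ / (N : ℝ) ^ 21 :=
      div_le_div_of_nonneg_left hΔ0 (by positivity)
        (pow_le_pow_right₀ (by linarith) (by norm_num))
    have h2 : (Δ : ℝ) / (N : ℝ) ^ 20 = N * (Δ / (N : ℝ) ^ 21) := by
      field_simp
    have h3 : 0 ≤ (Δ : ℝ) / (N : ℝ) ^ 21 := by positivity
    rw [h2]
    nlinarith
  have e2 : 2 * ((Δ : ℝ) / (N : ℝ) ^ 31) ≤ Δ / N := by
    have h1 : (Δ : ℝ) / (N : ℝ) ^ 31 ≤ Δ / (N : ℝ) ^ 2 :=
      div_le_div_of_nonneg_left hΔ0 (by positivity)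
        (pow_le_pow_right₀ (by linarith) (by norm_num))
    have h2 : (Δ : ℝ) / N = N * (Δ / (N : ℝ) ^ 2) := by
      field_simp
    have h3 : 0 ≤ (Δ : ℝ) / (N : ℝ) ^ 2 := by positivity
    rw [h2]
    nlinarith
  refine ⟨h.hN, h.hΔ, h.n2, fun v => ?_, fun v => ?_, fun S hS => ?_, fun A B hAB => ?_⟩
  · refine le_trans ?_ (h.up v)
    unfold dg
    refine Finset.card_le_card fun x hx => ?_
    rw [Finset.mem_filter] at hx ⊢
    exact ⟨hx.1, hx.2.1⟩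
  · have h1 : (dg G v : ℝ) ≤ dg (Gm G F0) v + dn G v F0 := by exact_mod_cast gm_dg G F0 v
    have h2 := h.lo v
    have h3 := hf v
    linarith
  · have h1 := h.ex S hS
    have h2 := gm_ee G F0 _ hf S (univ \ S)
    have h3 : (0 : ℝ) ≤ S.card := Nat.cast_nonneg _
    have h4 : 2 * ((Δ : ℝ) / (N : ℝ) ^ 31) * S.card ≤ Δ / N * S.card :=
      mul_le_mul_of_nonneg_right e2 h3
    linarith
  · have h1 := h.nb A B hAB
    have h2 : (ee (Gm G F0) A B : ℝ) ≤ ee G A B := by exact_mod_cast Gm_ee_le G F0 A B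
    linarith

end Pool.Agent.H12.LS
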