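import Mathlib
import Pool.Agent.H12.LS.Defs
import Pool.Agent.H71.EX.Gr

/-!
PRC: the edges inside the sparse set `F0` get labels `t < T` in advance, spread out evenly.

Proof (greedy with a potential; compare `EX/Gr.lean`, proved).  Let `n = #V`, `f = 2 Δ / N ^ 31`. Go through the edges inside `F0` one
after another. At each time there are matchings `σ t` (involutions that move only vertices of `F0` outside `W t`, along edges of `G`
inside `F0`, edge-disjoint) whose edges are the edges treated so far. (For instance: induction over a list/Finset `L` of elements of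
`Sym2 V`; or: induction on the number of the untreated edges.) Let `x v t = dn G v {u : σ t u ≠ u}`,
`k v = ∑ t < T, x v t`, and `Ψ = ∑ v, ∑ t ∈ range T, exp (x v t - (16 / Δ) k v)`. Initially `σ t = id`, `Ψ = n T`.
New edge `a b` (`a, b ∈ F0`): the labels `t < T` with `a, b ∉ W t`, `σ t a = a`, `σ t b = b` form a set `A` with
`#A ≥ T - 2 Δ / N ^ 29 - 2 f ≥ Δ / 4` (`hw`; the `t` with `σ t a ≠ a` give different neighbours `σ t a` of `a` in `F0`: at most
`dn G a F0 ≤ f`; `hT1`). If `a b` gets the label `t ∈ A` (`σ t` then also exchanges `a` and `b`), `x v t` increases by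
`y v = [G.Adj v a] + [G.Adj v b] ≤ 2` and `k v` by `y v`. The sum over `t ∈ A` of the new potentials is
`∑ v, exp (- 16 y v / Δ) (#A Ψ_v + (exp (y v) - 1) ∑ t ∈ A, exp (x v t - (16/Δ) k v)) ≤ ∑ v, exp (- 16 y v / Δ) (#A + 4 y v) Ψ_v ≤ #A Ψ`,
`Ψ_v` the part of `v` (`exp y - 1 ≤ 4 y` for `y = 0, 1, 2`: `exp 1 < 2.72`; `1 + 4 y / #A ≤ 1 + 16 y / Δ ≤ exp (16 y / Δ)`). So some
`t ∈ A` does not increase `Ψ`.
At the end, for `v`, `t < T`: `exp (x v t - (16 / Δ) k v) ≤ Ψ ≤ n T`. `k v = ∑ u ∈ F0, G.Adj v u, #{t < T : σ t u ≠ u} ≤ f * f`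
(`σ t u` are different neighbours of `u` in `F0`). So `x v t ≤ log (n T) + 16 f ^ 2 / Δ ≤ 2 N + 1 + 64 Δ / N ^ 62 ≤ Δ / N ^ 50`
(`T ≤ Δ ≤ 2 n`, `n ≤ exp N`, `Δ ≥ N ^ 250`).
-/

set_option autoImplicit false

namespace Pool.Agent.H12.LS

open Finset Classical
open Pool.Agent.H71.DN Pool.Agent.H71.EX

noncomputable def Prc_x {V : Type} [Fintype V] (G : SimpleGraph V) (σ : ℕ → V → V) (v : V)
    (t : ℕ) : ℕ := dn G v (univ.filter fun u => σ t u ≠ u)

noncomputable def Prc_k {V : Type} [Fintype V] (G : SimpleGraph V) (T : ℕ) (σ : ℕ → V → V)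
    (v : V) : ℕ := ∑ t ∈ range T, Prc_x G σ v t

noncomputable def Prc_P {V : Type} [Fintype V] (G : SimpleGraph V) (T : ℕ) (c : ℝ)
    (σ : ℕ → V → V) : ℝ :=
  ∑ v, ∑ t ∈ range T, Real.exp ((Prc_x G σ v t : ℝ) - c * (Prc_k G T σ v : ℝ))

noncomputable def Prc_u {V : Type} (σ : ℕ → V → V) (a b : V) (t0 : ℕ) : ℕ → V → V :=
  fun t u => if t = t0 then (if u = a then b else if u = b then a else σ t u) else σ t u

noncomputable def Prc_y {V : Type} (G : SimpleGraph V) (a b v : V) : ℕ :=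
  (if G.Adj v a then 1 else 0) + (if G.Adj v b then 1 else 0)

/-- The state after the treatment of the edges in `L`. -/
structure Prc_I {V : Type} (G : SimpleGraph V) (T : ℕ) (F0 : Finset V)
    (W : ℕ → Finset V) (L : Finset (Sym2 V)) (σ : ℕ → V → V) : Prop where
  inv : ∀ t < T, ∀ v, σ t (σ t v) = v
  mov : ∀ t < T, ∀ v, σ t v ≠ v → v ∈ F0 ∧ v ∉ W t ∧ G.Adj v (σ t v) ∧ s(v, σ t v) ∈ L
  dis : ∀ s < T, ∀ t < T, s ≠ t → ∀ v, σ s v ≠ v → σ s v ≠ σ t v
  cov : ∀ u v, s(u, v) ∈ L → ∃ t < T, σ t u = v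
  adj : ∀ u v, s(u, v) ∈ L → G.Adj u v

theorem Prc_ins {V : Type} {G : SimpleGraph V} {T : ℕ} {F0 : Finset V}
    {W : ℕ → Finset V} {L : Finset (Sym2 V)} {σ : ℕ → V → V} (h : Prc_I G T F0 W L σ) {a b : V}
    (ha : a ∈ F0) (hb : b ∈ F0) (hab : G.Adj a b) (hL : s(a, b) ∉ L) {t0 : ℕ} (ht0 : t0 < T)
    (haW : a ∉ W t0) (hbW : b ∉ W t0) (hσa : σ t0 a = a) (hσb : σ t0 b = b) :
    Prc_I G T F0 W (insert s(a, b) L) (Prc_u σ a b t0) := by
  have hne : a ≠ b := hab.ne
  have hL' : s(b, a) ∉ L := by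
    rw [Sym2.eq_swap]
    exact hL
  have na : ∀ t < T, σ t a ≠ b := by
    intro t ht h1
    have h2 := (h.mov t ht a (by rw [h1]; exact hne.symm)).2.2.2
    rw [h1] at h2
    exact hL h2
  have nb : ∀ t < T, σ t b ≠ a := by
    intro t ht h1
    have h2 := (h.mov t ht b (by rw [h1]; exact hne)).2.2.2
    rw [h1] at h2
    exact hL' h2
  refine ⟨?_, ?_, ?_, ?_, ?_⟩
  · intro t ht v
    by_cases h0 : t = t0
    · subst h0
      unfold Prc_u
      by_cases hva : v = a
      · subst hva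
        simp only [if_true, if_neg hne.symm]
      · by_cases hvb : v = b
        · subst hvb
          simp only [if_true, if_neg hne.symm]
        · have h1 : σ t v ≠ a := by
            intro h2
            have h3 := h.inv t ht v
            rw [h2, hσa] at h3
            exact hva h3.symm
          have h2 : σ t v ≠ b := by
            intro h2
            have h3 := h.inv t ht v
            rw [h2, hσb] at h3
            exact hvb h3.symm
          simp only [if_true, if_neg hva, if_neg hvb, if_neg h1, if_neg h2]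
          exact h.inv t ht v
    · unfold Prc_u
      simp only [if_neg h0]
      exact h.inv t ht v
  · intro t ht v hv
    by_cases h0 : t = t0
    · subst h0
      unfold Prc_u at hv ⊢
      by_cases hva : v = a
      · subst hva
        simp only [if_true]
        exact ⟨ha, haW, hab, Finset.mem_insert_self _ _⟩
      · by_cases hvb : v = b
        · subst hvb
          simp only [if_true, if_neg hne.symm]
          refine ⟨hb, hbW, hab.symm, ?_⟩
          rw [Sym2.eq_swap]
          exact Finset.mem_insert_self _ _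
        · simp only [if_true, if_neg hva, if_neg hvb] at hv ⊢
          obtain ⟨h1, h2, h3, h4⟩ := h.mov t ht v hv
          exact ⟨h1, h2, h3, Finset.mem_insert_of_mem h4⟩
    · unfold Prc_u at hv ⊢
      simp only [if_neg h0] at hv ⊢
      obtain ⟨h1, h2, h3, h4⟩ := h.mov t ht v hv
      exact ⟨h1, h2, h3, Finset.mem_insert_of_mem h4⟩
  · intro s hs t ht hst v hv
    unfold Prc_u at hv ⊢
    by_cases h0 : s = t0
    · subst h0
      have h1 : t ≠ s := fun h' => hst h'.symm
      by_cases hva : v = a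
      · subst hva
        simp only [if_true, if_neg h1]
        exact (na t ht).symm
      · by_cases hvb : v = b
        · subst hvb
          simp only [if_true, if_neg h1, if_neg hne.symm]
          exact (nb t ht).symm
        · simp only [if_true, if_neg h1, if_neg hva, if_neg hvb] at hv ⊢
          exact h.dis s hs t ht hst v hv
    · by_cases h1 : t = t0
      · subst h1
        by_cases hva : v = a
        · subst hva
          simp only [if_true, if_neg h0]
          exact na s hs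
        · by_cases hvb : v = b
          · subst hvb
            simp only [if_true, if_neg h0, if_neg hne.symm]
            exact nb s hs
          · simp only [if_true, if_neg h0, if_neg hva, if_neg hvb] at hv ⊢
            exact h.dis s hs t ht hst v hv
      · simp only [if_neg h0, if_neg h1] at hv ⊢
        exact h.dis s hs t ht hst v hv
  · intro u v huv
    rcases Finset.mem_insert.mp huv with h1 | h1
    · rcases Sym2.eq_iff.mp h1 with ⟨h2, h3⟩ | ⟨h2, h3⟩
      · refine ⟨t0, ht0, ?_⟩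
        unfold Prc_u
        rw [if_pos rfl, if_pos h2, h3]
      · refine ⟨t0, ht0, ?_⟩
        unfold Prc_u
        rw [if_pos rfl, h2, h3, if_neg hne.symm, if_pos rfl]
    · obtain ⟨t, ht, h2⟩ := h.cov u v h1
      have h3 := h.adj u v h1
      refine ⟨t, ht, ?_⟩
      unfold Prc_u
      by_cases h0 : t = t0
      · subst h0
        have hua : u ≠ a := by
          rintro rfl
          rw [hσa] at h2
          exact h3.ne h2
        have hub : u ≠ b := by
          rintro rfl
          rw [hσb] at h2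
          exact h3.ne h2
        rw [if_pos rfl, if_neg hua, if_neg hub]
        exact h2
      · rw [if_neg h0]
        exact h2
  · intro u v huv
    rcases Finset.mem_insert.mp huv with h1 | h1
    · rcases Sym2.eq_iff.mp h1 with ⟨h2, h3⟩ | ⟨h2, h3⟩
      · rw [h2, h3]
        exact hab
      · rw [h2, h3]
        exact hab.symm
    · exact h.adj u v h1

theorem Prc_x_u {V : Type} [Fintype V] (G : SimpleGraph V) (σ : ℕ → V → V) {a b : V} {t0 : ℕ}
    (hne : a ≠ b) (hσa : σ t0 a = a) (hσb : σ t0 b = b) (v : V) (t : ℕ) :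
    Prc_x G (Prc_u σ a b t0) v t = Prc_x G σ v t + (if t0 = t then Prc_y G a b v else 0) := by
  by_cases h0 : t0 = t
  · subst h0
    rw [if_pos rfl]
    unfold Prc_x dn
    have hM : (univ.filter fun u => Prc_u σ a b t0 t0 u ≠ u) =
        insert a (insert b (univ.filter fun u => σ t0 u ≠ u)) := by
      ext u
      unfold Prc_u
      rw [Finset.mem_insert, Finset.mem_insert, Finset.mem_filter, Finset.mem_filter]
      by_cases hua : u = a
      · subst hua
        simp only [if_true, Finset.mem_univ, true_and, true_or, iff_true]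
        exact hne.symm
      · by_cases hub : u = b
        · subst hub
          simp only [if_true, Finset.mem_univ, true_and, true_or, or_true, iff_true, if_neg hua]
          exact hne
        · simp only [if_true, Finset.mem_univ, true_and, hua, hub, false_or, if_false]
    have hb1 : b ∉ ((univ.filter fun u => σ t0 u ≠ u).filter fun u => G.Adj v u) := by
      intro h
      exact (Finset.mem_filter.mp (Finset.mem_filter.mp h).1).2 hσb
    have ha1 : a ∉ ((univ.filter fun u => σ t0 u ≠ u).filter fun u => G.Adj v u) := by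
      intro h
      exact (Finset.mem_filter.mp (Finset.mem_filter.mp h).1).2 hσa
    rw [hM, Finset.filter_insert, Finset.filter_insert]
    unfold Prc_y
    by_cases h1 : G.Adj v a
    · by_cases h2 : G.Adj v b
      · rw [if_pos h1, if_pos h2, if_pos h1, if_pos h2, Finset.card_insert_of_notMem,
          Finset.card_insert_of_notMem hb1]
        intro h3
        rcases Finset.mem_insert.mp h3 with h4 | h4
        · exact hne h4
        · exact ha1 h4
      · rw [if_pos h1, if_neg h2, if_pos h1, if_neg h2, Finset.card_insert_of_notMem ha1]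
    · by_cases h2 : G.Adj v b
      · rw [if_neg h1, if_pos h2, if_neg h1, if_pos h2, Finset.card_insert_of_notMem hb1]
      · rw [if_neg h1, if_neg h2, if_neg h1, if_neg h2, add_zero, add_zero]
  · rw [if_neg h0, add_zero]
    unfold Prc_x Prc_u
    have h1 : t ≠ t0 := fun h => h0 h.symm
    simp only [if_neg h1]

theorem Prc_k_u {V : Type} [Fintype V] (G : SimpleGraph V) (σ : ℕ → V → V) {a b : V} {t0 T : ℕ}
    (ht0 : t0 < T) (hne : a ≠ b) (hσa : σ t0 a = a) (hσb : σ t0 b = b) (v : V) :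
    Prc_k G T (Prc_u σ a b t0) v = Prc_k G T σ v + Prc_y G a b v := by
  unfold Prc_k
  rw [Finset.sum_congr rfl fun t _ => Prc_x_u G σ hne hσa hσb v t, Finset.sum_add_distrib,
    Finset.sum_ite_eq, if_pos (Finset.mem_range.mpr ht0)]

theorem Prc_exp (y : ℕ) (hy : y ≤ 2) : Real.exp y - 1 ≤ 4 * y := by
  have h1 := Real.exp_one_lt_d9
  have h0 := Real.exp_pos 1
  interval_cases y
  · simp
  · norm_num
    linarith
  · have h2 : Real.exp ((2 : ℕ) : ℝ) = Real.exp 1 * Real.exp 1 := by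
      rw [← Real.exp_add]
      norm_num
    rw [h2]
    push_cast
    nlinarith

theorem Prc_one (T : ℕ) (A : Finset ℕ) (hA : A ⊆ range T) (c : ℝ)
    (h : 4 ≤ c * A.card) (y : ℕ) (hy : y ≤ 2) (E : ℕ → ℝ) (hE : ∀ j, 0 ≤ E j) :
    ∑ t0 ∈ A, ∑ t ∈ range T, E t * Real.exp ((if t0 = t then (y : ℝ) else 0) - c * y) ≤
      A.card * ∑ t ∈ range T, E t := by
  obtain ⟨S, hS⟩ : ∃ S, S = ∑ t ∈ range T, E t := ⟨_, rfl⟩
  have hS0 : 0 ≤ S := by rw [hS]; exact Finset.sum_nonneg fun j _ => hE j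
  have h1 : ∀ t0 ∈ A, ∑ t ∈ range T, E t * Real.exp ((if t0 = t then (y : ℝ) else 0) - c * y) =
      Real.exp (-(c * y)) * (S + (Real.exp y - 1) * E t0) := by
    intro t0 ht0
    have h2 : ∀ t ∈ range T, E t * Real.exp ((if t0 = t then (y : ℝ) else 0) - c * y) =
        Real.exp (-(c * y)) * (E t + (if t0 = t then (Real.exp y - 1) * E t0 else 0)) := by
      intro t _
      by_cases ht : t0 = t
      · subst ht
        rw [if_pos rfl, if_pos rfl, sub_eq_add_neg, Real.exp_add]
        ring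
      · rw [if_neg ht, if_neg ht, zero_sub]
        ring
    rw [Finset.sum_congr rfl h2, ← Finset.mul_sum, Finset.sum_add_distrib, ← hS,
      Finset.sum_ite_eq, if_pos (hA ht0)]
  rw [Finset.sum_congr rfl h1, ← Finset.mul_sum, Finset.sum_add_distrib, ← Finset.mul_sum,
    Finset.sum_const, nsmul_eq_mul, ← hS]
  have h3 : ∑ t ∈ A, E t ≤ S := by
    rw [hS]; exact Finset.sum_le_sum_of_subset_of_nonneg hA fun j _ _ => hE j
  have h3' : 0 ≤ ∑ t ∈ A, E t := Finset.sum_nonneg fun j _ => hE j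
  have he := Prc_exp y hy
  have hy0 : (0 : ℝ) ≤ y := Nat.cast_nonneg y
  have he0 : 0 ≤ Real.exp y - 1 := by
    have := Real.add_one_le_exp (y : ℝ); linarith
  have h4 : (Real.exp y - 1) * ∑ t ∈ A, E t ≤ 4 * y * S :=
    mul_le_mul he h3 h3' (by positivity)
  have h5 : Real.exp (-(c * y)) * ((A.card : ℝ) * S + (Real.exp y - 1) * ∑ t ∈ A, E t) ≤
      Real.exp (-(c * y)) * (((A.card : ℝ) + 4 * y) * S) := by
    apply mul_le_mul_of_nonneg_left _ (Real.exp_pos _).le
    linarith
  have h6 : Real.exp (-(c * y)) * ((A.card : ℝ) + 4 * y) ≤ A.card := by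
    have h7 : (A.card : ℝ) + 4 * y ≤ A.card * Real.exp (c * y) := by
      have h8 := Real.add_one_le_exp (c * (y : ℝ))
      have h9 : (A.card : ℝ) * (c * y + 1) ≤ A.card * Real.exp (c * y) :=
        mul_le_mul_of_nonneg_left h8 (Nat.cast_nonneg _)
      have h10 : 4 * (y : ℝ) ≤ c * A.card * y := mul_le_mul_of_nonneg_right h hy0
      nlinarith
    calc Real.exp (-(c * y)) * ((A.card : ℝ) + 4 * y)
        ≤ Real.exp (-(c * y)) * (A.card * Real.exp (c * y)) :=
          mul_le_mul_of_nonneg_left h7 (Real.exp_pos _).le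
      _ = A.card * (Real.exp (-(c * y)) * Real.exp (c * y)) := by ring
      _ = A.card := by rw [← Real.exp_add, neg_add_cancel, Real.exp_zero, mul_one]
  calc Real.exp (-(c * y)) * ((A.card : ℝ) * S + (Real.exp y - 1) * ∑ t ∈ A, E t)
      ≤ Real.exp (-(c * y)) * (((A.card : ℝ) + 4 * y) * S) := h5
    _ = (Real.exp (-(c * y)) * ((A.card : ℝ) + 4 * y)) * S := by ring
    _ ≤ A.card * S := mul_le_mul_of_nonneg_right h6 hS0

theorem Prc_step {V : Type} [Fintype V] (G : SimpleGraph V) (T : ℕ) (c : ℝ)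
    (σ : ℕ → V → V) {a b : V} (hne : a ≠ b) (A : Finset ℕ) (hA : A ⊆ range T)
    (hσ : ∀ t ∈ A, σ t a = a ∧ σ t b = b) (h : 4 ≤ c * A.card) :
    ∃ t0 ∈ A, Prc_P G T c (Prc_u σ a b t0) ≤ Prc_P G T c σ := by
  have hA0 : A.Nonempty := by
    rw [← Finset.card_pos]
    rcases Nat.eq_zero_or_pos A.card with h0 | h0
    · rw [h0, Nat.cast_zero, mul_zero] at h
      linarith
    · exact h0
  apply Finset.exists_le_of_sum_le hA0
  rw [Finset.sum_const, nsmul_eq_mul]
  unfold Prc_P
  rw [Finset.sum_comm, Finset.mul_sum]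
  apply Finset.sum_le_sum
  intro v _
  have h1 : ∀ t0 ∈ A, ∑ t ∈ range T, Real.exp ((Prc_x G (Prc_u σ a b t0) v t : ℝ) -
        c * (Prc_k G T (Prc_u σ a b t0) v : ℝ)) =
      ∑ t ∈ range T, Real.exp ((Prc_x G σ v t : ℝ) - c * (Prc_k G T σ v : ℝ)) *
        Real.exp ((if t0 = t then (Prc_y G a b v : ℝ) else 0) - c * (Prc_y G a b v : ℝ)) := by
    intro t0 ht0
    apply Finset.sum_congr rfl
    intro t _
    rw [Prc_x_u G σ hne (hσ t0 ht0).1 (hσ t0 ht0).2,
      Prc_k_u G σ (Finset.mem_range.mp (hA ht0)) hne (hσ t0 ht0).1 (hσ t0 ht0).2, ← Real.exp_add]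
    congr 1
    by_cases ht : t0 = t
    · rw [if_pos ht, if_pos ht]
      push_cast
      ring
    · rw [if_neg ht, if_neg ht]
      push_cast
      ring
  rw [Finset.sum_congr rfl h1]
  refine Prc_one T A hA c h _ ?_ _ fun j => (Real.exp_pos _).le
  unfold Prc_y
  split_ifs <;> norm_num

theorem Prc_cnt {V : Type} [Fintype V] {G : SimpleGraph V} {T : ℕ} {F0 : Finset V}
    {W : ℕ → Finset V} {L : Finset (Sym2 V)} {σ : ℕ → V → V} (h : Prc_I G T F0 W L σ) (u : V) :
    ((range T).filter fun t => σ t u ≠ u).card ≤ dn G u F0 := by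
  unfold dn
  apply Finset.card_le_card_of_injOn (fun t => σ t u)
  · intro t ht
    have h1 := Finset.mem_filter.mp (Finset.mem_coe.mp ht)
    have h2 := Finset.mem_range.mp h1.1
    have h3 := h.mov t h2 u h1.2
    rw [Finset.mem_coe, Finset.mem_filter]
    refine ⟨?_, h3.2.2.1⟩
    have h4 : σ t (σ t u) ≠ σ t u := by
      rw [h.inv t h2]
      exact h1.2.symm
    exact (h.mov t h2 _ h4).1
  · intro s hs t ht hst
    have h1 := Finset.mem_filter.mp (Finset.mem_coe.mp hs)
    have h2 := Finset.mem_filter.mp (Finset.mem_coe.mp ht)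
    by_contra hne
    exact h.dis s (Finset.mem_range.mp h1.1) t (Finset.mem_range.mp h2.1) hne u h1.2 hst

theorem Prc_avail {V : Type} [Fintype V] {G : SimpleGraph V} {T : ℕ} {F0 : Finset V}
    {W : ℕ → Finset V} {L : Finset (Sym2 V)} {σ : ℕ → V → V} (h : Prc_I G T F0 W L σ) (a b : V) :
    T ≤ ((range T).filter fun t => a ∉ W t ∧ b ∉ W t ∧ σ t a = a ∧ σ t b = b).card +
      (((range T).filter fun t => a ∈ W t).card + ((range T).filter fun t => b ∈ W t).card) +
      (dn G a F0 + dn G b F0) := by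
  have h1 := Prc_cnt h a
  have h2 := Prc_cnt h b
  have h3 : range T ⊆ ((((range T).filter fun t => a ∉ W t ∧ b ∉ W t ∧ σ t a = a ∧ σ t b = b) ∪
      (((range T).filter fun t => a ∈ W t) ∪ ((range T).filter fun t => b ∈ W t))) ∪
      (((range T).filter fun t => σ t a ≠ a) ∪ ((range T).filter fun t => σ t b ≠ b))) := by
    intro t ht
    simp only [Finset.mem_union, Finset.mem_filter, ht, true_and]
    tauto
  have h4 := Finset.card_le_card h3
  rw [Finset.card_range] at h4
  have h5 := Finset.card_union_le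
    (((range T).filter fun t => a ∉ W t ∧ b ∉ W t ∧ σ t a = a ∧ σ t b = b) ∪
      (((range T).filter fun t => a ∈ W t) ∪ ((range T).filter fun t => b ∈ W t)))
    (((range T).filter fun t => σ t a ≠ a) ∪ ((range T).filter fun t => σ t b ≠ b))
  have h6 := Finset.card_union_le
    ((range T).filter fun t => a ∉ W t ∧ b ∉ W t ∧ σ t a = a ∧ σ t b = b)
    (((range T).filter fun t => a ∈ W t) ∪ ((range T).filter fun t => b ∈ W t))
  have h7 := Finset.card_union_le ((range T).filter fun t => a ∈ W t)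
    ((range T).filter fun t => b ∈ W t)
  have h8 := Finset.card_union_le ((range T).filter fun t => σ t a ≠ a)
    ((range T).filter fun t => σ t b ≠ b)
  omega

theorem Prc_key {V : Type} [Fintype V] (G : SimpleGraph V) (Δ N T : ℕ) (F0 : Finset V)
    (W : ℕ → Finset V) (hN : 1000 ≤ N) (hΔ : 0 < Δ) (hT1 : Δ ≤ 2 * T)
    (hf : ∀ v, (dn G v F0 : ℝ) ≤ 2 * (Δ / (N : ℝ) ^ 31))
    (hw : ∀ v, (((range T).filter fun t => v ∈ W t).card : ℝ) ≤ Δ / (N : ℝ) ^ 29) :
    ∀ L : Finset (Sym2 V), (∀ e ∈ L, ∃ a b, e = s(a, b) ∧ a ∈ F0 ∧ b ∈ F0 ∧ G.Adj a b) →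
      ∃ σ, Prc_I G T F0 W L σ ∧ Prc_P G T (16 / Δ) σ ≤ Fintype.card V * T := by
  intro L
  induction L using Finset.induction_on with
  | empty =>
    intro _
    refine ⟨fun _ v => v, ⟨fun t _ v => rfl, fun t _ v hv => absurd rfl hv,
      fun s _ t _ _ v hv => absurd rfl hv, fun u v huv => absurd huv (Finset.notMem_empty _),
      fun u v huv => absurd huv (Finset.notMem_empty _)⟩, ?_⟩
    have h1 : ∀ (v : V) (t : ℕ), Prc_x G (fun _ v => v) v t = 0 := by
      intro v t
      unfold Prc_x dn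
      simp
    have h2 : ∀ v : V, Prc_k G T (fun _ v => v) v = 0 := by
      intro v
      unfold Prc_k
      exact Finset.sum_eq_zero fun t _ => h1 v t
    unfold Prc_P
    simp only [h1, h2, Nat.cast_zero, mul_zero, sub_zero, Real.exp_zero, Finset.sum_const,
      Finset.card_range, Finset.card_univ, nsmul_eq_mul, mul_one]
    exact le_rfl
  | insert e L he ih =>
    intro hE
    obtain ⟨σ, hσ, hP⟩ := ih fun e' he' => hE e' (Finset.mem_insert_of_mem he')
    obtain ⟨a, b, rfl, ha, hb, hab⟩ := hE e (Finset.mem_insert_self _ _)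
    obtain ⟨A, hAd⟩ : ∃ A, A = (range T).filter fun t => a ∉ W t ∧ b ∉ W t ∧ σ t a = a ∧
      σ t b = b := ⟨_, rfl⟩
    have hav := Prc_avail hσ a b
    rw [← hAd] at hav
    have hΔ0 : (0 : ℝ) < Δ := by exact_mod_cast hΔ
    have hN0 : (1000 : ℝ) ≤ N := by exact_mod_cast hN
    have h4 : (4 : ℝ) ≤ 16 / Δ * A.card := by
      have h1 : (T : ℝ) ≤ A.card + ((((range T).filter fun t => a ∈ W t).card : ℝ) +
          (((range T).filter fun t => b ∈ W t).card : ℝ)) + ((dn G a F0 : ℝ) + dn G b F0) := by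
        exact_mod_cast hav
      have h2 : (Δ : ℝ) ≤ 2 * T := by exact_mod_cast hT1
      have h3 : (Δ : ℝ) / (N : ℝ) ^ 29 ≤ Δ / 1000 := by
        apply div_le_div_of_nonneg_left hΔ0.le (by norm_num)
        exact hN0.trans (le_self_pow₀ (by linarith) (by norm_num))
      have h5 : (Δ : ℝ) / (N : ℝ) ^ 31 ≤ Δ / 1000 := by
        apply div_le_div_of_nonneg_left hΔ0.le (by norm_num)
        exact hN0.trans (le_self_pow₀ (by linarith) (by norm_num))
      have h6 := hf a
      have h7 := hf b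
      have h8 := hw a
      have h9 := hw b
      have h10 : (Δ : ℝ) / 4 ≤ A.card := by linarith
      rw [div_mul_eq_mul_div, le_div_iff₀ hΔ0]
      linarith
    obtain ⟨t0, ht0, hP0⟩ := Prc_step G T (16 / Δ) σ hab.ne A
      (by rw [hAd]; exact Finset.filter_subset _ _)
      (fun t ht => by
        rw [hAd] at ht
        exact (Finset.mem_filter.mp ht).2.2.2) h4
    rw [hAd] at ht0
    have h5 := Finset.mem_filter.mp ht0
    exact ⟨Prc_u σ a b t0, Prc_ins hσ ha hb hab he (Finset.mem_range.mp h5.1) h5.2.1 h5.2.2.1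
      h5.2.2.2.1 h5.2.2.2.2, hP0.trans hP⟩

theorem Prc_kle {V : Type} [Fintype V] {G : SimpleGraph V} {T : ℕ} {F0 : Finset V}
    {W : ℕ → Finset V} {L : Finset (Sym2 V)} {σ : ℕ → V → V} (h : Prc_I G T F0 W L σ)
    {f : ℝ} (hf : ∀ v, (dn G v F0 : ℝ) ≤ f) (v : V) : (Prc_k G T σ v : ℝ) ≤ f * f := by
  have h1 : Prc_k G T σ v = ∑ u ∈ univ.filter (fun u => G.Adj v u),
      ((range T).filter fun t => σ t u ≠ u).card := by
    unfold Prc_k Prc_x dn
    simp only [Finset.card_filter, Finset.filter_filter]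
    rw [Finset.sum_comm]
    rw [Finset.sum_filter]
    apply Finset.sum_congr rfl
    intro u _
    by_cases h0 : G.Adj v u
    · simp only [h0, and_true, if_true]
    · simp only [h0, and_false, if_false, Finset.sum_const_zero]
  have h2 : ∑ u ∈ univ.filter (fun u => G.Adj v u),
      ((range T).filter fun t => σ t u ≠ u).card =
      ∑ u ∈ F0.filter (fun u => G.Adj v u), ((range T).filter fun t => σ t u ≠ u).card := by
    symm
    apply Finset.sum_subset
    · exact Finset.filter_subset_filter _ (Finset.subset_univ _)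
    · intro u hu hu2
      rw [Finset.card_eq_zero, Finset.filter_eq_empty_iff]
      intro t ht h3
      apply hu2
      rw [Finset.mem_filter]
      exact ⟨(h.mov t (Finset.mem_range.mp ht) u h3).1, (Finset.mem_filter.mp hu).2⟩
  rw [h1, h2]
  push_cast
  have h3 : ∀ u ∈ F0.filter (fun u => G.Adj v u),
      (((range T).filter fun t => σ t u ≠ u).card : ℝ) ≤ f := by
    intro u _
    refine le_trans ?_ (hf u)
    exact_mod_cast Prc_cnt h u
  refine (Finset.sum_le_sum h3).trans ?_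
  rw [Finset.sum_const, nsmul_eq_mul]
  have h4 : ((F0.filter fun u => G.Adj v u).card : ℝ) ≤ f := hf v
  have h5 : 0 ≤ f := le_trans (Nat.cast_nonneg _) (hf v)
  exact mul_le_mul_of_nonneg_right h4 h5

theorem Prc_num {n Δ N T : ℝ} (hN : 1000 ≤ N) (hΔ : N ^ 250 ≤ Δ) (hn : n ≤ Real.exp N)
    (hn0 : 0 < n) (hn2 : Δ ≤ 2 * n) (hT2 : T ≤ Δ) (hT0 : 0 < T) :
    Real.log (n * T) + 16 / Δ * (2 * (Δ / N ^ 31) * (2 * (Δ / N ^ 31))) ≤ Δ / N ^ 50 := by
  have hN0 : 0 < N := by linarith
  have hΔ0 : 0 < Δ := lt_of_lt_of_le (by positivity) hΔ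
  have h1 : Real.log (n * T) ≤ 2 * N + 1 := by
    rw [Real.log_mul hn0.ne' hT0.ne']
    have a1 : Real.log n ≤ N := by
      rw [← Real.log_exp N]
      exact Real.log_le_log hn0 hn
    have a2 : Real.log T ≤ Real.log (2 * n) := Real.log_le_log hT0 (hT2.trans hn2)
    rw [Real.log_mul (by norm_num) hn0.ne'] at a2
    have a3 : Real.log 2 < 1 := by
      have := Real.log_two_lt_d9
      linarith
    linarith
  have h2 : 16 / Δ * (2 * (Δ / N ^ 31) * (2 * (Δ / N ^ 31))) = 64 / N ^ 12 * (Δ / N ^ 50) := by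
    field_simp
    ring
  have h3 : 64 / N ^ 12 ≤ 1 / 2 := by
    rw [div_le_iff₀ (by positivity)]
    have : (1000 : ℝ) ≤ N ^ 12 := hN.trans (le_self_pow₀ (by linarith) (by norm_num))
    linarith
  have h4 : 2 * N + 1 ≤ 1 / 2 * (Δ / N ^ 50) := by
    have a1 : N ^ 200 ≤ Δ / N ^ 50 := by
      rw [le_div_iff₀ (by positivity), ← pow_add]
      exact hΔ
    have a2 : N ^ 2 ≤ N ^ 200 := pow_le_pow_right₀ (by linarith) (by norm_num)
    nlinarith
  have h5 : 0 ≤ Δ / N ^ 50 := by positivity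
  rw [h2]
  nlinarith

theorem prc {V : Type} [Fintype V] (G : SimpleGraph V) (Δ N T : ℕ) (F0 : Finset V)
    (W : ℕ → Finset V) (hN : 1000 ≤ N) (hΔ : N ^ 250 ≤ Δ)
    (hn : (Fintype.card V : ℝ) ≤ Real.exp N) (hn2 : ∀ v : V, Δ ≤ 2 * Fintype.card V)
    (hT1 : Δ ≤ 2 * T) (hT2 : T ≤ Δ)
    (hf : ∀ v, (dn G v F0 : ℝ) ≤ 2 * (Δ / (N : ℝ) ^ 31))
    (hw : ∀ v, (((range T).filter fun t => v ∈ W t).card : ℝ) ≤ Δ / (N : ℝ) ^ 29) :
    ∃ σ : ℕ → V → V, (∀ t < T, ∀ v, σ t (σ t v) = v) ∧
      (∀ t < T, ∀ v, σ t v ≠ v → v ∈ F0 ∧ v ∉ W t ∧ G.Adj v (σ t v)) ∧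
      (∀ s < T, ∀ t < T, s ≠ t → ∀ v, σ s v ≠ v → σ s v ≠ σ t v) ∧
      (∀ u ∈ F0, ∀ v ∈ F0, G.Adj u v → ∃ t < T, σ t u = v) ∧
      ∀ t < T, ∀ v, (dn G v (univ.filter fun u => σ t u ≠ u) : ℝ) ≤ Δ / (N : ℝ) ^ 50 := by
  have hN0 : (1000 : ℝ) ≤ N := by exact_mod_cast hN
  have hΔ1 : (N : ℝ) ^ 250 ≤ Δ := by exact_mod_cast hΔ
  have hNpos : 0 < N := by omega
  have hΔ0 : 0 < Δ := lt_of_lt_of_le (pow_pos hNpos _) hΔ
  obtain ⟨σ, hσ, hP⟩ := Prc_key G Δ N T F0 W hN hΔ0 hT1 hf hw
    (univ.filter fun e => ∃ a b, e = s(a, b) ∧ a ∈ F0 ∧ b ∈ F0 ∧ G.Adj a b)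
    (fun e he => (Finset.mem_filter.mp he).2)
  refine ⟨σ, hσ.inv, ?_, hσ.dis, ?_, ?_⟩
  · intro t ht v hv
    obtain ⟨h1, h2, h3, -⟩ := hσ.mov t ht v hv
    exact ⟨h1, h2, h3⟩
  · intro u hu v hv huv
    apply hσ.cov u v
    rw [Finset.mem_filter]
    exact ⟨Finset.mem_univ _, u, v, rfl, hu, hv, huv⟩
  · intro t ht v
    have hk := Prc_kle hσ hf v
    have hc : (0 : ℝ) < Δ := by exact_mod_cast hΔ0
    have hend : Real.exp ((Prc_x G σ v t : ℝ) - 16 / Δ * (Prc_k G T σ v : ℝ)) ≤
        Prc_P G T (16 / Δ) σ := by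
      unfold Prc_P
      have h1 : ∑ t ∈ range T, Real.exp ((Prc_x G σ v t : ℝ) -
          16 / Δ * (Prc_k G T σ v : ℝ)) ≤ ∑ v, ∑ t ∈ range T,
          Real.exp ((Prc_x G σ v t : ℝ) - 16 / Δ * (Prc_k G T σ v : ℝ)) :=
        Finset.single_le_sum (f := fun v => ∑ t ∈ range T,
          Real.exp ((Prc_x G σ v t : ℝ) - 16 / Δ * (Prc_k G T σ v : ℝ)))
          (fun v _ => Finset.sum_nonneg fun j _ => (Real.exp_pos _).le) (Finset.mem_univ v)
      have h2 : Real.exp ((Prc_x G σ v t : ℝ) - 16 / Δ * (Prc_k G T σ v : ℝ)) ≤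
          ∑ t ∈ range T, Real.exp ((Prc_x G σ v t : ℝ) - 16 / Δ * (Prc_k G T σ v : ℝ)) :=
        Finset.single_le_sum (f := fun t =>
          Real.exp ((Prc_x G σ v t : ℝ) - 16 / Δ * (Prc_k G T σ v : ℝ)))
          (fun t _ => (Real.exp_pos _).le) (Finset.mem_range.mpr ht)
      exact h2.trans h1
    have hn1 : 0 < Fintype.card V := Fintype.card_pos_iff.mpr ⟨v⟩
    have hn0 : (0 : ℝ) < Fintype.card V := by exact_mod_cast hn1
    have hT0 : (0 : ℝ) < T := by
      have : 0 < T := by omega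
      exact_mod_cast this
    have h1 : (Prc_x G σ v t : ℝ) - 16 / Δ * (Prc_k G T σ v : ℝ) ≤
        Real.log (Fintype.card V * T) := by
      rw [Real.le_log_iff_exp_le (mul_pos hn0 hT0)]
      exact hend.trans hP
    have h2 : 16 / (Δ : ℝ) * (Prc_k G T σ v : ℝ) ≤
        16 / Δ * (2 * (Δ / (N : ℝ) ^ 31) * (2 * (Δ / (N : ℝ) ^ 31))) :=
      mul_le_mul_of_nonneg_left hk (by positivity)
    have h3 := Prc_num hN0 hΔ1 hn hn0 (by exact_mod_cast hn2 v) (by exact_mod_cast hT2) hT0
    have h4 : (dn G v (univ.filter fun u => σ t u ≠ u) : ℝ) = (Prc_x G σ v t : ℝ) := rfl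
    rw [h4]
    linarith

end Pool.Agent.H12.LS
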