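import Mathlib
import Pool.Agent.H12.LS.Defs
import Pool.Agent.H71.EX.Rg

/-!
RGG: random subgraphs. Compare `EX/Rg.lean` (proved; copy and adapt; `rgg` is the same statement with general parameters).

Proof.  `rgg`: as `rg` in `EX/Rg.lean`: `rm` (`EX/Rm.lean`) with `E = Sym2 V`, the same three kinds of indices, the given `k`, `D`, `ε`,
`l`. With `κ = l ε - l ^ 2 D / k`, `y = exp (- κ)`, `n y < 1 / 16` the sum in `hsum` is at most
`2 n y + 2 ((1 + y) ^ (2 n) - 1) + 2 ((1 + y) ^ n - 1) ≤ 2 n y + 8 n y + 4 n y < 1`.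
`rg2`: `rgg` with `k = N ^ 8`, `D = Δ`, `ε = Δ / N ^ 21`, `l = 1 / N ^ 14`: `κ = Δ / N ^ 35 - Δ / N ^ 36 ≥ Δ / (2 N ^ 35) ≥ 4 N` and
`16 n exp (- κ) ≤ 16 exp (-3 N) < 1`.
-/

set_option autoImplicit false

namespace Pool.Agent.H12.LS

open Finset Classical
open Pool.Agent.H71.DN Pool.Agent.H71.EX

private lemma Rgg_ee {V : Type} [Fintype V] (G : SimpleGraph V) (A B : Finset V) :
    ee G A B = ∑ a ∈ A, ∑ b ∈ B, if G.Adj a b then 1 else 0 := by
  unfold ee
  rw [Finset.card_filter, Finset.sum_product]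

private lemma Rgg_le {V : Type} [Fintype V] (G : SimpleGraph V) {D : ℝ} (h : ∀ v, (dg G v : ℝ) ≤ D)
    (A B : Finset V) : (ee G A B : ℝ) ≤ D * A.card := by
  rw [Rgg_ee, mul_comm, ← nsmul_eq_mul]
  push_cast
  refine Finset.sum_le_card_nsmul _ _ _ fun a _ => (?_ : _ ≤ (dg G a : ℝ)).trans (h a)
  have h1 : ∑ b ∈ B, (if G.Adj a b then 1 else 0) ≤ dg G a := by
    unfold dg
    rw [Finset.card_filter]
    exact Finset.sum_le_sum_of_subset (Finset.subset_univ B)
  exact_mod_cast h1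

private lemma Rgg_dg {V : Type} [Fintype V] (G : SimpleGraph V) (v : V) :
    ee G {v} (univ \ {v}) = dg G v := by
  rw [Rgg_ee, Finset.sum_singleton, ← Finset.card_filter]
  unfold dg
  congr 1
  ext b
  simp only [mem_filter, mem_sdiff, mem_univ, mem_singleton, true_and]
  constructor
  · exact fun h => h.2
  · exact fun h => ⟨fun h' => G.loopless.irrefl v (h' ▸ h), h⟩

/-- the set of the edges between `A` and `B` -/
private noncomputable def Rgg_S {V : Type} [Fintype V] (G : SimpleGraph V) (A B : Finset V) :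
    Finset (Sym2 V) :=
  ((A ×ˢ B).filter fun x => G.Adj x.1 x.2).image fun x => s(x.1, x.2)

private lemma Rgg_inj {V : Type} {A B : Finset V} (h : Disjoint A B)
    {x y : V × V} (hx : x ∈ A ×ˢ B) (hy : y ∈ A ×ˢ B) (he : s(x.1, x.2) = s(y.1, y.2)) : x = y := by
  rw [Finset.mem_product] at hx hy
  rw [Sym2.eq_iff] at he
  rcases he with he | he
  · exact Prod.ext he.1 he.2
  · exfalso
    exact (Finset.disjoint_left.1 h) hx.1 (he.1 ▸ hy.2)

private lemma Rgg_cardS {V : Type} [Fintype V] (G : SimpleGraph V) {A B : Finset V}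
    (h : Disjoint A B) : (Rgg_S G A B).card = ee G A B := by
  unfold Rgg_S ee
  refine Finset.card_image_of_injOn fun x hx y hy he => ?_
  rw [Finset.mem_coe, Finset.mem_filter] at hx hy
  exact Rgg_inj h hx.1 hy.1 he

/-- the graph of the edges of `G` in `R0` -/
private def Rgg_R {V : Type} (G : SimpleGraph V) (R0 : Finset (Sym2 V)) : SimpleGraph V where
  Adj a b := G.Adj a b ∧ s(a, b) ∈ R0
  symm := ⟨fun a b h => ⟨h.1.symm, by rw [Sym2.eq_swap]; exact h.2⟩⟩
  loopless := ⟨fun a h => G.loopless.irrefl a h.1⟩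

private lemma Rgg_cardR {V : Type} [Fintype V] (G : SimpleGraph V) (R0 : Finset (Sym2 V))
    (dec : DecidableEq (Sym2 V)) {A B : Finset V} (h : Disjoint A B) :
    (@Inter.inter _ (@Finset.instInter _ dec) R0 (Rgg_S G A B)).card = ee (Rgg_R G R0) A B := by
  rw [← Rgg_cardS (Rgg_R G R0) h]
  congr 1
  ext e
  simp only [Rgg_S, Finset.mem_inter, Finset.mem_image, Finset.mem_filter]
  constructor
  · rintro ⟨h1, x, ⟨h2, h3⟩, rfl⟩
    exact ⟨x, ⟨h2, h3, h1⟩, rfl⟩
  · rintro ⟨x, ⟨h2, h3, h1⟩, rfl⟩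
    exact ⟨h1, x, ⟨h2, h3⟩, rfl⟩

private lemma Rgg_pow {V : Type} [Fintype V] (y : ℝ) :
    ∑ A : Finset V, y ^ A.card = (1 + y) ^ Fintype.card V := by
  have h1 := Finset.sum_pow_mul_eq_add_pow y 1 (univ : Finset V)
  rw [Finset.powerset_univ, Finset.card_univ] at h1
  simp only [one_pow, mul_one] at h1
  rw [h1, add_comm]

private lemma Rgg_exp {y : ℝ} (hy : 0 ≤ y) (m : ℕ) (h : (m : ℝ) * y ≤ 1) :
    (1 + y) ^ m - 1 ≤ 2 * (m * y) := by
  have h1 : (1 + y) ^ m ≤ Real.exp (m * y) := by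
    rw [Real.exp_nat_mul]
    refine pow_le_pow_left₀ (by linarith) ?_ m
    linarith [Real.add_one_le_exp y]
  have h0 : 0 ≤ (m : ℝ) * y := by positivity
  have h2 := Real.abs_exp_sub_one_sub_id_le (x := (m : ℝ) * y) (by rw [abs_of_nonneg h0]; exact h)
  have h3 := (abs_le.1 h2).2
  nlinarith

private lemma Rgg_sum {V : Type} [Fintype V] (c : ℝ)
    (h : 12 * (Fintype.card V * Real.exp (-c)) < 1) :
    ∑ i : {x : Finset V × Finset V // Disjoint x.1 x.2 ∧ (x.1 ∪ x.2).Nonempty} ⊕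
      {A : Finset V // A.Nonempty}, 2 * Real.exp (- c * Sum.elim
        (fun x : {x : Finset V × Finset V // Disjoint x.1 x.2 ∧ (x.1 ∪ x.2).Nonempty} =>
          ((x.1.1.card : ℝ) + x.1.2.card))
        (fun A : {A : Finset V // A.Nonempty} => (A.1.card : ℝ)) i) < 1 := by
  obtain ⟨y, hy⟩ : ∃ y, y = Real.exp (-c) := ⟨_, rfl⟩
  have hy0 : 0 < y := hy ▸ Real.exp_pos _
  rw [← hy] at h
  have hpow : ∀ m : ℕ, Real.exp (-c * m) = y ^ m := by
    intro m
    rw [hy, ← Real.exp_nat_mul, mul_comm]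
  rw [Fintype.sum_sum_type]
  simp only [Sum.elim_inl, Sum.elim_inr]
  have h1 : ∑ x : {x : Finset V × Finset V // Disjoint x.1 x.2 ∧ (x.1 ∪ x.2).Nonempty},
      2 * Real.exp (-c * ((x.1.1.card : ℝ) + x.1.2.card)) ≤
      2 * ((1 + y) ^ (2 * Fintype.card V) - 1) := by
    have e1 : ∀ x : {x : Finset V × Finset V // Disjoint x.1 x.2 ∧ (x.1 ∪ x.2).Nonempty},
        2 * Real.exp (-c * ((x.1.1.card : ℝ) + x.1.2.card)) =
        (fun x : Finset V × Finset V => 2 * (y ^ x.1.card * y ^ x.2.card)) x.1 := by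
      intro x
      dsimp only
      rw [← pow_add, ← hpow]
      push_cast
      rfl
    rw [Finset.sum_congr rfl fun x _ => e1 x,
      ← Finset.sum_subtype (univ.filter fun x : Finset V × Finset V =>
        Disjoint x.1 x.2 ∧ (x.1 ∪ x.2).Nonempty) (by simp)
        (fun x : Finset V × Finset V => 2 * (y ^ x.1.card * y ^ x.2.card))]
    have e2 : ∑ x ∈ univ.filter (fun x : Finset V × Finset V =>
        Disjoint x.1 x.2 ∧ (x.1 ∪ x.2).Nonempty), 2 * (y ^ x.1.card * y ^ x.2.card) ≤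
        ∑ x ∈ univ.erase ((∅, ∅) : Finset V × Finset V), 2 * (y ^ x.1.card * y ^ x.2.card) := by
      refine Finset.sum_le_sum_of_subset_of_nonneg (fun x hx => ?_) fun x _ _ => by positivity
      rw [Finset.mem_filter] at hx
      rw [Finset.mem_erase]
      refine ⟨fun h' => ?_, Finset.mem_univ x⟩
      subst h'
      simpa using hx.2.2
    refine e2.trans (le_of_eq ?_)
    have e3 := Finset.add_sum_erase univ
      (fun x : Finset V × Finset V => 2 * (y ^ x.1.card * y ^ x.2.card))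
      (Finset.mem_univ ((∅, ∅) : Finset V × Finset V))
    have e4 : ∑ x : Finset V × Finset V, 2 * (y ^ x.1.card * y ^ x.2.card) =
        2 * (1 + y) ^ (2 * Fintype.card V) := by
      rw [← Finset.mul_sum, Fintype.sum_prod_type, two_mul (Fintype.card V), pow_add, ← Rgg_pow,
        Finset.sum_mul_sum]
    rw [e4] at e3
    simp only [Finset.card_empty, pow_zero, mul_one] at e3
    linarith
  have h2 : ∑ A : {A : Finset V // A.Nonempty}, 2 * Real.exp (-c * (A.1.card : ℝ)) ≤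
      2 * ((1 + y) ^ (Fintype.card V) - 1) := by
    have e1 : ∀ A : {A : Finset V // A.Nonempty}, 2 * Real.exp (-c * (A.1.card : ℝ)) =
        (fun A : Finset V => 2 * y ^ A.card) A.1 := by
      intro A
      dsimp only
      rw [← hpow]
    rw [Finset.sum_congr rfl fun x _ => e1 x,
      ← Finset.sum_subtype (univ.filter fun A : Finset V => A.Nonempty) (by simp)
        (fun A : Finset V => 2 * y ^ A.card)]
    have e2 : ∑ A ∈ univ.filter (fun A : Finset V => A.Nonempty), 2 * y ^ A.card ≤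
        ∑ A ∈ univ.erase (∅ : Finset V), 2 * y ^ A.card := by
      refine Finset.sum_le_sum_of_subset_of_nonneg (fun x hx => ?_) fun x _ _ => by positivity
      rw [Finset.mem_filter] at hx
      rw [Finset.mem_erase]
      exact ⟨hx.2.ne_empty, Finset.mem_univ x⟩
    refine e2.trans (le_of_eq ?_)
    have e3 := Finset.add_sum_erase univ (fun A : Finset V => 2 * y ^ A.card)
      (Finset.mem_univ (∅ : Finset V))
    have e4 : ∑ A : Finset V, 2 * y ^ A.card = 2 * (1 + y) ^ Fintype.card V := by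
      rw [← Finset.mul_sum, Rgg_pow]
    rw [e4] at e3
    simp only [Finset.card_empty, pow_zero, mul_one] at e3
    linarith
  have hn0 : (0 : ℝ) ≤ Fintype.card V := Nat.cast_nonneg _
  have h3 := Rgg_exp hy0.le (2 * Fintype.card V) (by push_cast; nlinarith)
  have h4 := Rgg_exp hy0.le (Fintype.card V) (by nlinarith)
  push_cast at h3
  nlinarith

theorem rgg {V : Type} [Fintype V] (G : SimpleGraph V) (k : ℕ) (D ε l : ℝ) (hk : 1 ≤ k)
    (hl0 : 0 < l) (hl1 : l ≤ 1) (up : ∀ v, (dg G v : ℝ) ≤ D)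
    (hκ : 16 * (Fintype.card V : ℝ) * Real.exp (- (l * ε - l ^ 2 * D / k)) < 1) :
    ∃ R : SimpleGraph V, R ≤ G ∧
      (∀ v, |(dg R v : ℝ) - dg G v / k| ≤ ε) ∧
      (∀ A B : Finset V, Disjoint A B →
        (ee R A B : ℝ) ≤ ee G A B / k + ε * (A.card + B.card)) ∧
      ∀ S : Finset V, (ee G S (univ \ S) : ℝ) / k - ε * S.card ≤ ee R S (univ \ S) := by
  have hsmall : 12 * (Fintype.card V * Real.exp (- (l * ε - l ^ 2 * D / k))) < 1 := by
    have h0 : (0 : ℝ) ≤ (Fintype.card V : ℝ) * Real.exp (- (l * ε - l ^ 2 * D / k)) := by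
      positivity
    nlinarith
  obtain ⟨R0, hR0⟩ := rm
    (E := Sym2 V) (I := {x : Finset V × Finset V // Disjoint x.1 x.2 ∧ (x.1 ∪ x.2).Nonempty} ⊕
      {A : Finset V // A.Nonempty})
    (Sum.elim
      (fun x : {x : Finset V × Finset V // Disjoint x.1 x.2 ∧ (x.1 ∪ x.2).Nonempty} =>
        Rgg_S G x.1.1 x.1.2)
      (fun A : {A : Finset V // A.Nonempty} => Rgg_S G A.1 (univ \ A.1)))
    (Sum.elim
      (fun x : {x : Finset V × Finset V // Disjoint x.1 x.2 ∧ (x.1 ∪ x.2).Nonempty} =>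
          ((x.1.1.card : ℝ) + x.1.2.card))
        (fun A : {A : Finset V // A.Nonempty} => (A.1.card : ℝ)))
    k hk D ε l hl0 hl1
    (by
      rintro (x | A)
      · simp only [Sum.elim_inl]
        rw [Rgg_cardS G x.2.1]
        obtain ⟨⟨A, B⟩, h1, h2⟩ := x
        dsimp only at h1 h2 ⊢
        have hV : ∃ v : V, v ∈ A ∪ B := h2
        obtain ⟨v, -⟩ := hV
        have hD : (0 : ℝ) ≤ D := (Nat.cast_nonneg _).trans (up v)
        refine (Rgg_le G up _ _).trans ?_
        rw [mul_add]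
        have : (0 : ℝ) ≤ D * (B.card : ℝ) := by positivity
        linarith
      · simp only [Sum.elim_inr]
        rw [Rgg_cardS G Finset.disjoint_sdiff]
        exact Rgg_le G up _ _)
    (Rgg_sum _ hsmall)
  have hA : ∀ A : Finset V, A.Nonempty →
      |(ee (Rgg_R G R0) A (univ \ A) : ℝ) - ee G A (univ \ A) / k| ≤ ε * A.card := by
    intro A hA
    have h1 := hR0 (Sum.inr ⟨A, hA⟩)
    simp only [Sum.elim_inr] at h1
    rw [Rgg_cardR G R0 _ Finset.disjoint_sdiff, Rgg_cardS G Finset.disjoint_sdiff] at h1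
    exact h1
  refine ⟨Rgg_R G R0, fun a b h => h.1, fun v => ?_, fun A B hAB => ?_, fun S => ?_⟩
  · have h1 := hA {v} (Finset.singleton_nonempty v)
    rw [Rgg_dg, Rgg_dg, Finset.card_singleton] at h1
    simpa using h1
  · by_cases hne : (A ∪ B).Nonempty
    · have h1 := hR0 (Sum.inl ⟨(A, B), hAB, hne⟩)
      simp only [Sum.elim_inl] at h1
      rw [Rgg_cardR G R0 _ hAB, Rgg_cardS G hAB] at h1
      have h2 := (abs_le.1 h1).2
      linarith
    · rw [Finset.not_nonempty_iff_eq_empty, Finset.union_eq_empty] at hne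
      obtain ⟨rfl, rfl⟩ := hne
      simp [Rgg_ee]
  · rcases S.eq_empty_or_nonempty with rfl | hS
    · simp [Rgg_ee]
    · have h2 := (abs_le.1 (hA S hS)).1
      linarith

theorem rg2 {V : Type} [Fintype V] (G : SimpleGraph V) (Δ N : ℕ) (h : Xt G Δ N) :
    ∃ R : SimpleGraph V, R ≤ G ∧
      (∀ v, |(dg R v : ℝ) - dg G v / (N : ℝ) ^ 8| ≤ Δ / (N : ℝ) ^ 21) ∧
      (∀ A B : Finset V, Disjoint A B →
        (ee R A B : ℝ) ≤ ee G A B / (N : ℝ) ^ 8 + Δ / (N : ℝ) ^ 21 * (A.card + B.card)) ∧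
      ∀ S : Finset V, (ee G S (univ \ S) : ℝ) / (N : ℝ) ^ 8 - Δ / (N : ℝ) ^ 21 * S.card ≤
        ee R S (univ \ S) := by
  have hN : (1000 : ℝ) ≤ N := by exact_mod_cast h.hN
  have hN0 : (0 : ℝ) < N := by linarith
  have hΔ : (N : ℝ) ^ 250 ≤ Δ := by exact_mod_cast h.hΔ
  obtain ⟨c, hc⟩ : ∃ c : ℝ, c = 1 / (N : ℝ) ^ 14 * (Δ / (N : ℝ) ^ 21) -
      (1 / (N : ℝ) ^ 14) ^ 2 * Δ / ((N ^ 8 : ℕ) : ℝ) := ⟨_, rfl⟩
  have hc4 : 4 * (N : ℝ) ≤ c := by
    have e1 : c = Δ / (N : ℝ) ^ 36 * (N - 1) := by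
      rw [hc]
      push_cast
      field_simp
    rw [e1]
    have e2 : (N : ℝ) ^ 214 ≤ Δ / (N : ℝ) ^ 36 := by
      rw [le_div_iff₀ (by positivity), ← pow_add]
      exact hΔ
    have e3 : (N : ℝ) ≤ (N : ℝ) ^ 214 := by
      calc (N : ℝ) = (N : ℝ) ^ 1 := (pow_one _).symm
        _ ≤ (N : ℝ) ^ 214 := pow_le_pow_right₀ (by linarith) (by norm_num)
    have e4 : (N : ℝ) ≤ Δ / (N : ℝ) ^ 36 := e3.trans e2
    nlinarith
  have hsmall : 16 * (Fintype.card V : ℝ) * Real.exp (-c) < 1 := by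
    have e1 : (Fintype.card V : ℝ) * Real.exp (-c) ≤ Real.exp N * Real.exp (-(4 * N)) :=
      mul_le_mul h.n2 (Real.exp_le_exp.2 (by linarith)) (Real.exp_pos _).le (Real.exp_pos _).le
    have e2 : Real.exp N * Real.exp (-(4 * N)) = Real.exp (-(3 * N)) := by
      rw [← Real.exp_add]
      congr 1
      ring
    have e3 : Real.exp (-(3 * N)) ≤ Real.exp (-100) := Real.exp_le_exp.2 (by linarith)
    have e4 : Real.exp (-100) * (101 : ℝ) ≤ 1 := by
      rw [Real.exp_neg, inv_mul_le_iff₀ (Real.exp_pos _), mul_one]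
      linarith [Real.add_one_le_exp (100 : ℝ)]
    linarith [e1, Real.exp_pos (-100)]
  obtain ⟨R, h1, h2, h3, h4⟩ := rgg G (N ^ 8) Δ (Δ / (N : ℝ) ^ 21) (1 / (N : ℝ) ^ 14)
    (Nat.one_le_pow _ _ (by have := h.hN; omega)) (by positivity) (by
      rw [div_le_one (by positivity)]
      exact one_le_pow₀ (by linarith)) (fun v => by exact_mod_cast h.up v) (by rw [← hc]; exact hsmall)
  refine ⟨R, h1, fun v => ?_, fun A B hAB => ?_, fun S => ?_⟩
  · have := h2 v
    push_cast at this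
    exact this
  · have := h3 A B hAB
    push_cast at this
    exact this
  · have := h4 S
    push_cast at this
    exact this

end Pool.Agent.H12.LS
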