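import Mathlib
import Pool.Agent.H12.LS.Defs
import Pool.Agent.H71.EX.Rm

/-!
SL0: the random set `F0` of density `1 / N ^ 31` (project LS): `rm` (`EX/Rm.lean`) for the neighbourhoods in `G` and `R`.
-/

set_option autoImplicit false

namespace Pool.Agent.H12.LS

open Finset Classical
open Pool.Agent.H71.DN Pool.Agent.H71.EX

private theorem Sl0_dn {V : Type} [Fintype V] (G : SimpleGraph V) (v : V) (F : Finset V) :
    dn G v F = (F ∩ univ.filter fun u => G.Adj v u).card := by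
  unfold dn
  congr 1
  ext u
  simp only [Finset.mem_filter, Finset.mem_inter, Finset.mem_univ, true_and]

private theorem Sl0_dg {V : Type} [Fintype V] {G R : SimpleGraph V} (hR : R ≤ G) (v : V) :
    dg R v ≤ dg G v := by
  unfold dg
  refine Finset.card_le_card fun u hu => ?_
  rw [Finset.mem_filter] at hu ⊢
  exact ⟨hu.1, hR hu.2⟩

private theorem Sl0_exp {a Δ : ℝ} (ha : 1000 ≤ a) (hΔ : a ^ 250 ≤ Δ) :
    2 * a ≤ 1 / a ^ 11 * (Δ / (4 * a ^ 40)) - (1 / a ^ 11) ^ 2 * Δ / a ^ 31 := by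
  have ha0 : 0 < a := by linarith
  have hΔ0 : 0 < Δ := lt_of_lt_of_le (by positivity) hΔ
  have e1 : 1 / a ^ 11 * (Δ / (4 * a ^ 40)) - (1 / a ^ 11) ^ 2 * Δ / a ^ 31 =
      Δ * (a ^ 2 / 4 - 1) / a ^ 53 := by
    field_simp
  rw [e1, le_div_iff₀ (by positivity)]
  have h1 : 1 ≤ a ^ 2 / 4 - 1 := by nlinarith
  have h2 : 2 * a * a ^ 53 ≤ a ^ 250 := by
    have h3 : 2 * a * a ^ 53 ≤ a * a * a ^ 53 := by
      apply mul_le_mul_of_nonneg_right _ (by positivity)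
      nlinarith
    have h4 : a * a * a ^ 53 = a ^ 55 := by ring
    have h5 : a ^ 55 ≤ a ^ 250 := pow_le_pow_right₀ (by linarith) (by norm_num)
    linarith
  calc 2 * a * a ^ 53 ≤ a ^ 250 := h2
    _ ≤ Δ := hΔ
    _ = Δ * 1 := (mul_one _).symm
    _ ≤ Δ * (a ^ 2 / 4 - 1) := mul_le_mul_of_nonneg_left h1 hΔ0.le

private theorem Sl0_y {a Δ : ℝ} (ha : 1000 ≤ a) (hΔ0 : 0 ≤ Δ) :
    0 ≤ Δ / a ^ 60 * a ^ 20 ∧ Δ / a ^ 60 ≤ Δ / a ^ 60 * a ^ 20 ∧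
      Δ / a ^ 60 * a ^ 8 ≤ Δ / a ^ 60 * a ^ 20 ∧
      1000 * (Δ / a ^ 60 * a ^ 20) ≤ Δ / a ^ 60 * a ^ 21 := by
  have ha0 : 0 < a := by linarith
  have ha1 : 1 ≤ a := by linarith
  have hy : 0 ≤ Δ / a ^ 60 := by positivity
  refine ⟨by positivity, ?_, ?_, ?_⟩
  · have h1 : 1 ≤ a ^ 20 := one_le_pow₀ ha1
    have h2 := mul_le_mul_of_nonneg_left h1 hy
    linarith
  · exact mul_le_mul_of_nonneg_left (pow_le_pow_right₀ ha1 (by norm_num)) hy
  · have h1 : 1000 * a ^ 20 ≤ a ^ 21 := by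
      have : a ^ 21 = a * a ^ 20 := by ring
      rw [this]
      exact mul_le_mul_of_nonneg_right ha (by positivity)
    have h2 := mul_le_mul_of_nonneg_left h1 hy
    linarith

theorem sl0 {V : Type} [Fintype V] (G R : SimpleGraph V) (Δ N : ℕ) (hN : 1000 ≤ N)
    (hΔ : N ^ 250 ≤ Δ) (hn : (Fintype.card V : ℝ) ≤ Real.exp N) (hR : R ≤ G)
    (up : ∀ v, dg G v ≤ Δ) (lo : ∀ v, (Δ : ℝ) - Δ / (N : ℝ) ^ 21 ≤ dg G v)
    (rd : ∀ v, |(dg R v : ℝ) - dg G v / (N : ℝ) ^ 8| ≤ Δ / (N : ℝ) ^ 21) :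
    ∃ F0 : Finset V, (∀ v, (dn G v F0 : ℝ) ≤ 2 * (Δ / (N : ℝ) ^ 31)) ∧
      (∀ v, 3 / 4 * (Δ / (N : ℝ) ^ 39) ≤ dn R v F0) ∧
      ∀ v, (dn R v F0 : ℝ) ≤ 5 / 4 * (Δ / (N : ℝ) ^ 39) := by
  have ha : (1000 : ℝ) ≤ N := by exact_mod_cast hN
  have hΔR : (N : ℝ) ^ 250 ≤ Δ := by exact_mod_cast hΔ
  have ha0 : (0 : ℝ) < N := by linarith
  have ha1 : (1 : ℝ) ≤ N := by linarith
  have hΔ0 : (0 : ℝ) < Δ := lt_of_lt_of_le (by positivity) hΔR
  have hk : 1 ≤ N ^ 31 := Nat.one_le_pow _ _ (by omega)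
  have hx := Sl0_exp ha hΔR
  have hl1 : 1 / (N : ℝ) ^ 11 ≤ 1 := by
    rw [div_le_one (by positivity)]
    exact one_le_pow₀ ha1
  obtain ⟨F, hF⟩ := rm (E := V) (I := V ⊕ V)
    (fun i => Sum.elim (fun v => univ.filter fun u => G.Adj v u)
      (fun v => univ.filter fun u => R.Adj v u) i)
    (fun _ => 1) (N ^ 31) hk (Δ : ℝ) (Δ / (4 * (N : ℝ) ^ 40)) (1 / (N : ℝ) ^ 11)
    (by positivity) hl1
    (by
      rintro (v | v)
      · rw [mul_one]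
        have h1 : dg G v ≤ Δ := up v
        exact_mod_cast h1
      · rw [mul_one]
        have h1 : dg R v ≤ Δ := (Sl0_dg hR v).trans (up v)
        exact_mod_cast h1)
    (by
      have h1 : ∀ i ∈ (Finset.univ : Finset (V ⊕ V)),
          2 * Real.exp (- (1 / (N : ℝ) ^ 11 * (Δ / (4 * (N : ℝ) ^ 40)) -
            (1 / (N : ℝ) ^ 11) ^ 2 * Δ / ((N ^ 31 : ℕ) : ℝ)) * 1) ≤ 2 * Real.exp (-(2 * N)) := by
        intro i _
        apply mul_le_mul_of_nonneg_left _ (by norm_num)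
        apply Real.exp_le_exp.2
        push_cast
        linarith
      refine lt_of_le_of_lt (Finset.sum_le_sum h1) ?_
      rw [Finset.sum_const, nsmul_eq_mul, Finset.card_univ, Fintype.card_sum]
      push_cast
      have h2 : Real.exp (-(2 * (N : ℝ))) = Real.exp (-N) * Real.exp (-N) := by
        rw [← Real.exp_add]
        congr 1
        ring
      have h3 : (Fintype.card V : ℝ) * Real.exp (-N) ≤ 1 := by
        have h4 := mul_le_mul_of_nonneg_right hn (Real.exp_pos (-(N : ℝ))).le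
        rwa [← Real.exp_add, add_neg_cancel, Real.exp_zero] at h4
      have h5 : Real.exp (-(N : ℝ)) ≤ 1 / 1000 := by
        rw [Real.exp_neg, ← one_div]
        apply one_div_le_one_div_of_le (by norm_num)
        have := Real.add_one_le_exp (N : ℝ)
        linarith
      have h6 : ((Fintype.card V : ℝ) + Fintype.card V) * (2 * Real.exp (-(2 * (N : ℝ)))) =
          4 * ((Fintype.card V : ℝ) * Real.exp (-N)) * Real.exp (-N) := by
        rw [h2]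
        ring
      rw [h6]
      have h7 := Real.exp_pos (-(N : ℝ))
      nlinarith)
  have hG : ∀ v, |(dn G v F : ℝ) - dg G v / (N : ℝ) ^ 31| ≤ Δ / (4 * (N : ℝ) ^ 40) := by
    intro v
    have h1 := hF (Sum.inl v)
    rw [mul_one] at h1
    push_cast at h1
    rw [Sl0_dn]
    exact h1
  have hRR : ∀ v, |(dn R v F : ℝ) - dg R v / (N : ℝ) ^ 31| ≤ Δ / (4 * (N : ℝ) ^ 40) := by
    intro v
    have h1 := hF (Sum.inr v)
    rw [mul_one] at h1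
    push_cast at h1
    rw [Sl0_dn]
    exact h1
  obtain ⟨y1, y2, y3, y4⟩ := Sl0_y ha hΔ0.le
  have e40 : (Δ : ℝ) / (4 * (N : ℝ) ^ 40) = (Δ / (N : ℝ) ^ 60 * (N : ℝ) ^ 20) / 4 := by
    field_simp
  have e39 : (Δ : ℝ) / (N : ℝ) ^ 39 = Δ / (N : ℝ) ^ 60 * (N : ℝ) ^ 21 := by
    field_simp
  have e52 : (Δ : ℝ) / (N : ℝ) ^ 21 / (N : ℝ) ^ 31 = Δ / (N : ℝ) ^ 60 * (N : ℝ) ^ 8 := by
    field_simp
  have e39' : (Δ : ℝ) / (N : ℝ) ^ 8 / (N : ℝ) ^ 31 = Δ / (N : ℝ) ^ 60 * (N : ℝ) ^ 21 := by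
    field_simp
  have e60 : (Δ : ℝ) / (N : ℝ) ^ 21 / (N : ℝ) ^ 8 / (N : ℝ) ^ 31 = Δ / (N : ℝ) ^ 60 := by
    field_simp
  have p8 : (0 : ℝ) < (N : ℝ) ^ 8 := by positivity
  have p31 : (0 : ℝ) < (N : ℝ) ^ 31 := by positivity
  refine ⟨F, fun v => ?_, fun v => ?_, fun v => ?_⟩
  · have h1 := (abs_le.1 (hG v)).2
    have h2 : (dg G v : ℝ) / (N : ℝ) ^ 31 ≤ Δ / (N : ℝ) ^ 31 := by
      apply div_le_div_of_nonneg_right _ p31.le
      exact_mod_cast up v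
    have h3 : (Δ : ℝ) / (4 * (N : ℝ) ^ 40) ≤ Δ / (N : ℝ) ^ 31 := by
      apply div_le_div_of_nonneg_left hΔ0.le p31
      have h4 : (N : ℝ) ^ 31 ≤ (N : ℝ) ^ 40 := pow_le_pow_right₀ ha1 (by norm_num)
      have h5 : 0 ≤ (N : ℝ) ^ 40 := by positivity
      linarith
    linarith
  · have h1 := (abs_le.1 (hRR v)).1
    have h2 := (abs_le.1 (rd v)).1
    have h3 : (Δ : ℝ) / (N : ℝ) ^ 8 - Δ / (N : ℝ) ^ 21 / (N : ℝ) ^ 8 ≤
        dg G v / (N : ℝ) ^ 8 := by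
      rw [← sub_div]
      exact div_le_div_of_nonneg_right (lo v) p8.le
    have h4 : (Δ : ℝ) / (N : ℝ) ^ 8 - Δ / (N : ℝ) ^ 21 / (N : ℝ) ^ 8 - Δ / (N : ℝ) ^ 21 ≤
        dg R v := by linarith
    have h5 := div_le_div_of_nonneg_right h4 p31.le
    rw [sub_div, sub_div, e60, e52, e39'] at h5
    rw [e40] at h1
    rw [e39]
    linarith
  · have h1 := (abs_le.1 (hRR v)).2
    have h2 := (abs_le.1 (rd v)).2
    have h3 : (dg G v : ℝ) / (N : ℝ) ^ 8 ≤ Δ / (N : ℝ) ^ 8 := by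
      apply div_le_div_of_nonneg_right _ p8.le
      exact_mod_cast up v
    have h4 : (dg R v : ℝ) ≤ Δ / (N : ℝ) ^ 8 + Δ / (N : ℝ) ^ 21 := by linarith
    have h5 := div_le_div_of_nonneg_right h4 p31.le
    rw [add_div, e52, e39'] at h5
    rw [e40] at h1
    rw [e39]
    linarith

end Pool.Agent.H12.LS
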