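import Mathlib
import Pool.Agent.H12.LS.Defs
import Pool.Agent.H71.EX.Mo

/-!
SL1: exponential moments for independent random elements `g u ∈ Ω`, `u ∈ V`.

Proof.  `sl1a`: `exp (#{u ∈ S : g u ∈ A}) = ∏ u, (if u ∈ S ∧ g u ∈ A then exp 1 else 1)`, so the sum over `g` is
`∏ u, ∑ ω, (..) = ∏ u, (if u ∈ S then #Ω + (exp 1 - 1) #A else #Ω) ≤ #Ω ^ #V * (1 + 2 q) ^ #S` (`Finset.prod_univ_sum`,
`Fintype.piFinset_univ`; compare `mo` in `EX/Mo.lean`, proved; `exp 1 - 1 ≤ 2`; if `Ω` is empty then `A` is empty, and the case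
`V` empty/nonempty is covered by the same formula), and `1 + 2 q ≤ exp (2 q)`. (`0 ≤ q` is a hypothesis.)
`sl1b`: in the same way with `exp (-1)`: the factor of `u ∈ S` is `#Ω - (1 - exp (-1)) #A ≤ #Ω (1 - q / 2) ≤ #Ω exp (- q / 2)`
(`exp (-1) ≤ 1 / 2`).
`sl1c`: the summand depends only on `g v`: the sum is `(K ^ T) ^ (n - 1) * ∑ ω : Fin T → Fin K, exp (#{t : ω t = 0})`
(or: `∏ u, (if u = v then exp (..) else 1)` and `Finset.prod_univ_sum`), and `mo` for `V = Fin T`, `S = univ`.
-/

set_option autoImplicit false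

namespace Pool.Agent.H12.LS

open Finset Classical
open Pool.Agent.H71.DN Pool.Agent.H71.EX

private theorem Sl1_prod {V Ω : Type} [Fintype V] [Fintype Ω] (S : Finset V) (A : Finset Ω)
    (s : ℝ) :
    ∑ g : V → Ω, Real.exp (((S.filter fun u => g u ∈ A).card : ℝ) * s) =
      ∏ u : V, ∑ ω : Ω, (if u ∈ S ∧ ω ∈ A then Real.exp s else (1 : ℝ)) := by
  rw [Finset.prod_univ_sum, Fintype.piFinset_univ]
  apply Finset.sum_congr rfl
  intro g _
  rw [← Finset.prod_filter]
  have h2 : (univ.filter fun u => u ∈ S ∧ g u ∈ A) = S.filter fun u => g u ∈ A := by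
    ext u
    simp
  rw [h2, Finset.prod_const, ← Real.exp_nat_mul]

private theorem Sl1_sum {Ω : Type} [Fintype Ω] (A : Finset Ω) (y : ℝ) :
    ∑ ω : Ω, (if ω ∈ A then y else (1 : ℝ)) = Fintype.card Ω + (y - 1) * A.card := by
  have h4 : ∀ ω : Ω, (if ω ∈ A then y else (1 : ℝ)) = 1 + (if ω ∈ A then (y - 1) else 0) := by
    intro ω
    by_cases hj : ω ∈ A
    · rw [if_pos hj, if_pos hj]
      ring
    · rw [if_neg hj, if_neg hj]
      ring
  rw [Finset.sum_congr rfl fun j _ => h4 j, Finset.sum_add_distrib, Finset.sum_const,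
    Finset.card_univ, nsmul_eq_mul, mul_one, Finset.sum_ite_mem, Finset.univ_inter,
    Finset.sum_const, nsmul_eq_mul]
  ring

private theorem Sl1_bound {V Ω : Type} [Fintype V] [Fintype Ω] (S : Finset V) (A : Finset Ω)
    (s c : ℝ) (h : (Fintype.card Ω : ℝ) + (Real.exp s - 1) * A.card ≤
      Fintype.card Ω * Real.exp c) :
    ∑ g : V → Ω, Real.exp (((S.filter fun u => g u ∈ A).card : ℝ) * s) ≤
      (Fintype.card Ω : ℝ) ^ Fintype.card V * Real.exp (S.card * c) := by
  rw [Sl1_prod]
  have h3 : ∀ u : V, ∑ ω : Ω, (if u ∈ S ∧ ω ∈ A then Real.exp s else (1 : ℝ)) ≤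
      (Fintype.card Ω : ℝ) * (if u ∈ S then Real.exp c else 1) := by
    intro u
    by_cases hu : u ∈ S
    · rw [if_pos hu]
      have h4 : ∀ ω : Ω, (if u ∈ S ∧ ω ∈ A then Real.exp s else (1 : ℝ)) =
          (if ω ∈ A then Real.exp s else (1 : ℝ)) := by
        intro ω
        by_cases hj : ω ∈ A
        · rw [if_pos ⟨hu, hj⟩, if_pos hj]
        · rw [if_neg (fun h => hj h.2), if_neg hj]
      rw [Finset.sum_congr rfl fun j _ => h4 j, Sl1_sum]
      exact h
    · rw [if_neg hu]
      have h4 : ∀ ω : Ω, (if u ∈ S ∧ ω ∈ A then Real.exp s else (1 : ℝ)) = 1 := by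
        intro ω
        rw [if_neg (fun h => hu h.1)]
      rw [Finset.sum_congr rfl fun j _ => h4 j, Finset.sum_const, Finset.card_univ, nsmul_eq_mul]
  calc ∏ u : V, ∑ ω : Ω, (if u ∈ S ∧ ω ∈ A then Real.exp s else (1 : ℝ)) ≤
      ∏ u : V, ((Fintype.card Ω : ℝ) * (if u ∈ S then Real.exp c else 1)) := by
        apply Finset.prod_le_prod
        · intro u _
          apply Finset.sum_nonneg
          intro j _
          split_ifs
          · exact (Real.exp_pos _).le
          · exact zero_le_one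
        · intro u _
          exact h3 u
    _ = (Fintype.card Ω : ℝ) ^ (Fintype.card V) * Real.exp (S.card * c) := by
        rw [Finset.prod_mul_distrib, Finset.prod_const, Finset.card_univ, Finset.prod_ite_mem,
          Finset.univ_inter, Finset.prod_const, ← Real.exp_nat_mul]

theorem sl1a {V Ω : Type} [Fintype V] [Fintype Ω] (S : Finset V) (A : Finset Ω) (q : ℝ)
    (hq : 0 ≤ q) (hA : (A.card : ℝ) ≤ q * Fintype.card Ω) :
    ∑ g : V → Ω, Real.exp ((S.filter fun u => g u ∈ A).card : ℝ) ≤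
      (Fintype.card Ω : ℝ) ^ Fintype.card V * Real.exp (2 * q * S.card) := by
  have h0 : (0 : ℝ) ≤ Fintype.card Ω := Nat.cast_nonneg _
  have he : Real.exp 1 ≤ 3 := by
    have := Real.exp_one_lt_d9
    linarith
  have he1 : (1 : ℝ) ≤ Real.exp 1 := Real.one_le_exp zero_le_one
  have h1 : (Fintype.card Ω : ℝ) + (Real.exp 1 - 1) * A.card ≤
      Fintype.card Ω * Real.exp (2 * q) := by
    have h2 : 2 * q + 1 ≤ Real.exp (2 * q) := Real.add_one_le_exp _
    have h3 : (Real.exp 1 - 1) * (A.card : ℝ) ≤ 2 * (q * Fintype.card Ω) := by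
      have h4 : (0 : ℝ) ≤ A.card := Nat.cast_nonneg _
      calc (Real.exp 1 - 1) * (A.card : ℝ) ≤ 2 * A.card := by
            apply mul_le_mul_of_nonneg_right _ h4
            linarith
        _ ≤ 2 * (q * Fintype.card Ω) := by linarith
    have h5 : (Fintype.card Ω : ℝ) * (2 * q + 1) ≤ Fintype.card Ω * Real.exp (2 * q) :=
      mul_le_mul_of_nonneg_left h2 h0
    linarith
  have h2 := Sl1_bound S A 1 (2 * q) h1
  simp only [mul_one] at h2
  rw [show 2 * q * (S.card : ℝ) = S.card * (2 * q) by ring]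
  exact h2

theorem sl1b {V Ω : Type} [Fintype V] [Fintype Ω] (S : Finset V) (A : Finset Ω) (q : ℝ)
    (hq : 0 ≤ q) (hA : q * Fintype.card Ω ≤ A.card) :
    ∑ g : V → Ω, Real.exp (-((S.filter fun u => g u ∈ A).card : ℝ)) ≤
      (Fintype.card Ω : ℝ) ^ Fintype.card V * Real.exp (-(q * S.card / 2)) := by
  have h0 : (0 : ℝ) ≤ Fintype.card Ω := Nat.cast_nonneg _
  have he : Real.exp (-1) ≤ 1 / 2 := by
    have h2 : (2 : ℝ) ≤ Real.exp 1 := by
      have := Real.add_one_le_exp (1 : ℝ)
      linarith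
    rw [Real.exp_neg, one_div]
    exact inv_anti₀ two_pos h2
  have h1 : (Fintype.card Ω : ℝ) + (Real.exp (-1) - 1) * A.card ≤
      Fintype.card Ω * Real.exp (-(q / 2)) := by
    have h2 : -(q / 2) + 1 ≤ Real.exp (-(q / 2)) := Real.add_one_le_exp _
    have h3 : (Real.exp (-1) - 1) * (A.card : ℝ) ≤ -(1 / 2) * A.card := by
      apply mul_le_mul_of_nonneg_right _ (Nat.cast_nonneg _)
      linarith
    have h5 : (Fintype.card Ω : ℝ) * (-(q / 2) + 1) ≤ Fintype.card Ω * Real.exp (-(q / 2)) :=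
      mul_le_mul_of_nonneg_left h2 h0
    linarith
  have h2 := Sl1_bound S A (-1) (-(q / 2)) h1
  simp only [mul_neg, mul_one] at h2
  rw [show -(q * (S.card : ℝ) / 2) = -(S.card * (q / 2)) by ring]
  exact h2

theorem sl1c {V : Type} [Fintype V] (v : V) (T K : ℕ) (hK : 1 ≤ K) :
    ∑ g : V → Fin T → Fin K, Real.exp ((univ.filter fun t => ((g v t : Fin K) : ℕ) = 0).card : ℝ) ≤
      (Fintype.card (Fin T → Fin K) : ℝ) ^ Fintype.card V * Real.exp (2 * T / K) := by
  have hmo := mo (V := Fin T) univ K hK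
  have h1 : ∑ g : V → Fin T → Fin K,
      Real.exp ((univ.filter fun t => ((g v t : Fin K) : ℕ) = 0).card : ℝ) =
      ∏ u : V, ∑ ω : Fin T → Fin K,
        (if u = v then Real.exp ((univ.filter fun t => ((ω t : Fin K) : ℕ) = 0).card : ℝ)
          else (1 : ℝ)) := by
    rw [Finset.prod_univ_sum, Fintype.piFinset_univ]
    apply Finset.sum_congr rfl
    intro g _
    rw [Finset.prod_ite_eq' univ v, if_pos (Finset.mem_univ v)]
  rw [h1]
  have h3 : ∀ u : V, ∑ ω : Fin T → Fin K,
        (if u = v then Real.exp ((univ.filter fun t => ((ω t : Fin K) : ℕ) = 0).card : ℝ)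
          else (1 : ℝ)) ≤
      (Fintype.card (Fin T → Fin K) : ℝ) * (if u = v then Real.exp (2 * T / K) else 1) := by
    intro u
    by_cases hu : u = v
    · rw [if_pos hu]
      simp only [if_pos hu]
      rw [Finset.card_univ, Fintype.card_fin] at hmo
      rw [Fintype.card_fun, Fintype.card_fin, Fintype.card_fin]
      push_cast
      refine le_trans (le_of_eq (Finset.sum_congr ?_ fun _ _ => rfl)) hmo
      ext x
      simp
    · rw [if_neg hu]
      simp only [if_neg hu]
      rw [Finset.sum_const, Finset.card_univ, nsmul_eq_mul]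
  calc ∏ u : V, ∑ ω : Fin T → Fin K,
        (if u = v then Real.exp ((univ.filter fun t => ((ω t : Fin K) : ℕ) = 0).card : ℝ)
          else (1 : ℝ)) ≤
      ∏ u : V, ((Fintype.card (Fin T → Fin K) : ℝ) *
        (if u = v then Real.exp (2 * T / K) else 1)) := by
        apply Finset.prod_le_prod
        · intro u _
          apply Finset.sum_nonneg
          intro j _
          split_ifs
          · exact (Real.exp_pos _).le
          · exact zero_le_one
        · intro u _
          exact h3 u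
    _ = (Fintype.card (Fin T → Fin K) : ℝ) ^ (Fintype.card V) * Real.exp (2 * T / K) := by
        rw [Finset.prod_mul_distrib, Finset.prod_const, Finset.card_univ,
          Finset.prod_ite_eq' univ v, if_pos (Finset.mem_univ v)]

end Pool.Agent.H12.LS
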