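import Mathlib
import Pool.Agent.H12.LS.Defs
import Pool.Agent.H12.LS.Pr2
import Pool.Agent.H71.EX.Pq

/-!
PQB: small sets of active vertices have many reserve edges to the other active vertices. Compare `EX/Pq.lean`, `pq3`
(proved; copy and adapt: `Pd`, `pr2`; the hypothesis `2 * S.card ≤ ...` is replaced by `S.card ≤ N ^ 60 * Δ`, which is what
`Xs.ex` needs).

Proof.  As `pq3`: with `u = Δ / N ^ 20`, `S'` the image of `S` in `V`: `ee F S (univ \ S) ≥ ee R S' (univ \ S') -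
#S (2 N ^ 10 u + u)` (`pr2`, `wd`), and by `rc`, `ex`: `ee R S' (univ \ S') ≥ #S (Δ / N ^ 9 - u)`. So
`ee F S (univ \ S) ≥ #S (Δ / N ^ 9) / 2 ≥ Δ ^ 2 / N ^ 17`, and `Δ ^ 2 / N ^ 17 / (N ^ 2 Δ) = Δ / N ^ 19 ≥ 2`.
-/

set_option autoImplicit false

namespace Pool.Agent.H12.LS

open Finset Classical
open Pool.Agent.H71.DN Pool.Agent.H71.EX

private theorem Pqb_ee_sum {V : Type} [Fintype V] (G : SimpleGraph V) (P Q : Finset V) :
    ee G P Q = ∑ a ∈ P, (Q.filter fun u => G.Adj a u).card := by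
  unfold ee
  rw [Finset.card_filter, Finset.sum_product]
  refine Finset.sum_congr rfl fun a _ => ?_
  rw [Finset.card_filter]

private theorem Pqb_dg_mono {V : Type} [Fintype V] (H R : SimpleGraph V) (h : H ≤ R) (v : V) :
    dg H v ≤ dg R v := by
  unfold dg
  refine Finset.card_le_card fun u hu => ?_
  rw [Finset.mem_filter] at hu ⊢
  exact ⟨hu.1, h hu.2⟩

private theorem Pqb_le_dg {V A : Type} [Fintype V] [Fintype A] (G H : SimpleGraph V) (hHG : H ≤ G)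
    (f : A → V) (X : Finset V) (hX : ∀ v, v ∉ X → ∃ a, f a = v) (a : A) :
    dg H (f a) ≤ dg (H.comap f) a + dn G (f a) X := by
  unfold dg dn
  have h1 : (univ.filter fun u => H.Adj (f a) u) ⊆
      (univ.filter fun b => (H.comap f).Adj a b).image f ∪ (X.filter fun u => G.Adj (f a) u) := by
    intro v hv
    rw [Finset.mem_filter] at hv
    rw [Finset.mem_union, Finset.mem_image, Finset.mem_filter]
    by_cases hvX : v ∈ X
    · exact Or.inr ⟨hvX, hHG hv.2⟩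
    · obtain ⟨b, rfl⟩ := hX v hvX
      refine Or.inl ⟨b, ?_, rfl⟩
      rw [Finset.mem_filter]
      exact ⟨Finset.mem_univ _, hv.2⟩
  exact (Finset.card_le_card h1).trans ((Finset.card_union_le _ _).trans
    (Nat.add_le_add Finset.card_image_le le_rfl))

private theorem Pqb_sets {V A : Type} (f : A → V) (hf : Function.Injective f) (X Y : Finset V)
    (M Z : Finset A) (h1 : ∀ v ∈ X, v ∈ Y) (h2 : ∀ b ∈ M, f b ∈ Y)
    (h3 : ∀ b ∈ M, f b ∈ X → b ∈ Z) : X.card + M.card ≤ Z.card + Y.card := by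
  rw [← Finset.card_map ⟨f, hf⟩ (s := M), ← Finset.card_union_add_card_inter,
    ← Finset.card_map ⟨f, hf⟩ (s := Z), add_comm]
  refine Nat.add_le_add (Finset.card_le_card fun v hv => ?_) (Finset.card_le_card fun v hv => ?_)
  · rw [Finset.mem_inter, Finset.mem_map] at hv
    obtain ⟨h4, b, hb, rfl⟩ := hv
    exact Finset.mem_map_of_mem _ (h3 b hb h4)
  · rw [Finset.mem_union, Finset.mem_map] at hv
    rcases hv with hv | ⟨b, hb, rfl⟩
    · exact h1 v hv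
    · exact h2 b hb

private theorem Pqb_cut {V A : Type} [Fintype V] [Fintype A] (H R : SimpleGraph V) (hHR : H ≤ R)
    (f : A → V) (hf : Function.Injective f) (S T : Finset A) (hT : ∀ b, b ∉ S → b ∈ T) :
    ee R (S.map ⟨f, hf⟩) (univ \ S.map ⟨f, hf⟩) + ∑ a ∈ S, dg (H.comap f) a ≤
      ee (H.comap f) S T + ∑ a ∈ S, dg R (f a) := by
  rw [Pqb_ee_sum, Pqb_ee_sum, Finset.sum_map, ← Finset.sum_add_distrib, ← Finset.sum_add_distrib]
  refine Finset.sum_le_sum fun a _ => ?_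
  unfold dg
  refine Pqb_sets f hf _ _ _ _ (fun v hv => ?_) (fun b hb => ?_) (fun b hb hb2 => ?_)
  · rw [Finset.mem_filter] at hv ⊢
    exact ⟨Finset.mem_univ _, hv.2⟩
  · rw [Finset.mem_filter] at hb ⊢
    exact ⟨Finset.mem_univ _, hHR hb.2⟩
  · rw [Finset.mem_filter] at hb hb2 ⊢
    rw [Finset.mem_sdiff] at hb2
    exact ⟨hT b fun hbS => hb2.1.2 (Finset.mem_map_of_mem _ hbS), hb.2⟩

/-- the real parameters -/
private theorem Pqb_par {V : Type} [Fintype V] (G R : SimpleGraph V) (Δ N T w0 : ℕ)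
    (W F : ℕ → Finset V) (F0 : Finset V) (h : Pd G R Δ N T w0 W F F0) :
    ∃ u : ℝ, 0 < u ∧ (1000 : ℝ) ≤ N ∧ (Δ : ℝ) = (N : ℝ) ^ 20 * u ∧ (N : ℝ) ^ 40 ≤ u ∧
      (Δ : ℝ) / (N : ℝ) ^ 20 = u ∧ (Δ : ℝ) / (N : ℝ) ^ 8 = (N : ℝ) ^ 12 * u ∧
      (Δ : ℝ) / (N : ℝ) ^ 9 = (N : ℝ) ^ 11 * u ∧ (Δ : ℝ) / (N : ℝ) ^ 10 = (N : ℝ) ^ 10 * u ∧
      (Δ : ℝ) / (N : ℝ) = (N : ℝ) ^ 19 * u := by
  have hN : (1000 : ℝ) ≤ N := by exact_mod_cast h.xp.hN
  have hN0 : (0 : ℝ) < N := by linarith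
  have hΔ' : (N : ℝ) ^ 250 ≤ Δ := by exact_mod_cast h.xp.hΔ
  have hΔ : (N : ℝ) ^ 60 ≤ Δ :=
    le_trans (pow_le_pow_right₀ (by linarith) (by norm_num)) hΔ'
  have hN20 : (0 : ℝ) < (N : ℝ) ^ 20 := by positivity
  have h1 : (N : ℝ) ^ 40 ≤ (Δ : ℝ) / (N : ℝ) ^ 20 := by
    rw [le_div_iff₀ hN20, ← pow_add]
    exact hΔ
  have h2 : (Δ : ℝ) = (N : ℝ) ^ 20 * ((Δ : ℝ) / (N : ℝ) ^ 20) := by
    field_simp
  refine ⟨(Δ : ℝ) / (N : ℝ) ^ 20, lt_of_lt_of_le (by positivity) h1, hN, h2, h1, rfl, ?_, ?_, ?_,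
    ?_⟩
  all_goals field_simp

private theorem Pqb_deg {V : Type} [Fintype V] (G R : SimpleGraph V) (Δ N T w0 : ℕ)
    (W F : ℕ → Finset V) (F0 : Finset V) (h : Pd G R Δ N T w0 W F F0) (t : ℕ) (ht : t < T)
    (U : SimpleGraph V) (M : Finset V) (hU : Sm G R Δ N T t W F F0 U M) (a : {v // v ∉ W t}) :
    (dg R a.1 : ℝ) ≤ dg ((U ⊓ R).comap (Subtype.val : {v // v ∉ W t} → V)) a +
      2 * (Δ / (N : ℝ) ^ 10) + Δ / (N : ℝ) ^ 20 := by
  have h1 := pr2 G R Δ N T w0 W F F0 h t ht.le U M hU a.1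
  have h2 := Pqb_le_dg G (U ⊓ R) (inf_le_right.trans h.le) (Subtype.val : {v // v ∉ W t} → V)
    (W t) (fun v hv => ⟨⟨v, hv⟩, rfl⟩) a
  have h3 : (dg (U ⊓ R) a.1 : ℝ) ≤
      dg ((U ⊓ R).comap (Subtype.val : {v // v ∉ W t} → V)) a + dn G a.1 (W t) := by
    exact_mod_cast h2
  have h4 := h.wd t ht a.1
  linarith

theorem pqb {V : Type} [Fintype V] (G R : SimpleGraph V) (Δ N T w0 : ℕ) (W F : ℕ → Finset V)
    (F0 : Finset V) (h : Pd G R Δ N T w0 W F F0) (t : ℕ) (ht : t < T) (U : SimpleGraph V)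
    (M : Finset V) (hU : Sm G R Δ N T t W F F0 U M) (S : Finset {v // v ∉ W t})
    (hS : S.card ≤ N ^ 60 * Δ) (hS2 : 2 * (Δ / (N : ℝ) ^ 8) < S.card) :
    2 ≤ 1 / ((N : ℝ) ^ 2 * Δ) *
      ee ((U ⊓ R).comap (Subtype.val : {v // v ∉ W t} → V)) S (univ \ S) := by
  obtain ⟨u, hu, hN, hΔ, hu40, e20, e8, e9, e10, e1⟩ := Pqb_par G R Δ N T w0 W F F0 h
  have hN0 : (0 : ℝ) < N := by linarith
  have hN8 : (0 : ℝ) < (N : ℝ) ^ 8 := by positivity
  have h1 := Pqb_cut (U ⊓ R) R inf_le_right (Subtype.val : {v // v ∉ W t} → V)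
    Subtype.val_injective S (univ \ S) (fun b hb => by
      rw [Finset.mem_sdiff]
      exact ⟨Finset.mem_univ _, hb⟩)
  have h2 : (∑ a ∈ S, (dg R a.1 : ℝ)) ≤
      ∑ a ∈ S, (dg ((U ⊓ R).comap (Subtype.val : {v // v ∉ W t} → V)) a : ℝ) +
        S.card * (2 * ((N : ℝ) ^ 10 * u) + u) := by
    rw [← nsmul_eq_mul, ← Finset.sum_const, ← Finset.sum_add_distrib]
    refine Finset.sum_le_sum fun a _ => ?_
    have d2 := Pqb_deg G R Δ N T w0 W F F0 h t ht U M hU a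
    rw [e10, e20] at d2
    linarith
  have h1' : (ee R (S.map ⟨(Subtype.val : {v // v ∉ W t} → V), Subtype.val_injective⟩)
      (univ \ S.map ⟨(Subtype.val : {v // v ∉ W t} → V), Subtype.val_injective⟩) : ℝ) +
      ∑ a ∈ S, (dg ((U ⊓ R).comap (Subtype.val : {v // v ∉ W t} → V)) a : ℝ) ≤
      ee ((U ⊓ R).comap (Subtype.val : {v // v ∉ W t} → V)) S (univ \ S) +
        ∑ a ∈ S, (dg R a.1 : ℝ) := by
    exact_mod_cast h1
  have h3 := h.rc (S.map ⟨(Subtype.val : {v // v ∉ W t} → V), Subtype.val_injective⟩)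
  have h4 := h.xp.ex (S.map ⟨(Subtype.val : {v // v ∉ W t} → V), Subtype.val_injective⟩)
    (by rw [Finset.card_map]; exact hS)
  rw [Finset.card_map] at h3 h4
  rw [e20] at h3
  rw [e1] at h4
  generalize (ee ((U ⊓ R).comap (Subtype.val : {v // v ∉ W t} → V)) S (univ \ S) : ℝ) = x at *
  generalize (ee R (S.map ⟨(Subtype.val : {v // v ∉ W t} → V), Subtype.val_injective⟩)
      (univ \ S.map ⟨(Subtype.val : {v // v ∉ W t} → V), Subtype.val_injective⟩) : ℝ) = y at *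
  generalize (ee G (S.map ⟨(Subtype.val : {v // v ∉ W t} → V), Subtype.val_injective⟩)
      (univ \ S.map ⟨(Subtype.val : {v // v ∉ W t} → V), Subtype.val_injective⟩) : ℝ) = z at *
  rw [e8] at hS2
  have hc0 : (0 : ℝ) ≤ S.card := Nat.cast_nonneg _
  generalize (S.card : ℝ) = c at *
  have h5 : (N : ℝ) ^ 11 * u * c ≤ z / (N : ℝ) ^ 8 := by
    rw [le_div_iff₀ hN8]
    have e3 : (N : ℝ) ^ 11 * u * c * (N : ℝ) ^ 8 = (N : ℝ) ^ 19 * u * c := by ring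
    rw [e3]
    exact h4
  have h10 : (1 : ℝ) ≤ (N : ℝ) ^ 10 := one_le_pow₀ (by linarith)
  have h6 : u ≤ (N : ℝ) ^ 10 * u := le_mul_of_one_le_left hu.le h10
  have h7 : 1000 * ((N : ℝ) ^ 10 * u) ≤ (N : ℝ) ^ 11 * u := by
    have e3 : (N : ℝ) ^ 11 * u = N * ((N : ℝ) ^ 10 * u) := by ring
    rw [e3]
    exact mul_le_mul_of_nonneg_right hN (by positivity)
  have h8 : 0 ≤ c * ((N : ℝ) ^ 11 * u / 2 - 2 * ((N : ℝ) ^ 10 * u) - 2 * u) :=
    mul_nonneg hc0 (by linarith)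
  have h9 : c * ((N : ℝ) ^ 11 * u / 2) ≤ x := by linarith
  have h11 : (N : ℝ) ^ 12 * u * ((N : ℝ) ^ 11 * u) ≤ x := by
    refine le_trans ?_ h9
    have h12 : 2 * ((N : ℝ) ^ 12 * u) * ((N : ℝ) ^ 11 * u / 2) ≤ c * ((N : ℝ) ^ 11 * u / 2) :=
      mul_le_mul_of_nonneg_right hS2.le (by positivity)
    linarith
  have hΔ0 : (0 : ℝ) < Δ := by rw [hΔ]; positivity
  have hpos : (0 : ℝ) < (N : ℝ) ^ 2 * Δ := by positivity
  rw [one_div, inv_mul_eq_div, le_div_iff₀ hpos]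
  refine le_trans ?_ h11
  rw [hΔ]
  have h13 : (2 : ℝ) ≤ N * u := by
    have h14 : (1 : ℝ) ≤ u := le_trans (one_le_pow₀ (by linarith)) hu40
    nlinarith
  have h15 : (N : ℝ) ^ 12 * u * ((N : ℝ) ^ 11 * u) = (N * u) * ((N : ℝ) ^ 2 * ((N : ℝ) ^ 20 * u)) := by
    ring
  rw [h15]
  exact mul_le_mul_of_nonneg_right h13 (by positivity)

end Pool.Agent.H12.LS
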