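import Mathlib
import Pool.Agent.H12.LS.Defs
import Pool.Agent.H12.LS.Pb2

/-!
PC2: in step `t` every vertex outside `F0` has an unused reserve edge to a vertex of `F t` that has not been missed.

Proof.  Let `n = #V`, `v ∉ F0`, `k = dn R v (F t)`, `a = usd R F U v t`, `m = dn R v (F t ∩ M)`,
`l = dn (U ⊓ R) v (F t \ M)`. A vertex `u ∈ F t` with `R.Adj v u` is in `M`, or not adjacent to `v` in `U`, or counted in `l`:
`k ≤ a + m + l`. `fl`: `N ^ 4 / 8 ≤ k`. By `tot2` (all terms of the sums `P2`, `P3` are positive, `t < T`):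
`exp a ≤ P2 ≤ 3 n Δ B2 Δ N t` and `exp (64 / N ^ 3 m - 128 / N ^ 3 * e0 N * c) ≤ P3 ≤ 3 n Δ`,
`c = ∑ r ∈ range t, dn R v (F r ∩ F t)`. Here `n ≤ exp N` and `Δ ≤ 2 n` (`Δ / 2 ≤ dg G v ≤ n` by `lo`), so
`3 n Δ ≤ 6 n ^ 2 ≤ exp (2 N + 2)`; `B2 ≤ exp (12 N ^ 2)` as `t ≤ T ≤ Δ`. So `a ≤ 12 N ^ 2 + 2 N + 2`. By double counting
`c ≤ ∑ u ∈ F t with R.Adj v u, #{r < T : u ∈ F r} ≤ 4 N ^ 4 * 4 N ^ 43 = 16 N ^ 47` (`fu`, `fm`), so
`128 / N ^ 3 * e0 N * c ≤ 2048 N ^ 2 / N ^ 3 ≤ 3`, and `m ≤ N ^ 3 / 64 * (2 N + 5) ≤ N ^ 4 / 32 + N ^ 3 / 12`.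
So `l ≥ N ^ 4 / 8 - N ^ 4 / 32 - N ^ 3 / 12 - 12 N ^ 2 - 2 N - 2 > 0` (`N ≥ 1000`).
-/

set_option autoImplicit false

namespace Pool.Agent.H12.LS

open Finset Classical
open Pool.Agent.H71.DN Pool.Agent.H71.EX

private theorem pc2_cnt {V : Type} [Fintype V] (R : SimpleGraph V) (F : ℕ → Finset V) (t : ℕ)
    (v : V) (K : ℝ) (h1 : ∀ u : V, (((range t).filter fun r => u ∈ F r).card : ℝ) ≤ K) :
    ∑ r ∈ range t, (dn R v (F r ∩ F t) : ℝ) ≤ dn R v (F t) * K := by
  have e1 : ∀ r ∈ range t, (dn R v (F r ∩ F t) : ℝ) =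
      ∑ u ∈ (F t).filter (fun u => R.Adj v u), (if u ∈ F r then (1 : ℝ) else 0) := by
    intro r _
    rw [Finset.sum_boole]
    unfold dn
    congr 2
    ext u
    simp only [Finset.mem_filter, Finset.mem_inter]
    tauto
  rw [Finset.sum_congr rfl e1, Finset.sum_comm]
  have e2 : ∀ u ∈ (F t).filter (fun u => R.Adj v u),
      ∑ r ∈ range t, (if u ∈ F r then (1 : ℝ) else 0) ≤ K := by
    intro u _
    rw [Finset.sum_boole]
    exact h1 u
  calc ∑ u ∈ (F t).filter (fun u => R.Adj v u), ∑ r ∈ range t, (if u ∈ F r then (1 : ℝ) else 0)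
      ≤ ∑ u ∈ (F t).filter (fun u => R.Adj v u), K := Finset.sum_le_sum e2
    _ = dn R v (F t) * K := by
        rw [Finset.sum_const, nsmul_eq_mul]
        rfl

private theorem pc2_split {V : Type} [Fintype V] (R U : SimpleGraph V) (F : ℕ → Finset V) (t : ℕ)
    (v : V) (M : Finset V) :
    dn R v (F t) ≤ usd R F U v t + dn R v (F t ∩ M) + dn (U ⊓ R) v (F t \ M) := by
  unfold dn usd
  refine (Finset.card_le_card ?_).trans
    ((Finset.card_union_le _ _).trans (Nat.add_le_add_right (Finset.card_union_le _ _) _))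
  intro u hu
  simp only [Finset.mem_filter, Finset.mem_union, Finset.mem_inter, Finset.mem_sdiff,
    SimpleGraph.inf_adj] at hu ⊢
  obtain ⟨h1, h2⟩ := hu
  by_cases h3 : U.Adj v u
  · by_cases h4 : u ∈ M
    · exact Or.inl (Or.inr ⟨⟨h1, h4⟩, h2⟩)
    · exact Or.inr ⟨⟨h1, h4⟩, h3, h2⟩
  · exact Or.inl (Or.inl ⟨h1, h2, h3⟩)

private theorem pc2_fin (N a m l : ℝ) (hN : 1000 ≤ N) (h1 : N ^ 4 / 8 ≤ a + m + l)
    (h2 : a ≤ 12 * N ^ 2 + 2 * N + 2) (h3 : 64 / N ^ 3 * m ≤ 2 * N + 5) : 0 < l := by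
  have hN0 : 0 < N := by linarith
  have hN3 : 0 < N ^ 3 := by positivity
  have h4 : m ≤ N ^ 3 / 64 * (2 * N + 5) := by
    have := mul_le_mul_of_nonneg_left h3 (by positivity : 0 ≤ N ^ 3 / 64)
    have e : N ^ 3 / 64 * (64 / N ^ 3 * m) = m := by
      field_simp
    rw [e] at this
    exact this
  have h5 : N ^ 3 * 1000 ≤ N ^ 4 := by
    have : N ^ 3 * 1000 ≤ N ^ 3 * N := mul_le_mul_of_nonneg_left hN hN3.le
    calc N ^ 3 * 1000 ≤ N ^ 3 * N := this
      _ = N ^ 4 := by ring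
  have h6 : N ^ 2 * 1000 ≤ N ^ 3 := by
    have : N ^ 2 * 1000 ≤ N ^ 2 * N := mul_le_mul_of_nonneg_left hN (by positivity)
    calc N ^ 2 * 1000 ≤ N ^ 2 * N := this
      _ = N ^ 3 := by ring
  have h7 : N * 1000 ≤ N ^ 2 := by nlinarith
  nlinarith

theorem pc2 {V : Type} [Fintype V] (G R : SimpleGraph V) (Δ N T w0 : ℕ) (W F : ℕ → Finset V)
    (F0 : Finset V) (h : Pd G R Δ N T w0 W F F0) (t : ℕ) (ht : t < T) (U : SimpleGraph V)
    (M : Finset V) (hU : Sm G R Δ N T t W F F0 U M) (v : V) (hv : v ∉ F0) :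
    1 ≤ dn (U ⊓ R) v (F t \ M) := by
  have hN : (1000 : ℝ) ≤ N := by exact_mod_cast h.xp.hN
  have hN0 : (0 : ℝ) < N := by linarith
  have hΔN : (0 : ℝ) < Δ := by
    have h0 : 0 < Δ := lt_of_lt_of_le (pow_pos (by have := h.xp.hN; omega) 250) h.xp.hΔ
    exact_mod_cast h0
  have hn2 := h.xp.n2
  have hnn : (0 : ℝ) ≤ Fintype.card V := Nat.cast_nonneg _
  -- Δ ≤ 2 n
  have hΔn : (Δ : ℝ) ≤ 2 * Fintype.card V := by
    have h1 := h.xp.lo v
    have h2 : (dg G v : ℝ) ≤ Fintype.card V := by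
      have : dg G v ≤ Fintype.card V := by
        unfold dg
        exact (Finset.card_filter_le _ _).trans (le_of_eq Finset.card_univ)
      exact_mod_cast this
    have h3 : (Δ : ℝ) / (N : ℝ) ^ 20 ≤ Δ / 2 := by
      apply div_le_div_of_nonneg_left hΔN.le (by norm_num)
      calc (2 : ℝ) ≤ N := by linarith
        _ ≤ (N : ℝ) ^ 20 := by
          have : (1 : ℝ) ≤ N := by linarith
          exact le_self_pow₀ this (by norm_num)
    linarith
  -- 3 n Δ ≤ exp (2 N + 2)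
  have h3n : 3 * ((Fintype.card V : ℝ) * Δ) ≤ Real.exp (2 * N + 2) := by
    have h6 : (6 : ℝ) ≤ Real.exp 2 := by
      have h1 := Real.add_one_le_exp (1 : ℝ)
      have h2 := Real.exp_one_gt_d9
      have : Real.exp 2 = Real.exp 1 * Real.exp 1 := by rw [← Real.exp_add]; norm_num
      rw [this]
      nlinarith
    have hE : 0 < Real.exp (N : ℝ) := Real.exp_pos _
    calc 3 * ((Fintype.card V : ℝ) * Δ) ≤ 3 * ((Fintype.card V : ℝ) * (2 * Fintype.card V)) := by
          gcongr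
      _ = 6 * ((Fintype.card V : ℝ) * Fintype.card V) := by ring
      _ ≤ Real.exp 2 * (Real.exp N * Real.exp N) := by
          apply mul_le_mul h6 _ (by positivity) (by positivity)
          exact mul_le_mul hn2 hn2 hnn hE.le
      _ = Real.exp (2 * N + 2) := by
          rw [← Real.exp_add, ← Real.exp_add]
          congr 1
          ring
  obtain ⟨_, hP2, hP3⟩ := tot2 G R Δ N T w0 W F F0 h t ht.le U M hU
  -- bound of a
  have ha : (usd R F U v t : ℝ) ≤ 12 * (N : ℝ) ^ 2 + 2 * N + 2 := by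
    have h1 : Real.exp (usd R F U v t) ≤ P2 R T F U := by
      unfold P2
      have h2 : Real.exp (usd R F U v t) ≤ ∑ s ∈ range T, Real.exp (usd R F U v s) :=
        Finset.single_le_sum (f := fun s => Real.exp (usd R F U v s))
          (fun s _ => (Real.exp_pos _).le) (Finset.mem_range.2 ht)
      refine h2.trans ?_
      exact Finset.single_le_sum (f := fun w => ∑ s ∈ range T, Real.exp (usd R F U w s))
        (fun w _ => Finset.sum_nonneg fun s _ => (Real.exp_pos _).le) (Finset.mem_univ v)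
    have hB : B2 Δ N t ≤ Real.exp (12 * (N : ℝ) ^ 2) := by
      unfold B2
      apply Real.exp_le_exp.2
      rw [div_le_iff₀ hΔN]
      have h2 : (t : ℝ) ≤ Δ := by
        have h3 : (t : ℝ) ≤ T := by exact_mod_cast ht.le
        have h4 := h.hT
        have h5 : (0 : ℝ) ≤ 3 * (Δ / (N : ℝ) ^ 8) := by positivity
        linarith
      exact mul_le_mul_of_nonneg_left h2 (by positivity)
    have hB0 : 0 < B2 Δ N t := Real.exp_pos _
    have h4 : Real.exp (usd R F U v t) ≤ Real.exp (12 * (N : ℝ) ^ 2 + 2 * N + 2) := by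
      calc Real.exp (usd R F U v t) ≤ 3 * (Fintype.card V * Δ * B2 Δ N t) := h1.trans hP2
        _ = (3 * ((Fintype.card V : ℝ) * Δ)) * B2 Δ N t := by ring
        _ ≤ Real.exp (2 * N + 2) * Real.exp (12 * (N : ℝ) ^ 2) :=
            mul_le_mul h3n hB hB0.le (Real.exp_pos _).le
        _ = Real.exp (12 * (N : ℝ) ^ 2 + 2 * N + 2) := by
            rw [← Real.exp_add]
            congr 1
            ring
    exact Real.exp_le_exp.1 h4
  -- bound of m
  have hm : 64 / (N : ℝ) ^ 3 * dn R v (F t ∩ M) ≤ 2 * N + 5 := by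
    have hc : ∑ r ∈ range t, (dn R v (F r ∩ F t) : ℝ) ≤ 16 * (N : ℝ) ^ 47 := by
      have h1 : ∀ u : V, (((range t).filter fun r => u ∈ F r).card : ℝ) ≤ 4 * (N : ℝ) ^ 43 := by
        intro u
        refine le_trans ?_ (h.fm u)
        have : ((range t).filter fun r => u ∈ F r).card ≤ ((range T).filter fun r => u ∈ F r).card := by
          apply Finset.card_le_card
          apply Finset.filter_subset_filter
          exact Finset.range_mono ht.le
        exact_mod_cast this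
      refine (pc2_cnt R F t v _ h1).trans ?_
      have h2 := h.fu t ht v
      calc (dn R v (F t) : ℝ) * (4 * (N : ℝ) ^ 43) ≤ (4 * (N : ℝ) ^ 4) * (4 * (N : ℝ) ^ 43) :=
            mul_le_mul_of_nonneg_right h2 (by positivity)
        _ = 16 * (N : ℝ) ^ 47 := by ring
    have hc0 : (0 : ℝ) ≤ ∑ r ∈ range t, (dn R v (F r ∩ F t) : ℝ) :=
      Finset.sum_nonneg fun r _ => Nat.cast_nonneg _
    have hd : 128 / (N : ℝ) ^ 3 * e0 N * ∑ r ∈ range t, (dn R v (F r ∩ F t) : ℝ) ≤ 3 := by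
      unfold e0
      calc 128 / (N : ℝ) ^ 3 * (1 / (N : ℝ) ^ 45) * ∑ r ∈ range t, (dn R v (F r ∩ F t) : ℝ)
          ≤ 128 / (N : ℝ) ^ 3 * (1 / (N : ℝ) ^ 45) * (16 * (N : ℝ) ^ 47) :=
            mul_le_mul_of_nonneg_left hc (by positivity)
        _ = 2048 / N := by
            field_simp
            ring
        _ ≤ 3 := by
            rw [div_le_iff₀ hN0]
            linarith
    have h1 : Real.exp (64 / (N : ℝ) ^ 3 * dn R v (F t ∩ M) -
        128 / (N : ℝ) ^ 3 * e0 N * ∑ r ∈ range t, (dn R v (F r ∩ F t) : ℝ)) ≤ P3 R N T t F M := by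
      unfold P3
      have h2 : Real.exp (64 / (N : ℝ) ^ 3 * dn R v (F t ∩ M) -
          128 / (N : ℝ) ^ 3 * e0 N * ∑ r ∈ range t, (dn R v (F r ∩ F t) : ℝ)) ≤
          ∑ s ∈ (range T).filter fun s => t ≤ s,
            Real.exp (64 / (N : ℝ) ^ 3 * dn R v (F s ∩ M) -
              128 / (N : ℝ) ^ 3 * e0 N * ∑ r ∈ range t, (dn R v (F r ∩ F s) : ℝ)) :=
        Finset.single_le_sum (f := fun s => Real.exp (64 / (N : ℝ) ^ 3 * dn R v (F s ∩ M) -
              128 / (N : ℝ) ^ 3 * e0 N * ∑ r ∈ range t, (dn R v (F r ∩ F s) : ℝ)))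
          (fun s _ => (Real.exp_pos _).le)
          (Finset.mem_filter.2 ⟨Finset.mem_range.2 ht, le_rfl⟩)
      refine h2.trans ?_
      exact Finset.single_le_sum (f := fun w => ∑ s ∈ (range T).filter fun s => t ≤ s,
            Real.exp (64 / (N : ℝ) ^ 3 * dn R w (F s ∩ M) -
              128 / (N : ℝ) ^ 3 * e0 N * ∑ r ∈ range t, (dn R w (F r ∩ F s) : ℝ)))
        (fun w _ => Finset.sum_nonneg fun s _ => (Real.exp_pos _).le) (Finset.mem_univ v)
    have h4 := Real.exp_le_exp.1 ((h1.trans hP3).trans h3n)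
    linarith
  have hk := h.fl t ht v hv
  have hsp : (dn R v (F t) : ℝ) ≤ usd R F U v t + dn R v (F t ∩ M) + dn (U ⊓ R) v (F t \ M) := by
    exact_mod_cast pc2_split R U F t v M
  have hfin := pc2_fin (N : ℝ) (usd R F U v t) (dn R v (F t ∩ M)) (dn (U ⊓ R) v (F t \ M)) hN
    (hk.trans hsp) ha hm
  have : 0 < dn (U ⊓ R) v (F t \ M) := by exact_mod_cast hfin
  exact this

end Pool.Agent.H12.LS
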