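import Mathlib
import Pool.Agent.H12.LS.Defs
import Pool.Agent.H71.EX.Ed

/-!
ED2: Edmonds' matching theorem in cost form, for matchings that may miss the vertex `v` with weight `e v`.

Proof.  Write `b S = ∑ v ∈ S, ∑ u ∈ univ \ S, x v u`. On the type `V × Bool` let
`y a b = if a.2 = b.2 then x a.1 b.1 else if a.1 = b.1 then e a.1 else 0`. `FP y` (`EX/Defs.lean`): `symm`, `nn`: clear;
`diag`: `x v v = 0`; `sum`: `∑ b, y (v, i) b = ∑ u, x v u + e v = 1`. `odd`: let `S : Finset (V × Bool)` be odd,
`A = {v | (v, false) ∈ S}`, `B = {v | (v, true) ∈ S}`, `#S = #A + #B`. Then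
`∑ a ∈ S, ∑ b ∈ univ \ S, y a b = b A + b B + ∑ v ∈ A \ B, e v + ∑ v ∈ B \ A, e v`.
Posimodularity: `b (A \ B) + b (B \ A) ≤ b A + b B` for symmetric `x ≥ 0`. (For instance
`b S = ∑ v, ∑ u, x v u * (if v ∈ S ∧ u ∉ S then 1 else 0)`; for the pair `v, u` add the terms of `(v, u)` and `(u, v)`:
`b S = 1/2 ∑ v, ∑ u, x v u * (if (v ∈ S) ≠ (u ∈ S) then 1 else 0)`, and pointwise
`[v, u separated by A \ B] + [separated by B \ A] ≤ [separated by A] + [separated by B]`: check the 16 cases.)
Since `#A + #B = #(A \ B) + #(B \ A) + 2 #(A ∩ B)` is odd, one of `A \ B`, `B \ A` is odd; by `hodd` for this set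
and nonnegativity of the terms of the other one, the sum is at least `1`.
Now `edm y` (`Ed y`) with the cost `f' (v, false) (u, false) = f v u` for `v ≠ u` (any value for `v = u`),
`f' (v, false) (v, true) = f v v`, and `0` for all other pairs, gives an involution `ρ` of `V × Bool` with
`0 < y a (ρ a)`. Let `π v = if (ρ (v, false)).2 = false then (ρ (v, false)).1 else v`. If `(ρ (v, false)).2 = true` then
`0 < y` shows `ρ (v, false) = (v, true)` and `0 < e v`; otherwise `0 < x v (π v)`, in particular `π v ≠ v`, and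
`ρ (π v, false) = (v, false)`. So `π` is an involution. `f v (π v) = f' (v, false) (ρ (v, false))` in both cases; the other
terms of the cost sum are `0`, and the right side is `∑ v, (∑ u, x v u * f v u + e v * f v v)` (the term `u = v` has
`x v v = 0`).
-/

set_option autoImplicit false

namespace Pool.Agent.H12.LS

open Finset Classical
open Pool.Agent.H71.DN Pool.Agent.H71.EX

private lemma ed2_ind {W : Type} [Fintype W] (y : W → W → ℝ) (S : Finset W) (s : W → ℝ)
    (hs1 : ∀ a ∈ S, s a = 1) (hs0 : ∀ a, a ∉ S → s a = 0) :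
    ∑ a ∈ S, ∑ b ∈ univ \ S, y a b = ∑ a, ∑ b, s a * (1 - s b) * y a b := by
  have h1 : ∀ a, ∑ b, s a * (1 - s b) * y a b =
      if a ∈ S then ∑ b ∈ univ \ S, y a b else 0 := by
    intro a
    by_cases ha : a ∈ S
    · rw [if_pos ha, ← Finset.sum_sdiff (Finset.subset_univ S)]
      have e1 : ∑ b ∈ S, s a * (1 - s b) * y a b = 0 :=
        sum_eq_zero fun b hb => by rw [hs1 b hb]; ring
      rw [e1, add_zero]
      exact sum_congr rfl fun b hb => by rw [hs1 a ha, hs0 b (mem_sdiff.1 hb).2]; ring
    · rw [if_neg ha]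
      exact sum_eq_zero fun b _ => by rw [hs0 a ha]; ring
  rw [Finset.sum_congr rfl fun a _ => h1 a, Finset.sum_ite_mem, Finset.univ_inter]

private lemma ed2_sym {V : Type} [Fintype V] (x : V → V → ℝ) (hs : ∀ u v, x u v = x v u)
    (hx : ∀ u v, 0 ≤ x u v) (P Q : V → V → ℝ) (h : ∀ v u, P v u + P u v ≤ Q v u + Q u v) :
    ∑ v, ∑ u, P v u * x v u ≤ ∑ v, ∑ u, Q v u * x v u := by
  have hsw : ∀ R : V → V → ℝ, ∑ v, ∑ u, R v u * x v u = ∑ v, ∑ u, R u v * x v u := by
    intro R
    rw [sum_comm]
    exact sum_congr rfl fun v _ => sum_congr rfl fun u _ => by rw [hs u v]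
  have h2 : ∀ R : V → V → ℝ, 2 * ∑ v, ∑ u, R v u * x v u =
      ∑ v, ∑ u, (R v u + R u v) * x v u := by
    intro R
    have e : ∑ v, ∑ u, (R v u + R u v) * x v u =
        ∑ v, ∑ u, R v u * x v u + ∑ v, ∑ u, R u v * x v u := by
      rw [← sum_add_distrib]
      refine sum_congr rfl fun v _ => ?_
      rw [← sum_add_distrib]
      exact sum_congr rfl fun u _ => by ring
    rw [e, ← hsw R]
    ring
  have h3 : 2 * ∑ v, ∑ u, P v u * x v u ≤ 2 * ∑ v, ∑ u, Q v u * x v u := by
    rw [h2 P, h2 Q]
    exact sum_le_sum fun v _ => sum_le_sum fun u _ => mul_le_mul_of_nonneg_right (h v u) (hx v u)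
  linarith

private lemma ed2_sumB {V : Type} [Fintype V] (g : V × Bool → ℝ) :
    ∑ a, g a = ∑ v, (g (v, true) + g (v, false)) := by
  rw [Fintype.sum_prod_type]
  exact sum_congr rfl fun v _ => Fintype.sum_bool _

/-- The doubled matrix. -/
noncomputable def ed2Y {V : Type} (x : V → V → ℝ) (e : V → ℝ) (a b : V × Bool) : ℝ :=
  if a.2 = b.2 then x a.1 b.1 else if a.1 = b.1 then e a.1 else 0

private lemma ed2_sumE {V : Type} [Fintype V] (v : V) (c : V → ℝ) (t : ℝ) :
    ∑ u, c u * (if v = u then t else 0) = c v * t := by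
  rw [sum_eq_single v]
  · rw [if_pos rfl]
  · intro u _ hu
    rw [if_neg (Ne.symm hu), mul_zero]
  · intro h
    exact absurd (mem_univ v) h

private lemma ed2_fp {V : Type} [Fintype V] (x : V → V → ℝ) (e : V → ℝ)
    (hs : ∀ u v, x u v = x v u)
    (hx : ∀ u v, 0 ≤ x u v) (hd : ∀ v, x v v = 0) (he : ∀ v, 0 ≤ e v)
    (hsum : ∀ v, ∑ u, x v u + e v = 1)
    (hodd : ∀ S : Finset V, Odd S.card →
      1 ≤ ∑ v ∈ S, ∑ u ∈ univ \ S, x v u + ∑ v ∈ S, e v) : FP (ed2Y x e) := by
  have yff : ∀ v u, ed2Y x e (v, false) (u, false) = x v u := fun v u => by simp [ed2Y]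
  have ytt : ∀ v u, ed2Y x e (v, true) (u, true) = x v u := fun v u => by simp [ed2Y]
  have yft : ∀ v u, ed2Y x e (v, false) (u, true) = if v = u then e v else 0 := fun v u => by
    simp [ed2Y]
  have ytf : ∀ v u, ed2Y x e (v, true) (u, false) = if v = u then e v else 0 := fun v u => by
    simp [ed2Y]
  have hswap : ∀ v u : V, (if v = u then e v else 0) = if u = v then e u else 0 := by
    intro v u
    by_cases h : v = u
    · subst h; rfl
    · rw [if_neg h, if_neg (Ne.symm h)]
  refine ⟨?_, ?_, ?_, ?_, ?_⟩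
  · rintro ⟨v, i⟩ ⟨u, j⟩
    cases i <;> cases j
    · rw [yff, yff, hs]
    · rw [yft, ytf, hswap]
    · rw [ytf, yft, hswap]
    · rw [ytt, ytt, hs]
  · rintro ⟨v, i⟩ ⟨u, j⟩
    cases i <;> cases j
    · rw [yff]; exact hx _ _
    · rw [yft]; split_ifs
      · exact he _
      · exact le_rfl
    · rw [ytf]; split_ifs
      · exact he _
      · exact le_rfl
    · rw [ytt]; exact hx _ _
  · rintro ⟨v, i⟩
    cases i
    · rw [yff, hd]
    · rw [ytt, hd]
  · rintro ⟨v, i⟩
    rw [ed2_sumB]
    have hE : ∑ u : V, (if v = u then e v else 0) = e v := by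
      simp
    cases i
    · simp_rw [yft, yff]
      rw [sum_add_distrib, hE, add_comm]
      exact hsum v
    · simp_rw [ytt, ytf]
      rw [sum_add_distrib, hE]
      exact hsum v
  · intro S hS
    set s : V × Bool → ℝ := fun a => if a ∈ S then 1 else 0 with hsdef
    have hs1 : ∀ a ∈ S, s a = 1 := fun a ha => if_pos ha
    have hs0 : ∀ a, a ∉ S → s a = 0 := fun a ha => if_neg ha
    have hs01 : ∀ a, s a = 0 ∨ s a = 1 := fun a => by
      by_cases ha : a ∈ S
      · exact Or.inr (hs1 a ha)
      · exact Or.inl (hs0 a ha)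
    rw [ed2_ind _ S s hs1 hs0]
    set α : V → ℝ := fun v => s (v, false) with hα
    set β : V → ℝ := fun v => s (v, true) with hβ
    have hα01 : ∀ v, α v = 0 ∨ α v = 1 := fun v => hs01 _
    have hβ01 : ∀ v, β v = 0 ∨ β v = 1 := fun v => hs01 _
    have hcut : ∑ a, ∑ b, s a * (1 - s b) * ed2Y x e a b =
        ∑ v, ∑ u, (α v * (1 - α u) + β v * (1 - β u)) * x v u +
          ∑ v, (α v * (1 - β v) + β v * (1 - α v)) * e v := by
      rw [ed2_sumB, ← sum_add_distrib]
      refine sum_congr rfl fun v _ => ?_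
      rw [ed2_sumB, ed2_sumB]
      simp_rw [ytt, yff, yft, ytf]
      have e1 : ∑ u, (s (v, true) * (1 - s (u, true)) * x v u +
          s (v, true) * (1 - s (u, false)) * (if v = u then e v else 0)) =
          ∑ u, β v * (1 - β u) * x v u + β v * (1 - α v) * e v := by
        rw [sum_add_distrib, ed2_sumE v (fun u => s (v, true) * (1 - s (u, false))) (e v)]
      have e2 : ∑ u, (s (v, false) * (1 - s (u, true)) * (if v = u then e v else 0) +
          s (v, false) * (1 - s (u, false)) * x v u) =
          α v * (1 - β v) * e v + ∑ u, α v * (1 - α u) * x v u := by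
        rw [sum_add_distrib, ed2_sumE v (fun u => s (v, false) * (1 - s (u, true))) (e v)]
      rw [e1, e2]
      have e3 : ∑ u, (α v * (1 - α u) + β v * (1 - β u)) * x v u =
          ∑ u, α v * (1 - α u) * x v u + ∑ u, β v * (1 - β u) * x v u := by
        rw [← sum_add_distrib]
        exact sum_congr rfl fun u _ => by ring
      rw [e3]
      ring
    rw [hcut]
    set A : Finset V := univ.filter fun v => (v, false) ∈ S with hA
    set B : Finset V := univ.filter fun v => (v, true) ∈ S with hB
    have hmA : ∀ v, v ∈ A ↔ (v, false) ∈ S := fun v => by rw [hA, mem_filter]; simp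
    have hmB : ∀ v, v ∈ B ↔ (v, true) ∈ S := fun v => by rw [hB, mem_filter]; simp
    have hcard : S.card = A.card + B.card := by
      have h1 : (S.card : ℝ) = ∑ a, s a := by
        rw [hsdef]
        simp only
        rw [Finset.sum_ite_mem, Finset.univ_inter, sum_const, nsmul_eq_mul, mul_one]
      have h2 : (A.card : ℝ) = ∑ v, α v := by
        rw [hA, Finset.card_filter]
        push_cast
        exact sum_congr rfl fun v _ => rfl
      have h3 : (B.card : ℝ) = ∑ v, β v := by
        rw [hB, Finset.card_filter]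
        push_cast
        exact sum_congr rfl fun v _ => rfl
      have h4 : (S.card : ℝ) = ((A.card + B.card : ℕ) : ℝ) := by
        rw [h1, ed2_sumB, sum_add_distrib]
        push_cast
        rw [h2, h3]
        exact add_comm _ _
      exact_mod_cast h4
    have hAB : (A \ B).card + (A ∩ B).card = A.card := card_sdiff_add_card_inter A B
    have hBA : (B \ A).card + (B ∩ A).card = B.card := card_sdiff_add_card_inter B A
    have hint : (B ∩ A).card = (A ∩ B).card := by rw [inter_comm]
    -- posimodularity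
    have hpos : ∑ v, ∑ u, (α v * (1 - β v) * (1 - α u * (1 - β u)) +
          β v * (1 - α v) * (1 - β u * (1 - α u))) * x v u ≤
        ∑ v, ∑ u, (α v * (1 - α u) + β v * (1 - β u)) * x v u := by
      apply ed2_sym x hs hx
      intro v u
      rcases hα01 v with h1 | h1 <;> rcases hα01 u with h2 | h2 <;>
        rcases hβ01 v with h3 | h3 <;> rcases hβ01 u with h4 | h4 <;>
        rw [h1, h2, h3, h4] <;> norm_num
    have hsplit : ∑ v, ∑ u, (α v * (1 - β v) * (1 - α u * (1 - β u)) +
          β v * (1 - α v) * (1 - β u * (1 - α u))) * x v u =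
        ∑ v, ∑ u, α v * (1 - β v) * (1 - α u * (1 - β u)) * x v u +
        ∑ v, ∑ u, β v * (1 - α v) * (1 - β u * (1 - α u)) * x v u := by
      rw [← sum_add_distrib]
      refine sum_congr rfl fun v _ => ?_
      rw [← sum_add_distrib]
      exact sum_congr rfl fun u _ => by ring
    have hesplit : ∑ v, (α v * (1 - β v) + β v * (1 - α v)) * e v =
        ∑ v, α v * (1 - β v) * e v + ∑ v, β v * (1 - α v) * e v := by
      rw [← sum_add_distrib]
      exact sum_congr rfl fun v _ => by ring
    have hfA : ∑ v ∈ A \ B, ∑ u ∈ univ \ (A \ B), x v u =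
        ∑ v, ∑ u, α v * (1 - β v) * (1 - α u * (1 - β u)) * x v u := by
      apply ed2_ind x (A \ B) (fun v => α v * (1 - β v))
      · intro v hv
        rw [mem_sdiff, hmA, hmB] at hv
        change s (v, false) * (1 - s (v, true)) = 1
        rw [hs1 _ hv.1, hs0 _ hv.2]; norm_num
      · intro v hv
        change s (v, false) * (1 - s (v, true)) = 0
        by_cases h1 : (v, false) ∈ S
        · have h2 : (v, true) ∈ S := by
            by_contra h2
            exact hv (mem_sdiff.2 ⟨(hmA v).2 h1, fun h => h2 ((hmB v).1 h)⟩)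
          rw [hs1 _ h2]; norm_num
        · rw [hs0 _ h1]; norm_num
    have hfB : ∑ v ∈ B \ A, ∑ u ∈ univ \ (B \ A), x v u =
        ∑ v, ∑ u, β v * (1 - α v) * (1 - β u * (1 - α u)) * x v u := by
      apply ed2_ind x (B \ A) (fun v => β v * (1 - α v))
      · intro v hv
        rw [mem_sdiff, hmA, hmB] at hv
        change s (v, true) * (1 - s (v, false)) = 1
        rw [hs1 _ hv.1, hs0 _ hv.2]; norm_num
      · intro v hv
        change s (v, true) * (1 - s (v, false)) = 0
        by_cases h1 : (v, true) ∈ S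
        · have h2 : (v, false) ∈ S := by
            by_contra h2
            exact hv (mem_sdiff.2 ⟨(hmB v).2 h1, fun h => h2 ((hmA v).1 h)⟩)
          rw [hs1 _ h2]; norm_num
        · rw [hs0 _ h1]; norm_num
    have hgA : ∑ v ∈ A \ B, e v = ∑ v, α v * (1 - β v) * e v := by
      rw [← Finset.univ_inter (A \ B), ← Finset.sum_ite_mem]
      refine sum_congr rfl fun v _ => ?_
      by_cases h1 : (v, false) ∈ S <;> by_cases h2 : (v, true) ∈ S
      · rw [if_neg (fun h => (mem_sdiff.1 h).2 ((hmB v).2 h2))]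
        change 0 = s (v, false) * (1 - s (v, true)) * e v
        rw [hs1 _ h2]; ring
      · rw [if_pos (mem_sdiff.2 ⟨(hmA v).2 h1, fun h => h2 ((hmB v).1 h)⟩)]
        change e v = s (v, false) * (1 - s (v, true)) * e v
        rw [hs1 _ h1, hs0 _ h2]; ring
      · rw [if_neg (fun h => h1 ((hmA v).1 (mem_sdiff.1 h).1))]
        change 0 = s (v, false) * (1 - s (v, true)) * e v
        rw [hs0 _ h1]; ring
      · rw [if_neg (fun h => h1 ((hmA v).1 (mem_sdiff.1 h).1))]
        change 0 = s (v, false) * (1 - s (v, true)) * e v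
        rw [hs0 _ h1]; ring
    have hgB : ∑ v ∈ B \ A, e v = ∑ v, β v * (1 - α v) * e v := by
      rw [← Finset.univ_inter (B \ A), ← Finset.sum_ite_mem]
      refine sum_congr rfl fun v _ => ?_
      by_cases h1 : (v, true) ∈ S <;> by_cases h2 : (v, false) ∈ S
      · rw [if_neg (fun h => (mem_sdiff.1 h).2 ((hmA v).2 h2))]
        change 0 = s (v, true) * (1 - s (v, false)) * e v
        rw [hs1 _ h2]; ring
      · rw [if_pos (mem_sdiff.2 ⟨(hmB v).2 h1, fun h => h2 ((hmA v).1 h)⟩)]
        change e v = s (v, true) * (1 - s (v, false)) * e v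
        rw [hs1 _ h1, hs0 _ h2]; ring
      · rw [if_neg (fun h => h1 ((hmB v).1 (mem_sdiff.1 h).1))]
        change 0 = s (v, true) * (1 - s (v, false)) * e v
        rw [hs0 _ h1]; ring
      · rw [if_neg (fun h => h1 ((hmB v).1 (mem_sdiff.1 h).1))]
        change 0 = s (v, true) * (1 - s (v, false)) * e v
        rw [hs0 _ h1]; ring
    have hnA : 0 ≤ ∑ v ∈ A \ B, ∑ u ∈ univ \ (A \ B), x v u :=
      sum_nonneg fun v _ => sum_nonneg fun u _ => hx _ _
    have hnB : 0 ≤ ∑ v ∈ B \ A, ∑ u ∈ univ \ (B \ A), x v u :=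
      sum_nonneg fun v _ => sum_nonneg fun u _ => hx _ _
    have hneA : 0 ≤ ∑ v ∈ A \ B, e v := sum_nonneg fun v _ => he v
    have hneB : 0 ≤ ∑ v ∈ B \ A, e v := sum_nonneg fun v _ => he v
    have hodd2 : Odd (A \ B).card ∨ Odd (B \ A).card := by
      rw [hcard] at hS
      rw [Nat.odd_iff] at hS ⊢
      rw [Nat.odd_iff]
      omega
    rw [hesplit, ← hgA, ← hgB]
    rw [hsplit, ← hfA, ← hfB] at hpos
    rcases hodd2 with h | h
    · have := hodd _ h
      linarith
    · have := hodd _ h
      linarith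

theorem ed2 {V : Type} [Fintype V] (x : V → V → ℝ) (e : V → ℝ) (hs : ∀ u v, x u v = x v u)
    (hx : ∀ u v, 0 ≤ x u v) (hd : ∀ v, x v v = 0) (he : ∀ v, 0 ≤ e v)
    (hsum : ∀ v, ∑ u, x v u + e v = 1)
    (hodd : ∀ S : Finset V, Odd S.card →
      1 ≤ ∑ v ∈ S, ∑ u ∈ univ \ S, x v u + ∑ v ∈ S, e v) (f : V → V → ℝ) :
    ∃ π : V → V, (∀ v, π (π v) = v) ∧ (∀ v, π v ≠ v → 0 < x v (π v)) ∧
      (∀ v, π v = v → 0 < e v) ∧
      ∑ v, f v (π v) ≤ ∑ v, (∑ u, x v u * f v u + e v * f v v) := by
  have hfp := ed2_fp x e hs hx hd he hsum hodd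
  obtain ⟨ρ, hρ, hpos, hcost⟩ := edm _ hfp (fun a b =>
    if a.2 = true then 0 else if b.2 = true then f a.1 a.1 else f a.1 b.1)
  set π : V → V := fun v => if (ρ (v, false)).2 = true then v else (ρ (v, false)).1 with hπ
  have hcase1 : ∀ v, (ρ (v, false)).2 = true → ρ (v, false) = (v, true) ∧ 0 < e v := by
    intro v hv
    have h1 := hpos (v, false)
    have h2 : ρ (v, false) = ((ρ (v, false)).1, true) := Prod.ext rfl hv
    rw [h2, ed2Y] at h1
    rw [if_neg (by simp)] at h1
    by_cases h3 : v = (ρ (v, false)).1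
    · rw [if_pos h3] at h1
      refine ⟨?_, h1⟩
      rw [h2, ← h3]
    · rw [if_neg h3] at h1
      exact absurd h1 (lt_irrefl _)
  have hcase2 : ∀ v, (ρ (v, false)).2 ≠ true →
      ρ (v, false) = (π v, false) ∧ 0 < x v (π v) := by
    intro v hv
    have hv' : (ρ (v, false)).2 = false := by simpa using hv
    have h2 : π v = (ρ (v, false)).1 := if_neg hv
    have h3 : ρ (v, false) = (π v, false) := by rw [h2]; exact Prod.ext rfl hv'
    have h1 := hpos (v, false)
    rw [h3, ed2Y] at h1
    rw [if_pos rfl] at h1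
    exact ⟨h3, h1⟩
  have hfix : ∀ v, (ρ (v, false)).2 = true → π v = v := fun v hv => if_pos hv
  refine ⟨π, ?_, ?_, ?_, ?_⟩
  · intro v
    by_cases hv : (ρ (v, false)).2 = true
    · rw [hfix v hv, hfix v hv]
    · obtain ⟨h1, -⟩ := hcase2 v hv
      have h2 : ρ (π v, false) = (v, false) := by rw [← h1]; exact hρ _
      have h3 : (ρ (π v, false)).2 ≠ true := by rw [h2]; simp
      change (if (ρ (π v, false)).2 = true then π v else (ρ (π v, false)).1) = v
      rw [if_neg h3, h2]
  · intro v hne
    by_cases hv : (ρ (v, false)).2 = true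
    · exact absurd (hfix v hv) hne
    · exact (hcase2 v hv).2
  · intro v hev
    by_cases hv : (ρ (v, false)).2 = true
    · exact (hcase1 v hv).2
    · have h1 := (hcase2 v hv).2
      rw [hev, hd] at h1
      exact absurd h1 (lt_irrefl _)
  · have hL : ∑ a : V × Bool, (if a.2 = true then 0 else if (ρ a).2 = true then f a.1 a.1
        else f a.1 (ρ a).1) = ∑ v, f v (π v) := by
      rw [ed2_sumB]
      refine sum_congr rfl fun v _ => ?_
      by_cases hv : (ρ (v, false)).2 = true
      · simp only [if_true, zero_add]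
        rw [if_neg (by simp), if_pos hv, hfix v hv]
      · simp only [if_true, zero_add]
        rw [if_neg (by simp), if_neg hv]
        rw [(hcase2 v hv).1]
    have hR : ∑ a : V × Bool, ∑ b : V × Bool, ed2Y x e a b * (if a.2 = true then 0
        else if b.2 = true then f a.1 a.1 else f a.1 b.1) =
        ∑ v, (∑ u, x v u * f v u + e v * f v v) := by
      rw [ed2_sumB]
      refine sum_congr rfl fun v _ => ?_
      have h0 : ∑ b : V × Bool, ed2Y x e (v, true) b * (if (v, true).2 = true then 0
        else if b.2 = true then f (v, true).1 (v, true).1 else f (v, true).1 b.1) = 0 := by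
        refine sum_eq_zero fun b _ => ?_
        rw [if_pos rfl, mul_zero]
      rw [h0, zero_add, ed2_sumB, sum_add_distrib]
      have h1 : ∑ u : V, ed2Y x e (v, false) (u, true) * (if (v, false).2 = true then 0
        else if (u, true).2 = true then f (v, false).1 (v, false).1
          else f (v, false).1 (u, true).1) = e v * f v v := by
        have h2 := ed2_sumE v (fun _ => f v v) (e v)
        rw [mul_comm (e v), ← h2]
        refine sum_congr rfl fun u _ => ?_
        simp only [ed2Y, Bool.false_eq_true, if_false, if_true]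
        exact mul_comm _ _
      have h2 : ∑ u : V, ed2Y x e (v, false) (u, false) * (if (v, false).2 = true then 0
        else if (u, false).2 = true then f (v, false).1 (v, false).1
          else f (v, false).1 (u, false).1) = ∑ u, x v u * f v u := by
        refine sum_congr rfl fun u _ => ?_
        simp only [ed2Y, Bool.false_eq_true, if_false, if_true]
      rw [h1, h2]
      exact add_comm _ _
    rw [← hL, ← hR]
    exact hcost

end Pool.Agent.H12.LS
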