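import Mathlib
import Pool.Agent.H12.LS.Defs
import Pool.Agent.H71.EX.Lb
import Pool.Agent.H12.LS.Ed2

/-!
ST2: the fractional matching of one step. Compare `EX/St.lean` (proved).

Proof.  `lb` (`EX/Lb.lean`) with `b v = 1 - ∑ u, x v u - e v` gives `y`. Let `z = x + y`. On an edge of `F`: `x = 0`,
`z = y`; elsewhere `y = 0`, `z = x`. `z` is symmetric, nonnegative, `z v v = 0`, `∑ u, z v u + e v = 1`, and
`z v u ≤ ζ` always (`3 / 2 * c0 ≤ ζ`). Then `ed2` for `z`, `e` gives the last claim. Its hypothesis `hodd`: let `S` be odd.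
If `ζ * S.card ≤ 1`: `∑ v ∈ S, ∑ u ∈ univ \ S, z v u + ∑ v ∈ S, e v = ∑ v ∈ S, (1 - ∑ u ∈ S, z v u) ≥ #S - #S * (#S - 1) * ζ`
(`z v v = 0`), and `#S * ζ ≤ 1`, `#S ≥ 1`, so it is `≥ #S - (#S - 1) = 1`. If `1 < ζ * S.card`: the first sum is at least
`∑ v ∈ S, ∑ u ∈ univ \ S, y v u ≥ c0 / 2 * ee F S (univ \ S)`, and `h4`.
-/

set_option autoImplicit false

namespace Pool.Agent.H12.LS

open Finset Classical
open Pool.Agent.H71.DN Pool.Agent.H71.EX

private theorem St2_bd {V : Type} [Fintype V] (F : SimpleGraph V)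
    (x y : V → V → ℝ) (e : V → ℝ) (c0 ζ : ℝ) (hc0 : 0 < c0) (hζ : 3 / 2 * c0 ≤ ζ)
    (hx0 : ∀ u v, 0 ≤ x u v) (hxζ : ∀ u v, x u v ≤ ζ)
    (hxF : ∀ u v, F.Adj u v → x u v = 0) (hxd : ∀ v, x v v = 0)
    (hy2 : ∀ u v, F.Adj u v → c0 / 2 ≤ y u v ∧ y u v ≤ 3 / 2 * c0)
    (hy3 : ∀ u v, ¬ F.Adj u v → y u v = 0)
    (hsum : ∀ v, ∑ u, (x v u + y v u) + e v = 1)
    (S : Finset V) (hS : Odd S.card)
    (h4 : 1 < ζ * S.card → 2 ≤ c0 * ee F S (univ \ S) + 2 * ∑ v ∈ S, e v) :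
    1 ≤ ∑ v ∈ S, ∑ u ∈ univ \ S, (x v u + y v u) + ∑ v ∈ S, e v := by
  have hζ0 : 0 < ζ := by linarith
  have hy0 : ∀ u v, 0 ≤ y u v := by
    intro u v
    by_cases h : F.Adj u v
    · have := (hy2 u v h).1
      linarith
    · rw [hy3 u v h]
  have hzζ : ∀ u v, x u v + y u v ≤ ζ := by
    intro u v
    by_cases h : F.Adj u v
    · rw [hxF u v h]
      have := (hy2 u v h).2
      linarith
    · rw [hy3 u v h]
      have := hxζ u v
      linarith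
  have hcard : 1 ≤ S.card := hS.pos
  have hcr : (1 : ℝ) ≤ (S.card : ℝ) := by exact_mod_cast hcard
  by_cases hle : ζ * S.card ≤ 1
  · have h1 : ∀ v ∈ S, 1 - ((S.card : ℝ) - 1) * ζ ≤ ∑ u ∈ univ \ S, (x v u + y v u) + e v := by
      intro v hv
      have h2 : ∑ u ∈ univ \ S, (x v u + y v u) + ∑ u ∈ S, (x v u + y v u) + e v = 1 := by
        rw [Finset.sum_sdiff (Finset.subset_univ S), hsum v]
      have h3 : ∑ u ∈ S, (x v u + y v u) ≤ ((S.card : ℝ) - 1) * ζ := by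
        rw [← Finset.add_sum_erase S _ hv, hxd v, hy3 v v (F.irrefl), add_zero, zero_add]
        calc ∑ u ∈ S.erase v, (x v u + y v u) ≤ ∑ _u ∈ S.erase v, ζ :=
            Finset.sum_le_sum fun u _ => hzζ v u
          _ = ((S.card : ℝ) - 1) * ζ := by
            rw [Finset.sum_const, nsmul_eq_mul, Finset.card_erase_of_mem hv,
              Nat.cast_sub hcard, Nat.cast_one]
      linarith
    have h2 : ∑ _v ∈ S, (1 - ((S.card : ℝ) - 1) * ζ) ≤
        ∑ v ∈ S, (∑ u ∈ univ \ S, (x v u + y v u) + e v) := Finset.sum_le_sum h1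
    rw [Finset.sum_const, nsmul_eq_mul, Finset.sum_add_distrib] at h2
    have h3 : ((S.card : ℝ) - 1) * (ζ * S.card) ≤ ((S.card : ℝ) - 1) * 1 :=
      mul_le_mul_of_nonneg_left hle (by linarith)
    have h5 : (S.card : ℝ) * (1 - ((S.card : ℝ) - 1) * ζ) =
        (S.card : ℝ) - ((S.card : ℝ) - 1) * (ζ * S.card) := by ring
    linarith
  · have h5 := h4 (not_le.1 hle)
    have h6 : c0 / 2 * (ee F S (univ \ S) : ℝ) ≤ ∑ v ∈ S, ∑ u ∈ univ \ S, (x v u + y v u) := by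
      rw [← Finset.sum_product' S (univ \ S) (fun v u => x v u + y v u)]
      unfold ee
      calc c0 / 2 * ((((S ×ˢ (univ \ S)).filter fun p => F.Adj p.1 p.2).card : ℕ) : ℝ) =
          ∑ _p ∈ (S ×ˢ (univ \ S)).filter (fun p => F.Adj p.1 p.2), c0 / 2 := by
            rw [Finset.sum_const, nsmul_eq_mul, mul_comm]
        _ ≤ ∑ p ∈ (S ×ˢ (univ \ S)).filter (fun p => F.Adj p.1 p.2), (x p.1 p.2 + y p.1 p.2) := by
            apply Finset.sum_le_sum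
            intro p hp
            have h7 := (hy2 p.1 p.2 (Finset.mem_filter.1 hp).2).1
            have h8 := hx0 p.1 p.2
            linarith
        _ ≤ ∑ p ∈ S ×ˢ (univ \ S), (x p.1 p.2 + y p.1 p.2) := by
            apply Finset.sum_le_sum_of_subset_of_nonneg (Finset.filter_subset _ _)
            intro p _ _
            exact add_nonneg (hx0 _ _) (hy0 _ _)
    linarith

theorem st2 {V : Type} [Fintype V] (F : SimpleGraph V)
    (x : V → V → ℝ) (e : V → ℝ) (c0 g ζ : ℝ) (hc0 : 0 < c0) (hg0 : 0 < g) (hζ : 3 / 2 * c0 ≤ ζ)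
    (hxs : ∀ u v, x u v = x v u) (hx0 : ∀ u v, 0 ≤ x u v) (hxζ : ∀ u v, x u v ≤ ζ)
    (hxF : ∀ u v, F.Adj u v → x u v = 0) (hxd : ∀ v, x v v = 0) (he : ∀ v, 0 ≤ e v)
    (h2 : ∀ v, |(1 - ∑ u, x v u - e v) - c0 * dg F v| ≤ c0 * g / 2) (h3 : Lc F g)
    (h4 : ∀ S : Finset V, 1 < ζ * S.card →
      2 ≤ c0 * ee F S (univ \ S) + 2 * ∑ v ∈ S, e v) :
    ∃ z : V → V → ℝ, (∀ v u, F.Adj v u → c0 / 2 ≤ z v u ∧ z v u ≤ 3 / 2 * c0) ∧
      (∀ v u, ¬ F.Adj v u → z v u = x v u) ∧ (∀ v, ∑ u, z v u + e v = 1) ∧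
      ∀ f : V → V → ℝ, ∃ π : V → V, (∀ v, π (π v) = v) ∧ (∀ v, π v ≠ v → 0 < z v (π v)) ∧
        (∀ v, π v = v → 0 < e v) ∧
        ∑ v, f v (π v) ≤ ∑ v, (∑ u, z v u * f v u + e v * f v v) := by
  obtain ⟨y, hy1, hy2, hy3, hy4⟩ := lb F g c0 hg0 hc0 h3 (fun v => 1 - ∑ u, x v u - e v) h2
  have hy0 : ∀ u v, 0 ≤ y u v := by
    intro u v
    by_cases h : F.Adj u v
    · have := (hy2 u v h).1
      linarith
    · rw [hy3 u v h]
  have hsum : ∀ v, ∑ u, (x v u + y v u) + e v = 1 := by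
    intro v
    rw [Finset.sum_add_distrib, hy4 v]
    ring
  refine ⟨fun v u => x v u + y v u, ?_, ?_, hsum, ?_⟩
  · intro v u h
    have h5 := hy2 v u h
    show c0 / 2 ≤ x v u + y v u ∧ x v u + y v u ≤ 3 / 2 * c0
    rw [hxF v u h, zero_add]
    exact h5
  · intro v u h
    show x v u + y v u = x v u
    rw [hy3 v u h, add_zero]
  · intro f
    refine ed2 (fun v u => x v u + y v u) e ?_ ?_ ?_ he hsum ?_ f
    · intro u v
      show x u v + y u v = x v u + y v u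
      rw [hxs u v, hy1 u v]
    · intro u v
      exact add_nonneg (hx0 u v) (hy0 u v)
    · intro v
      show x v v + y v v = 0
      rw [hxd v, hy3 v v F.irrefl, add_zero]
    · intro S hS
      exact St2_bd F x y e c0 ζ hc0 hζ hx0 hxζ hxF hxd hy2 hy3 hsum S hS (h4 S)

end Pool.Agent.H12.LS
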