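import Mathlib
import Pool.Agent.H12.LS.Defs
import Pool.Agent.H12.LS.Pb2
import Pool.Agent.H12.LS.Pqa
import Pool.Agent.H12.LS.Pqb
import Pool.Agent.H12.LS.Pqc
import Pool.Agent.H12.LS.St2
import Pool.Agent.H71.EX.Ps

/-!
PS2: the weights and the matching of step `t`, in terms of `V`. Compare `EX/Ps.lean` (proved; copy and adapt). `Qv` is
`EX.Qv` (`Q v = 1 / N ^ 10 + θ (dl v + w v)`, `θ = th Δ N t`, `w v = dn (U \ R) v (W t)`).

`psq2`: as `psq` (`dbl2`, `pb2`, `wd`).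

`ps2`: apply `st2` to the type `A = {v // v ∉ W t}`, `F` = the restriction of `U ⊓ R`, `x a b = if (U \ R).Adj a b then θ else 0`,
`e a = ev N t F M a`, `c0 = 1 / (N ^ 2 Δ)`, `g = Δ / N ^ 9 / 2`, `ζ = N ^ 8 / (2 Δ)`. Row sums: `∑ b, x a b = 1 - Q a` (as
`EXPs_row`, which uses of `Pc` only the positivity of `Db`). `h2`: `|Q a - e a - c0 dg F a| ≤ 2 / N ^ 12 + 1 / N ^ 45 + 3 / N ^ 12 ≤
1 / (4 N ^ 11) = c0 g / 2` (`psq2`, `pqa1`). `h3` is `pqa2`. `h4`: `1 < ζ #S` iff `2 Δ / N ^ 8 < #S`; if `#S ≤ N ^ 60 Δ` then `pqb`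
(and `e ≥ 0`), otherwise `pqc`.
`z v u` = the weights of `st2` if `v, u ∉ W t`, otherwise `0`. `Zw`: `main`, `res`, `zer`, `sum` are clear (`∑ u, z v u` over `V`
is the sum over `A`). For a cost `f` apply the last claim of `st2` to `fun a b => f a b`: an involution `π'` of `A`; put
`π v = π' v` on `A`, `π v = v` on `W t`. `Mt`: `adj`: `0 < z v (π v)` gives `U.Adj v (π v)`; `mis`: `0 < ev`, so `v ∈ F t ∧ v ∉ M`.
-/

set_option autoImplicit false

namespace Pool.Agent.H12.LS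

open Finset Classical
open Pool.Agent.H71.DN Pool.Agent.H71.EX

private theorem LSPs2_nd {V : Type} [Fintype V] {G R : SimpleGraph V} {Δ N T w0 : ℕ}
    {W F : ℕ → Finset V} {F0 : Finset V} (h : Pd G R Δ N T w0 W F F0) :
    (1000 : ℝ) ≤ N ∧ (0 : ℝ) < Δ := by
  have h1 := h.xp.hN
  have h2 := h.xp.hΔ
  constructor
  · exact_mod_cast h1
  · have h3 : 0 < N ^ 250 := by positivity
    exact_mod_cast lt_of_lt_of_le h3 h2

private theorem LSPs2_th {V : Type} [Fintype V] {G R : SimpleGraph V} {Δ N T w0 : ℕ}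
    {W F : ℕ → Finset V} {F0 : Finset V} (h : Pd G R Δ N T w0 W F F0) (t : ℕ) (ht : t < T) :
    0 ≤ th Δ N t ∧ th Δ N t ≤ (N : ℝ) ^ 8 / (2 * Δ) := by
  obtain ⟨hn, hd⟩ := LSPs2_nd h
  have hdb := dbl2 G R Δ N T w0 W F F0 h t ht.le
  have hn0 : (0 : ℝ) < N := by linarith
  have hpos : (0 : ℝ) < 2 * (Δ / (N : ℝ) ^ 8) := by positivity
  have h1 : (0 : ℝ) ≤ 1 / (N : ℝ) ^ 10 := by positivity
  have h2 : 1 / (N : ℝ) ^ 10 ≤ 1 := by
    rw [div_le_one (by positivity)]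
    exact one_le_pow₀ (by linarith)
  unfold th
  constructor
  · apply div_nonneg
    · linarith
    · linarith
  · calc (1 - 1 / (N : ℝ) ^ 10) / Db Δ N t ≤ 1 / (2 * (Δ / (N : ℝ) ^ 8)) :=
        div_le_div₀ zero_le_one (by linarith) hpos hdb
      _ = (N : ℝ) ^ 8 / (2 * Δ) := by
        field_simp

private theorem LSPs2_dn {V : Type} [Fintype V] {G R : SimpleGraph V} {Δ N T w0 : ℕ}
    {W F : ℕ → Finset V} {F0 : Finset V} (h : Pd G R Δ N T w0 W F F0) (t : ℕ) (ht : t < T)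
    {U : SimpleGraph V} {M : Finset V} (hU : Sm G R Δ N T t W F F0 U M)
    (v : V) : (dn (U \ R) v (W t) : ℝ) ≤ Δ / (N : ℝ) ^ 20 := by
  refine le_trans ?_ (h.wd t ht v)
  unfold dn
  exact_mod_cast Finset.card_le_card (by
    intro u hu
    simp only [Finset.mem_filter, SimpleGraph.sdiff_adj] at hu ⊢
    exact ⟨hu.1, hU.le hu.2.1⟩)

/-- The row sums. -/
private theorem LSPs2_row {V : Type} [Fintype V] {G R : SimpleGraph V} {Δ N T w0 : ℕ}
    {W F : ℕ → Finset V} {F0 : Finset V} (h : Pd G R Δ N T w0 W F F0) (t : ℕ) (ht : t < T)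
    (U : SimpleGraph V) (a : {v // v ∉ W t}) :
    1 - ∑ b : {v // v ∉ W t}, (if (U \ R).Adj a.1 b.1 then th Δ N t else 0) =
      Qv R Δ N t W U a.1 := by
  obtain ⟨hn, hd⟩ := LSPs2_nd h
  have hdb := dbl2 G R Δ N T w0 W F F0 h t ht.le
  have hn0 : (0 : ℝ) < N := by linarith
  have hpos : (0 : ℝ) < 2 * (Δ / (N : ℝ) ^ 8) := by positivity
  have hdb0 : Db Δ N t ≠ 0 := by linarith
  have h1 : ∑ b : {v // v ∉ W t}, (if (U \ R).Adj a.1 b.1 then th Δ N t else 0) =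
      ∑ b ∈ univ \ W t, (if (U \ R).Adj a.1 b then th Δ N t else 0) := by
    rw [Finset.sum_subtype (univ \ W t) (p := fun v => v ∉ W t) (by intro x; simp)]
  have h2 : ∑ b ∈ univ \ W t, (if (U \ R).Adj a.1 b then th Δ N t else 0) =
      th Δ N t * ((dg (U \ R) a.1 : ℝ) - dn (U \ R) a.1 (W t)) := by
    have h3 : ∑ b ∈ univ \ W t, (if (U \ R).Adj a.1 b then th Δ N t else 0) +
        ∑ b ∈ W t, (if (U \ R).Adj a.1 b then th Δ N t else 0) =
        ∑ b, (if (U \ R).Adj a.1 b then th Δ N t else 0) :=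
      Finset.sum_sdiff (Finset.subset_univ (W t))
    have h4 : ∑ b ∈ W t, (if (U \ R).Adj a.1 b then th Δ N t else 0) =
        (dn (U \ R) a.1 (W t) : ℝ) * th Δ N t := by
      rw [← Finset.sum_filter, Finset.sum_const, nsmul_eq_mul]
      have e : ((W t).filter fun b => (U \ R).Adj a.1 b).card = dn (U \ R) a.1 (W t) := by
        unfold dn
        exact congrArg Finset.card (by ext x; simp only [Finset.mem_filter])
      rw [e]
    have h5 : ∑ b, (if (U \ R).Adj a.1 b then th Δ N t else 0) =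
        (dg (U \ R) a.1 : ℝ) * th Δ N t := by
      rw [← Finset.sum_filter, Finset.sum_const, nsmul_eq_mul]
      have e : (univ.filter fun b => (U \ R).Adj a.1 b).card = dg (U \ R) a.1 := by
        unfold dg
        exact congrArg Finset.card (by ext x; simp only [Finset.mem_filter])
      rw [e]
    rw [h4, h5] at h3
    linarith
  rw [h1, h2]
  unfold Qv dl th
  have h6 : (1 - 1 / (N : ℝ) ^ 10) / Db Δ N t * Db Δ N t = 1 - 1 / (N : ℝ) ^ 10 :=
    div_mul_cancel₀ _ hdb0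
  linear_combination (-1 : ℝ) * h6

theorem psq2 {V : Type} [Fintype V] (G R : SimpleGraph V) (Δ N T w0 : ℕ) (W F : ℕ → Finset V)
    (F0 : Finset V) (h : Pd G R Δ N T w0 W F F0) (t : ℕ) (ht : t < T) (U : SimpleGraph V)
    (M : Finset V) (hU : Sm G R Δ N T t W F F0 U M) (v : V) :
    |Qv R Δ N t W U v - 1 / (N : ℝ) ^ 10| ≤ 2 / (N : ℝ) ^ 12 := by
  obtain ⟨hn, hd⟩ := LSPs2_nd h
  have hth := LSPs2_th h t ht
  have hdl := pb2 G R Δ N T w0 W F F0 h t ht.le U M hU v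
  have hw := LSPs2_dn h t ht hU v
  have e : Qv R Δ N t W U v - 1 / (N : ℝ) ^ 10 =
      th Δ N t * (dl R Δ N t U v + dn (U \ R) v (W t)) := by
    unfold Qv th
    ring
  rw [e, abs_mul, abs_of_nonneg hth.1]
  have hw0 : (0 : ℝ) ≤ (dn (U \ R) v (W t) : ℝ) := Nat.cast_nonneg _
  have h1 : |dl R Δ N t U v + dn (U \ R) v (W t)| ≤ 4 * (Δ / (N : ℝ) ^ 20) := by
    have h2 := abs_le.1 hdl
    rw [abs_le]
    constructor
    · have : (0 : ℝ) ≤ Δ / (N : ℝ) ^ 20 := by positivity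
      linarith [h2.1]
    · linarith [h2.2]
  calc th Δ N t * |dl R Δ N t U v + dn (U \ R) v (W t)|
      ≤ (N : ℝ) ^ 8 / (2 * Δ) * (4 * (Δ / (N : ℝ) ^ 20)) :=
        mul_le_mul hth.2 h1 (abs_nonneg _) (by positivity)
    _ = 2 / (N : ℝ) ^ 12 := by
        have hn0 : (N : ℝ) ≠ 0 := by positivity
        have hd0 : (Δ : ℝ) ≠ 0 := by positivity
        field_simp
        norm_num

private theorem LSPs2_ev0 {V : Type} (N t : ℕ) (F : ℕ → Finset V) (M : Finset V) (v : V) :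
    0 ≤ ev N t F M v ∧ ev N t F M v ≤ 1 / (N : ℝ) ^ 45 := by
  have h0 : (0 : ℝ) ≤ 1 / (N : ℝ) ^ 45 := by positivity
  unfold ev e0
  split_ifs
  · exact ⟨h0, le_rfl⟩
  · exact ⟨le_rfl, h0⟩

/-- the application of `st2` -/
private theorem LSPs2_st {V : Type} [Fintype V] (G R : SimpleGraph V) (Δ N T w0 : ℕ)
    (W F : ℕ → Finset V)
    (F0 : Finset V) (h : Pd G R Δ N T w0 W F F0) (t : ℕ) (ht : t < T) (U : SimpleGraph V)
    (M : Finset V) (hU : Sm G R Δ N T t W F F0 U M) :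
    ∃ z : {v // v ∉ W t} → {v // v ∉ W t} → ℝ,
      (∀ v u, ((U ⊓ R).comap (Subtype.val : {v // v ∉ W t} → V)).Adj v u →
        1 / ((N : ℝ) ^ 2 * Δ) / 2 ≤ z v u ∧ z v u ≤ 3 / 2 * (1 / ((N : ℝ) ^ 2 * Δ))) ∧
      (∀ v u, ¬ ((U ⊓ R).comap (Subtype.val : {v // v ∉ W t} → V)).Adj v u →
        z v u = if (U \ R).Adj v.1 u.1 then th Δ N t else 0) ∧
      (∀ v, ∑ u, z v u + ev N t F M v.1 = 1) ∧
      ∀ f : {v // v ∉ W t} → {v // v ∉ W t} → ℝ, ∃ π : {v // v ∉ W t} → {v // v ∉ W t},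
        (∀ v, π (π v) = v) ∧ (∀ v, π v ≠ v → 0 < z v (π v)) ∧
        (∀ v, π v = v → 0 < ev N t F M v.1) ∧
        ∑ v, f v (π v) ≤ ∑ v, (∑ u, z v u * f v u + ev N t F M v.1 * f v v) := by
  obtain ⟨hn, hd⟩ := LSPs2_nd h
  have hth := LSPs2_th h t ht
  have hn0 : (0 : ℝ) < N := by linarith
  have hc0 : (0 : ℝ) < 1 / ((N : ℝ) ^ 2 * Δ) := by positivity
  have hg0 : (0 : ℝ) < Δ / (N : ℝ) ^ 9 / 2 := by positivity
  have hN10 : (1 : ℝ) ≤ (N : ℝ) := by linarith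
  have hζ : 3 / 2 * (1 / ((N : ℝ) ^ 2 * Δ)) ≤ (N : ℝ) ^ 8 / (2 * Δ) := by
    have h1 : (3 : ℝ) ≤ (N : ℝ) ^ 10 :=
      le_trans (by linarith : (3 : ℝ) ≤ N) (le_self_pow₀ hN10 (by norm_num))
    have e1 : 3 / 2 * (1 / ((N : ℝ) ^ 2 * Δ)) = 3 / (2 * ((N : ℝ) ^ 2 * Δ)) := by
      field_simp
    rw [e1, div_le_div_iff₀ (by positivity) (by positivity)]
    have h2 : (3 : ℝ) * (2 * Δ) ≤ (N : ℝ) ^ 10 * (2 * Δ) :=
      mul_le_mul_of_nonneg_right h1 (by positivity)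
    linarith [show (N : ℝ) ^ 8 * (2 * ((N : ℝ) ^ 2 * Δ)) = (N : ℝ) ^ 10 * (2 * Δ) by ring]
  have hζ0 : (0 : ℝ) ≤ (N : ℝ) ^ 8 / (2 * Δ) := by positivity
  exact st2 ((U ⊓ R).comap (Subtype.val : {v // v ∉ W t} → V))
    (fun a b => if (U \ R).Adj a.1 b.1 then th Δ N t else 0) (fun a => ev N t F M a.1)
    (1 / ((N : ℝ) ^ 2 * Δ)) (Δ / (N : ℝ) ^ 9 / 2) ((N : ℝ) ^ 8 / (2 * Δ)) hc0 hg0 hζ
    (by
      intro u v
      simp only [SimpleGraph.adj_comm])
    (by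
      intro u v
      split_ifs
      · exact hth.1
      · exact le_rfl)
    (by
      intro u v
      split_ifs
      · exact hth.2
      · exact hζ0)
    (by
      intro u v huv
      simp only [SimpleGraph.comap_adj, SimpleGraph.inf_adj] at huv
      simp only [SimpleGraph.sdiff_adj]
      rw [if_neg]
      intro h1
      exact h1.2 huv.2)
    (by
      intro v
      simp)
    (fun a => (LSPs2_ev0 N t F M a.1).1)
    (by
      intro a
      have e1 := LSPs2_row h t ht U a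
      rw [e1]
      have h1 := psq2 G R Δ N T w0 W F F0 h t ht U M hU a.1
      have h2 := pqa1 G R Δ N T w0 W F F0 h t ht U M hU a
      have h2b := LSPs2_ev0 N t F M a.1
      have e2 : 1 / ((N : ℝ) ^ 2 * Δ) * (Δ / (N : ℝ) ^ 9 / 2) / 2 = 1 / (4 * (N : ℝ) ^ 11) := by
        field_simp
        norm_num
      rw [e2]
      have h45 : 1 / (N : ℝ) ^ 45 ≤ 1 / (N : ℝ) ^ 12 :=
        one_div_le_one_div_of_le (by positivity) (pow_le_pow_right₀ hN10 (by norm_num))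
      have h3 : 6 / (N : ℝ) ^ 12 ≤ 1 / (4 * (N : ℝ) ^ 11) := by
        rw [div_le_div_iff₀ (by positivity) (by positivity)]
        have h4 : (0 : ℝ) < (N : ℝ) ^ 11 := by positivity
        have h5 : (24 : ℝ) * (N : ℝ) ^ 11 ≤ N * (N : ℝ) ^ 11 :=
          mul_le_mul_of_nonneg_right (by linarith) h4.le
        linarith [show (N : ℝ) * (N : ℝ) ^ 11 = 1 * (N : ℝ) ^ 12 by ring]
      have h6 : 2 / (N : ℝ) ^ 12 + 3 / (N : ℝ) ^ 12 + 1 / (N : ℝ) ^ 12 = 6 / (N : ℝ) ^ 12 := by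
        ring
      have h1' := abs_le.1 h1
      have h2' := abs_le.1 h2
      rw [abs_le]
      constructor
      · linarith [h1'.1, h2'.1, h2b.1, h2b.2]
      · linarith [h1'.2, h2'.2, h2b.1, h2b.2])
    (pqa2 G R Δ N T w0 W F F0 h t ht U M hU)
    (by
      intro S h1
      have h2 : 2 * (Δ / (N : ℝ) ^ 8) * 1 < 2 * (Δ / (N : ℝ) ^ 8) *
          ((N : ℝ) ^ 8 / (2 * Δ) * S.card) := mul_lt_mul_of_pos_left h1 (by positivity)
      have e3 : 2 * (Δ / (N : ℝ) ^ 8) * ((N : ℝ) ^ 8 / (2 * Δ) * S.card) = (S.card : ℝ) := by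
        field_simp
      rw [e3, mul_one] at h2
      have h0 : 0 ≤ ∑ a ∈ S, ev N t F M a.1 :=
        Finset.sum_nonneg fun a _ => (LSPs2_ev0 N t F M a.1).1
      by_cases hS : S.card ≤ N ^ 60 * Δ
      · have h3 := pqb G R Δ N T w0 W F F0 h t ht U M hU S hS h2
        have h4 : 2 ≤ 1 / ((N : ℝ) ^ 2 * Δ) *
            ee ((U ⊓ R).comap (Subtype.val : {v // v ∉ W t} → V)) S (univ \ S) +
            2 * ∑ a ∈ S, ev N t F M a.1 := by linarith
        refine le_of_le_of_eq h4 ?_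
        congr
        exact Subsingleton.elim _ _
      · have h3 := pqc G R Δ N T w0 W F F0 h t ht U M hU S (not_le.1 hS)
        refine le_of_le_of_eq h3 ?_
        congr
        exact Subsingleton.elim _ _)

theorem ps2 {V : Type} [Fintype V] (G R : SimpleGraph V) (Δ N T w0 : ℕ) (W F : ℕ → Finset V)
    (F0 : Finset V) (h : Pd G R Δ N T w0 W F F0) (t : ℕ) (ht : t < T) (U : SimpleGraph V)
    (M : Finset V) (hU : Sm G R Δ N T t W F F0 U M) :
    ∃ z : V → V → ℝ, Zw R Δ N t W F U M z ∧ ∀ f : V → V → ℝ, ∃ π : V → V, Mt t W F U M π ∧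
      ∑ v ∈ univ \ W t, f v (π v) ≤
        ∑ v ∈ univ \ W t, (∑ u, z v u * f v u + ev N t F M v * f v v) := by
  obtain ⟨y, hy1, hy2, hy3, hy4⟩ := LSPs2_st G R Δ N T w0 W F F0 h t ht U M hU
  obtain ⟨z, hz1, hz2⟩ : ∃ z : V → V → ℝ,
      (∀ v u (hv : v ∉ W t) (hu : u ∉ W t), z v u = y ⟨v, hv⟩ ⟨u, hu⟩) ∧
      (∀ v u, (v ∈ W t ∨ u ∈ W t) → z v u = 0) := by
    refine ⟨fun v u => if hv : v ∉ W t ∧ u ∉ W t then y ⟨v, hv.1⟩ ⟨u, hv.2⟩ else 0, ?_, ?_⟩
    · intro v u hv hu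
      exact dif_pos ⟨hv, hu⟩
    · intro v u hvu
      refine dif_neg ?_
      rintro ⟨h1, h2⟩
      rcases hvu with h3 | h3
      · exact h1 h3
      · exact h2 h3
  have hy0 : ∀ a b : {v // v ∉ W t}, ¬ U.Adj a.1 b.1 → y a b = 0 := by
    intro a b hab
    have h1 : ¬ ((U ⊓ R).comap (Subtype.val : {v // v ∉ W t} → V)).Adj a b := by
      simp only [SimpleGraph.comap_adj, SimpleGraph.inf_adj]
      exact fun h2 => hab h2.1
    rw [hy2 a b h1, if_neg]
    rw [SimpleGraph.sdiff_adj]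
    exact fun h2 => hab h2.1
  -- sums over `V`
  have hsum : ∀ (g : V → ℝ) (a : {v // v ∉ W t}),
      ∑ u, z a.1 u * g u = ∑ b : {v // v ∉ W t}, y a b * g b.1 := by
    intro g a
    have h1 : ∑ u ∈ univ \ W t, z a.1 u * g u + ∑ u ∈ W t, z a.1 u * g u =
        ∑ u, z a.1 u * g u := Finset.sum_sdiff (Finset.subset_univ (W t))
    have h2 : ∑ u ∈ W t, z a.1 u * g u = 0 := by
      refine Finset.sum_eq_zero fun u hu => ?_
      rw [hz2 a.1 u (Or.inr hu), zero_mul]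
    rw [← h1, h2, add_zero,
      Finset.sum_subtype (univ \ W t) (p := fun v => v ∉ W t) (by intro x; simp)]
    refine Finset.sum_congr rfl fun b _ => ?_
    rw [hz1 a.1 b.1 a.2 b.2]
  refine ⟨z, ⟨?_, ?_, ?_, ?_⟩, ?_⟩
  · intro v u hv hu hvu
    rw [hz1 v u hv hu, hy2, if_pos hvu]
    rw [SimpleGraph.sdiff_adj] at hvu
    simp only [SimpleGraph.comap_adj, SimpleGraph.inf_adj]
    exact fun h2 => hvu.2 h2.2
  · intro v u hv hu hvu
    rw [hz1 v u hv hu]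
    refine hy1 ⟨v, hv⟩ ⟨u, hu⟩ ?_
    simp only [SimpleGraph.comap_adj]
    exact hvu
  · intro v u hvu
    by_cases hv : v ∈ W t
    · exact hz2 v u (Or.inl hv)
    · by_cases hu : u ∈ W t
      · exact hz2 v u (Or.inr hu)
      · rw [hz1 v u hv hu]
        refine hy0 _ _ ?_
        rcases hvu with h3 | h3 | h3
        · exact absurd h3 hv
        · exact absurd h3 hu
        · exact h3
  · intro v hv
    have h1 := hsum (fun _ => 1) ⟨v, hv⟩
    simp only [mul_one] at h1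
    rw [h1]
    exact hy3 ⟨v, hv⟩
  · intro f
    obtain ⟨π, hπ1, hπ2, hπ3, hπ4⟩ := hy4 (fun a b => f a.1 b.1)
    obtain ⟨P, hP1, hP2⟩ : ∃ P : V → V, (∀ v (hv : v ∉ W t), P v = (π ⟨v, hv⟩).1) ∧
        (∀ v, v ∈ W t → P v = v) := by
      refine ⟨fun v => if hv : v ∉ W t then (π ⟨v, hv⟩).1 else v, ?_, ?_⟩
      · intro v hv
        exact dif_pos hv
      · intro v hv
        exact dif_neg (not_not.2 hv)
    refine ⟨P, ⟨?_, hP2, ?_, ?_⟩, ?_⟩
    · intro v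
      by_cases hv : v ∈ W t
      · rw [hP2 v hv, hP2 v hv]
      · have h1 : (π ⟨v, hv⟩).1 ∉ W t := (π ⟨v, hv⟩).2
        rw [hP1 v hv, hP1 _ h1]
        have h2 : (⟨(π ⟨v, hv⟩).1, h1⟩ : {v // v ∉ W t}) = π ⟨v, hv⟩ := rfl
        rw [h2, hπ1]
    · intro v hv
      by_cases hvW : v ∈ W t
      · exact absurd (hP2 v hvW) hv
      · rw [hP1 v hvW] at hv ⊢
        by_contra h1
        have h2 := hπ2 ⟨v, hvW⟩ (fun h3 => hv (congrArg Subtype.val h3))
        rw [hy0 _ _ h1] at h2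
        exact lt_irrefl _ h2
    · intro v hv hPv
      rw [hP1 v hv] at hPv
      have h1 := hπ3 ⟨v, hv⟩ (Subtype.ext hPv)
      by_contra h2
      unfold ev at h1
      rw [if_neg h2] at h1
      exact lt_irrefl _ h1
    · rw [Finset.sum_subtype (univ \ W t) (p := fun v => v ∉ W t) (by intro x; simp),
        Finset.sum_subtype (univ \ W t) (p := fun v => v ∉ W t) (by intro x; simp)]
      refine le_trans (le_of_eq ?_) (le_trans hπ4 (le_of_eq ?_))
      · apply Finset.sum_congr rfl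
        intro a _
        rw [hP1 a.1 a.2]
      · apply Finset.sum_congr rfl
        intro a _
        rw [hsum (fun u => f a.1 u) a]

end Pool.Agent.H12.LS
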