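import Mathlib
import Pool.Agent.H12.LS.Defs
import Pool.Agent.H12.LS.Pb2
import Pool.Agent.H12.LS.Ps2
import Pool.Agent.H71.EX.Pt

/-!
PT1: the change of the first potential in one step. Compare `EX/Pt.lean` (proved; copy and adapt).

Proof.  `l = 1 / N ^ 11`, `s = 1 / N ^ 10`, `θ = th Δ N t`, `δ = dl t`, `a = aa t`, `a' = aa (t + 1)`, `Q = Qv`.
For `v ∈ W t` or `R.Adj v (π v)` or `π v = v` the new deviation is `δ v + s - 1`, otherwise `δ v + s` (`Pt_dg0`, `Pt_dg1`; if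
`π v = v` then `¬ U.Adj v (π v)`). So with `C0 = cosh (l (δ + s))`, `C1 = cosh (l (δ + s - 1))`, `ξ v` the indicator in the claim,
the new potential is `∑ v ∉ W t, ((1 - Q v) C0 v + Q v C1 v) exp (- l a' v) + ∑ v ∉ W t, kk v (ξ v - Q v) + ∑ v ∈ W t, C1 v exp (- l a' v)`,
and `Pt_one`, `Pt_two` bound the first and the third sum by `exp (2 / N ^ 32)` times the old terms, exactly as in `EX/Pt.lean`
(`psq2` for `0 ≤ Q ≤ 2 s`).
-/

set_option autoImplicit false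

namespace Pool.Agent.H12.LS

open Finset Classical
open Pool.Agent.H71.DN Pool.Agent.H71.EX

/-- The cost of a reserve edge or a miss at `v` for the first potential. -/
noncomputable def kk {V : Type} [Fintype V] (G R : SimpleGraph V) (Δ N t : ℕ) (W : ℕ → Finset V)
    (U : SimpleGraph V) (v : V) : ℝ :=
  (Real.cosh (1 / (N : ℝ) ^ 11 * (dl R Δ N t U v + 1 / (N : ℝ) ^ 10 - 1)) -
    Real.cosh (1 / (N : ℝ) ^ 11 * (dl R Δ N t U v + 1 / (N : ℝ) ^ 10))) *
    Real.exp (-(1 / (N : ℝ) ^ 11 * aa G W Δ N (t + 1) v))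

theorem pt1 {V : Type} [Fintype V] (G R : SimpleGraph V) (Δ N T w0 : ℕ) (W F : ℕ → Finset V)
    (F0 : Finset V) (h : Pd G R Δ N T w0 W F F0) (t : ℕ) (ht : t < T) (U : SimpleGraph V)
    (M : Finset V) (hU : Sm G R Δ N T t W F F0 U M) (π : V → V) (hπ : Mt t W F U M π)
    (U' : SimpleGraph V) (hU' : ∀ a b, U'.Adj a b ↔ U.Adj a b ∧ π a ≠ b) :
    P1 G R Δ N (t + 1) W U' ≤ Real.exp (2 / (N : ℝ) ^ 32) * P1 G R Δ N t W U +
      ∑ v ∈ univ \ W t, kk G R Δ N t W U v *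
        ((if π v = v ∨ R.Adj v (π v) then 1 else 0) - Qv R Δ N t W U v) := by
  obtain ⟨l, hl⟩ : ∃ l : ℝ, l = 1 / (N : ℝ) ^ 11 := ⟨_, rfl⟩
  obtain ⟨s, hs⟩ : ∃ s : ℝ, s = 1 / (N : ℝ) ^ 10 := ⟨_, rfl⟩
  have hN : (1000 : ℝ) ≤ (N : ℝ) := by exact_mod_cast h.xp.hN
  have hN0 : (0 : ℝ) < N := by linarith
  have hN1 : (1 : ℝ) ≤ N := by linarith
  have hl0 : 0 ≤ l := by rw [hl]; positivity
  have hl1 : l ≤ 1 := by
    rw [hl, div_le_one (by positivity)]
    exact one_le_pow₀ hN1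
  have hs0 : 0 ≤ s := by rw [hs]; positivity
  have hs1 : s ≤ 1 / 2 := by
    rw [hs]
    apply one_div_le_one_div_of_le (by norm_num)
    calc (2 : ℝ) ≤ N := by linarith
      _ = (N : ℝ) ^ 1 := (pow_one _).symm
      _ ≤ (N : ℝ) ^ 10 := pow_le_pow_right₀ hN1 (by norm_num)
  have hΔ : ((N : ℝ)) ^ 250 ≤ Δ := by exact_mod_cast h.xp.hΔ
  have hDb : 2 * (Δ / (N : ℝ) ^ 8) ≤ Db Δ N t := dbl2 G R Δ N T w0 W F F0 h t ht.le
  have hDb1 : 1 ≤ Db Δ N t := by
    refine le_trans ?_ hDb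
    have h1 : (1 : ℝ) ≤ Δ / (N : ℝ) ^ 8 := by
      rw [le_div_iff₀ (by positivity), one_mul]
      exact le_trans (pow_le_pow_right₀ hN1 (by norm_num)) hΔ
    linarith
  obtain ⟨θ, hθ⟩ : ∃ θ : ℝ, θ = (1 - s) / Db Δ N t := ⟨_, rfl⟩
  have hθ0 : 0 ≤ θ := by
    rw [hθ]
    exact div_nonneg (by linarith) (by linarith)
  have hθ2 : θ ≤ 1 / Db Δ N t := by
    rw [hθ]
    exact div_le_div_of_nonneg_right (by linarith) (by linarith)
  have hθ1 : θ ≤ 1 := by
    refine hθ2.trans ?_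
    rw [div_le_one (by linarith)]
    exact hDb1
  -- the data at each vertex
  obtain ⟨a, ha⟩ : ∃ a : V → ℝ, a = fun v => aa G W Δ N t v := ⟨_, rfl⟩
  obtain ⟨a', ha'⟩ : ∃ a' : V → ℝ, a' = fun v => aa G W Δ N (t + 1) v := ⟨_, rfl⟩
  obtain ⟨δ, hδ⟩ : ∃ δ : V → ℝ, δ = fun v => dl R Δ N t U v := ⟨_, rfl⟩
  obtain ⟨Q, hQ⟩ : ∃ Q : V → ℝ, Q = fun v => Qv R Δ N t W U v := ⟨_, rfl⟩
  obtain ⟨w, hw⟩ : ∃ w : V → ℝ, w = fun v => (dn (U \ R) v (W t) : ℝ) := ⟨_, rfl⟩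
  have haa : ∀ v, a' v = a v + ((if v ∈ W t then (1 : ℝ) else 0) +
      (dn G v (W t) : ℝ) / Db Δ N t) := by
    intro v
    rw [ha', ha]
    simp only [aa]
    rw [Finset.sum_range_succ]
  have hw0 : ∀ v, 0 ≤ w v := by
    intro v; rw [hw]; exact Nat.cast_nonneg _
  have hwG : ∀ v, θ * w v ≤ (dn G v (W t) : ℝ) / Db Δ N t := by
    intro v
    have h1 : (w v : ℝ) ≤ dn G v (W t) := by
      have h2 : dn (U \ R) v (W t) ≤ dn G v (W t) :=
        Pt_dn G (U \ R) (sdiff_le.trans hU.le) v (W t)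
      rw [hw]
      exact Nat.cast_le.mpr h2
    calc θ * w v ≤ 1 / Db Δ N t * w v := mul_le_mul_of_nonneg_right hθ2 (hw0 v)
      _ ≤ 1 / Db Δ N t * dn G v (W t) :=
        mul_le_mul_of_nonneg_left h1 (by apply div_nonneg <;> linarith)
      _ = _ := by ring
  have hdG : ∀ v, 0 ≤ (dn G v (W t) : ℝ) / Db Δ N t := fun v =>
    div_nonneg (Nat.cast_nonneg _) (by linarith)
  have hQs : ∀ v, |Q v - s| ≤ 2 / (N : ℝ) ^ 12 := by
    intro v
    rw [hQ, hs]
    exact psq2 G R Δ N T w0 W F F0 h t ht U M hU v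
  have h12 : 2 / (N : ℝ) ^ 12 ≤ s := by
    rw [hs, div_le_div_iff₀ (by positivity) (by positivity)]
    have h1 : (N : ℝ) ^ 12 = N ^ 2 * N ^ 10 := by ring
    rw [h1]
    have h2 : (2 : ℝ) ≤ N ^ 2 := by
      calc (2 : ℝ) ≤ N := by linarith
        _ = (N : ℝ) ^ 1 := (pow_one _).symm
        _ ≤ (N : ℝ) ^ 2 := pow_le_pow_right₀ hN1 (by norm_num)
    have h3 := mul_le_mul_of_nonneg_right h2 (by positivity : (0 : ℝ) ≤ (N : ℝ) ^ 10)
    linarith
  have hQ0 : ∀ v, 0 ≤ Q v := fun v => by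
    have := (abs_le.mp (hQs v)).1; linarith
  have hQ2 : ∀ v, Q v ≤ 2 * s := fun v => by
    have := (abs_le.mp (hQs v)).2; linarith
  have hQτ : ∀ v, s = Q v - θ * (δ v + w v) := by
    intro v
    rw [hQ, hδ, hw, hθ, hs]
    simp only [Qv]
    ring
  have hlQ : ∀ v, l ^ 2 * Q v ≤ 2 / (N : ℝ) ^ 32 := by
    intro v
    calc l ^ 2 * Q v ≤ l ^ 2 * (2 * s) := mul_le_mul_of_nonneg_left (hQ2 v) (sq_nonneg l)
      _ = 2 / (N : ℝ) ^ 32 := by
        rw [hl, hs]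
        field_simp
  have hDbs : Db Δ N (t + 1) = Db Δ N t - (1 - s) := by
    rw [hs]
    simp only [Db]
    push_cast
    ring
  have hUR : ∀ v b, (U' \ R).Adj v b ↔ (U \ R).Adj v b ∧ π v ≠ b := by
    intro v b
    rw [SimpleGraph.sdiff_adj, SimpleGraph.sdiff_adj, hU' v b]
    tauto
  have hfx : ∀ v, π v = v → ¬ U.Adj v (π v) := by
    intro v hv
    rw [hv]
    exact U.loopless.irrefl v
  -- the new deviations
  have hnew1 : ∀ v, (v ∈ W t ∨ π v = v ∨ R.Adj v (π v)) →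
      dl R Δ N (t + 1) U' v = δ v + s - 1 := by
    intro v hv
    have h1 := Pt_dg0 (U \ R) (U' \ R) v (π v) (fun b => hUR v b) (by
      rw [SimpleGraph.sdiff_adj]
      rintro ⟨k1, k2⟩
      rcases hv with hv | hv | hv
      · exact hfx v (hπ.fix v hv) k1
      · exact hfx v hv k1
      · exact k2 hv)
    rw [hδ]
    simp only [dl]
    rw [hDbs, h1]
    ring
  have hnew0 : ∀ v, ¬ (π v = v ∨ R.Adj v (π v)) →
      dl R Δ N (t + 1) U' v = δ v + s := by
    intro v hr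
    push Not at hr
    have h1 := Pt_dg1 (U \ R) (U' \ R) v (π v) (fun b => hUR v b) (by
      rw [SimpleGraph.sdiff_adj]
      exact ⟨hπ.adj v hr.1, hr.2⟩)
    have h2 : (dg (U \ R) v : ℝ) = dg (U' \ R) v + 1 := by
      rw [← h1]; push_cast; ring
    rw [hδ]
    simp only [dl]
    rw [hDbs, h2]
    ring
  have hA : ∑ v ∈ univ \ W t, Real.cosh (l * dl R Δ N (t + 1) U' v) * Real.exp (-(l * a' v)) ≤
      Real.exp (2 / (N : ℝ) ^ 32) *
        ∑ v ∈ univ \ W t, Real.cosh (l * δ v) * Real.exp (-(l * a v)) +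
      ∑ v ∈ univ \ W t, kk G R Δ N t W U v *
        ((if π v = v ∨ R.Adj v (π v) then 1 else 0) - Qv R Δ N t W U v) := by
    rw [mul_sum, ← sum_add_distrib]
    apply sum_le_sum
    intro v hv
    rw [mem_sdiff] at hv
    have h1 := Pt_one l s (δ v) (Q v) θ (w v) (a v) (a' v) (2 / (N : ℝ) ^ 32) hl0 hl1 (hQ0 v)
      (by linarith [hQ2 v]) hθ0 hθ1 (hw0 v) (hQτ v) (by
        rw [haa v, if_neg hv.2]
        linarith [hwG v]) (hlQ v)
    have hk : kk G R Δ N t W U v = (Real.cosh (l * (δ v + s - 1)) - Real.cosh (l * (δ v + s))) *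
        Real.exp (-(l * a' v)) := by
      rw [hl, hs, hδ, ha']
      rfl
    have hq : Qv R Δ N t W U v = Q v := by rw [hQ]
    rw [hk, hq]
    by_cases hr : π v = v ∨ R.Adj v (π v)
    · rw [if_pos hr, hnew1 v (Or.inr hr)]
      have e5 : Real.cosh (l * (δ v + s - 1)) * Real.exp (-(l * a' v)) -
          (Real.cosh (l * (δ v + s - 1)) - Real.cosh (l * (δ v + s))) *
            Real.exp (-(l * a' v)) * (1 - Q v) =
          ((1 - Q v) * Real.cosh (l * (δ v + s)) + Q v * Real.cosh (l * (δ v + s - 1))) *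
            Real.exp (-(l * a' v)) := by ring
      linarith
    · rw [if_neg hr, hnew0 v hr]
      have e5 : Real.cosh (l * (δ v + s)) * Real.exp (-(l * a' v)) -
          (Real.cosh (l * (δ v + s - 1)) - Real.cosh (l * (δ v + s))) *
            Real.exp (-(l * a' v)) * (0 - Q v) =
          ((1 - Q v) * Real.cosh (l * (δ v + s)) + Q v * Real.cosh (l * (δ v + s - 1))) *
            Real.exp (-(l * a' v)) := by ring
      linarith
  have hB : ∑ v ∈ W t, Real.cosh (l * dl R Δ N (t + 1) U' v) * Real.exp (-(l * a' v)) ≤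
      Real.exp (2 / (N : ℝ) ^ 32) *
        ∑ v ∈ W t, Real.cosh (l * δ v) * Real.exp (-(l * a v)) := by
    rw [mul_sum]
    apply sum_le_sum
    intro v hv
    rw [hnew1 v (Or.inl hv)]
    apply Pt_two l s (δ v) (a v) (a' v) _ hl0 hs0 (by linarith)
    · rw [haa v, if_pos hv]
      linarith [hdG v]
    · positivity
  have e1 : P1 G R Δ N (t + 1) W U' =
      ∑ v, Real.cosh (l * dl R Δ N (t + 1) U' v) * Real.exp (-(l * a' v)) := by
    unfold P1
    apply sum_congr rfl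
    intro v _
    rw [ha', hl]
    simp only []
    rw [one_div_mul_eq_div, one_div_mul_eq_div]
  have e2 : P1 G R Δ N t W U = ∑ v, Real.cosh (l * δ v) * Real.exp (-(l * a v)) := by
    unfold P1
    apply sum_congr rfl
    intro v _
    rw [hδ, ha, hl]
    simp only []
    rw [one_div_mul_eq_div, one_div_mul_eq_div]
  rw [e1, e2, ← sum_sdiff (subset_univ (W t)), ← sum_sdiff (subset_univ (W t)), mul_add]
  linarith

end Pool.Agent.H12.LS
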