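import Mathlib
import Pool.Agent.H12.LS.Defs

/-!
PT2: the change of the second potential in one step.

`pt2`: for `v ∈ W t` nothing changes at `v` (`π v = v`, so `U'` and `U` agree at `v`: `U'.Adj v b ↔ U.Adj v b ∧ v ≠ b`). For
`v ∉ W t`: `usd R F U' v s ≤ usd R F U v s + [π v ∈ F s ∧ R.Adj v (π v)]` (the only new non-edge of `U'` at `v` is `v (π v)`), and
`exp (a + 1) ≤ exp a + 2 exp a` (`Real.exp_one_lt_d9`: `exp 1 < 2.72`).

`pb2a`: `1 + x ≤ exp x` with `x = 12 N ^ 2 / Δ`, `B2 (t + 1) = exp x * B2 t`.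
-/

set_option autoImplicit false

namespace Pool.Agent.H12.LS

open Finset Classical
open Pool.Agent.H71.DN Pool.Agent.H71.EX

private lemma Pt2_usd {V : Type} [Fintype V] (R : SimpleGraph V) (F : ℕ → Finset V)
    (U U' : SimpleGraph V) (π : V → V) (hU' : ∀ a b, U'.Adj a b ↔ U.Adj a b ∧ π a ≠ b)
    (v : V) (s : ℕ) :
    usd R F U' v s ≤ usd R F U v s + (if π v ∈ F s ∧ R.Adj v (π v) then 1 else 0) := by
  unfold usd
  have h1 : ((F s).filter fun u => R.Adj v u ∧ ¬ U'.Adj v u) ⊆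
      ((F s).filter fun u => R.Adj v u ∧ ¬ U.Adj v u) ∪
        (if π v ∈ F s ∧ R.Adj v (π v) then {π v} else ∅) := by
    intro u hu
    rw [mem_filter] at hu
    obtain ⟨h2, h3, h4⟩ := hu
    by_cases h5 : U.Adj v u
    · have h6 : π v = u := by
        by_contra h7
        exact h4 ((hU' v u).2 ⟨h5, h7⟩)
      apply mem_union_right
      rw [if_pos (by rw [h6]; exact ⟨h2, h3⟩), h6]
      exact mem_singleton_self u
    · exact mem_union_left _ (mem_filter.2 ⟨h2, h3, h5⟩)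
  refine (card_le_card h1).trans ((card_union_le _ _).trans ?_)
  apply Nat.add_le_add_left
  split_ifs with h
  · rw [card_singleton]
  · rw [card_empty]

private lemma Pt2_same {V : Type} [Fintype V] (R : SimpleGraph V) (F : ℕ → Finset V)
    (U U' : SimpleGraph V) (π : V → V) (hU' : ∀ a b, U'.Adj a b ↔ U.Adj a b ∧ π a ≠ b)
    (v : V) (hv : π v = v) (s : ℕ) : usd R F U' v s = usd R F U v s := by
  unfold usd
  congr 1
  apply filter_congr
  intro u _
  have h1 : U'.Adj v u ↔ U.Adj v u := by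
    rw [hU', hv]
    constructor
    · intro h
      exact h.1
    · intro h
      exact ⟨h, h.ne⟩
  rw [h1]

private lemma Pt2_exp (a b : ℕ) (P : Prop) [Decidable P]
    (h : b ≤ a + (if P then 1 else 0)) :
    Real.exp (b : ℝ) ≤ Real.exp (a : ℝ) + 2 * Real.exp (a : ℝ) * (if P then 1 else 0) := by
  have h0 := Real.exp_pos (a : ℝ)
  split_ifs with hP
  · rw [if_pos hP] at h
    have h1 : (b : ℝ) ≤ (a : ℝ) + 1 := by exact_mod_cast h
    have h2 : Real.exp (b : ℝ) ≤ Real.exp (a : ℝ) * Real.exp 1 := by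
      rw [← Real.exp_add]
      exact Real.exp_le_exp.2 h1
    have h3 := Real.exp_one_lt_d9
    nlinarith
  · rw [if_neg hP, Nat.add_zero] at h
    have h1 : (b : ℝ) ≤ (a : ℝ) := by exact_mod_cast h
    have h2 := Real.exp_le_exp.2 h1
    linarith

theorem pt2 {V : Type} [Fintype V] (R : SimpleGraph V) (T t : ℕ) (W F : ℕ → Finset V)
    (U : SimpleGraph V) (M : Finset V) (π : V → V) (hπ : Mt t W F U M π)
    (U' : SimpleGraph V) (hU' : ∀ a b, U'.Adj a b ↔ U.Adj a b ∧ π a ≠ b) :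
    P2 R T F U' ≤ P2 R T F U + ∑ v ∈ univ \ W t, ∑ s ∈ range T,
      2 * Real.exp (usd R F U v s) * (if π v ∈ F s ∧ R.Adj v (π v) then 1 else 0) := by
  unfold P2
  have h1 : ∀ f : V → ℝ, ∑ v, f v = ∑ v ∈ univ \ W t, f v + ∑ v ∈ W t, f v := by
    intro f
    rw [sum_sdiff (subset_univ (W t))]
  rw [h1 (fun v => ∑ s ∈ range T, Real.exp (usd R F U' v s)),
    h1 (fun v => ∑ s ∈ range T, Real.exp (usd R F U v s))]
  have h2 : ∑ v ∈ W t, ∑ s ∈ range T, Real.exp (usd R F U' v s) =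
      ∑ v ∈ W t, ∑ s ∈ range T, Real.exp (usd R F U v s) := by
    refine sum_congr rfl fun v hv => sum_congr rfl fun s _ => ?_
    rw [Pt2_same R F U U' π hU' v (hπ.fix v hv) s]
  have h3 : ∑ v ∈ univ \ W t, ∑ s ∈ range T, Real.exp (usd R F U' v s) ≤
      ∑ v ∈ univ \ W t, ∑ s ∈ range T, Real.exp (usd R F U v s) +
        ∑ v ∈ univ \ W t, ∑ s ∈ range T,
          2 * Real.exp (usd R F U v s) * (if π v ∈ F s ∧ R.Adj v (π v) then 1 else 0) := by
    rw [← sum_add_distrib]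
    refine sum_le_sum fun v _ => ?_
    rw [← sum_add_distrib]
    refine sum_le_sum fun s _ => ?_
    exact Pt2_exp _ _ _ (Pt2_usd R F U U' π hU' v s)
  rw [h2]
  linarith

theorem pt2a (Δ N t : ℕ) :
    (1 + 12 * (N : ℝ) ^ 2 / Δ) * B2 Δ N t ≤ B2 Δ N (t + 1) := by
  unfold B2
  have h1 : 12 * (N : ℝ) ^ 2 * ((t + 1 : ℕ) : ℝ) / Δ =
      12 * (N : ℝ) ^ 2 / Δ + 12 * (N : ℝ) ^ 2 * t / Δ := by
    push_cast
    ring
  rw [h1, Real.exp_add]
  apply mul_le_mul_of_nonneg_right _ (Real.exp_pos _).le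
  have h2 := Real.add_one_le_exp (12 * (N : ℝ) ^ 2 / Δ)
  linarith

end Pool.Agent.H12.LS
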