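import Mathlib
import Pool.Agent.H12.LS.Defs

/-!
PT3: the change of the third potential in one step.

`c = 64 / N ^ 3`, `2 c = 128 / N ^ 3`. `E3 v s = exp (c dn R v (F s ∩ M) - 2 c e0 ∑ r < t + 1, dn R v (F r ∩ F s))`.

`pt3`: let `M' = M ∪ {u ∉ W t : π u = u}`. For `t + 1 ≤ s < T`: `dn R v (F s ∩ M') ≤ dn R v (F s ∩ M) + m`,
`m = #{u ∈ F s : R.Adj v u ∧ u ∉ W t ∧ π u = u}`. These `u` are in `F t` (`Mt.mis`), so `m ≤ dn R v (F s ∩ F t) ≤ N ^ 3 / 64` (`fo`,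
`s ≠ t`), so `0 ≤ c m ≤ 1` and `exp (c m) ≤ 1 + 2 c m` (`exp x ≤ 1 + x + x ^ 2`, `Real.abs_exp_sub_one_sub_id_le`, or convexity and
`exp 1 < 3`). So the new term is at most `E3 v s * (1 + 2 c m)`. Sum over `v`, `s`, and write
`m = ∑ u ∈ univ \ W t, [u ∈ F s ∧ R.Adj v u] [π u = u]` and exchange the sums.

`pt3a`: `∑ u ∈ univ \ W t, g3 u * ev u = ∑ v, ∑ s, 2 c E3 v s * ∑ u ∉ W t, [u ∈ F s ∧ R.Adj v u] ev u`, and the inner sum is at most
`e0 * dn R v (F t ∩ F s)`. So the left side is at most `∑ v, ∑ s, E3 v s (1 + y)`, `y = 2 c e0 dn R v (F t ∩ F s) ≥ 0`,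
`1 + y ≤ exp y`, and `E3 v s * exp y` is the term `(v, s)` of `P3 R N T t F M` (`∑ r < t + 1 = ∑ r < t + (r = t)`); the term `s = t` of
`P3` is dropped.
-/

set_option autoImplicit false

namespace Pool.Agent.H12.LS

open Finset Classical
open Pool.Agent.H71.DN Pool.Agent.H71.EX

/-- The discounted terms of the third potential. -/
noncomputable def E3 {V : Type} [Fintype V] (R : SimpleGraph V) (N t : ℕ) (F : ℕ → Finset V)
    (M : Finset V) (v : V) (s : ℕ) : ℝ :=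
  Real.exp (64 / (N : ℝ) ^ 3 * dn R v (F s ∩ M) -
    128 / (N : ℝ) ^ 3 * e0 N * ∑ r ∈ range (t + 1), (dn R v (F r ∩ F s) : ℝ))

/-- The cost of a miss of `u` for the third potential. -/
noncomputable def g3 {V : Type} [Fintype V] (R : SimpleGraph V) (N T t : ℕ) (F : ℕ → Finset V)
    (M : Finset V) (u : V) : ℝ :=
  128 / (N : ℝ) ^ 3 * ∑ v, ∑ s ∈ (range T).filter fun s => t + 1 ≤ s,
    E3 R N t F M v s * (if u ∈ F s ∧ R.Adj v u then 1 else 0)

private lemma Pt3_sw {V : Type} [Fintype V] (A : Finset V) (B : Finset ℕ) (k : ℝ)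
    (E : V → ℕ → ℝ) (I : V → ℕ → V → ℝ) (f : V → ℝ) :
    ∑ u ∈ A, (k * ∑ v, ∑ s ∈ B, E v s * I v s u) * f u =
      ∑ v, ∑ s ∈ B, E v s * (k * ∑ u ∈ A, I v s u * f u) := by
  have h1 : ∀ u ∈ A, (k * ∑ v, ∑ s ∈ B, E v s * I v s u) * f u =
      ∑ v, ∑ s ∈ B, E v s * (k * (I v s u * f u)) := by
    intro u _
    rw [mul_sum, sum_mul]
    refine sum_congr rfl fun v _ => ?_
    rw [mul_sum, sum_mul]
    refine sum_congr rfl fun s _ => ?_
    ring
  rw [sum_congr rfl h1, sum_comm]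
  refine sum_congr rfl fun v _ => ?_
  rw [sum_comm]
  refine sum_congr rfl fun s _ => ?_
  rw [mul_sum, mul_sum]

private lemma Pt3_exp (x : ℝ) (h0 : 0 ≤ x) (h1 : x ≤ 1) : Real.exp x ≤ 1 + 2 * x := by
  have h2 := Real.abs_exp_sub_one_sub_id_le (x := x) (by rw [abs_of_nonneg h0]; exact h1)
  have h3 := (abs_le.1 h2).2
  nlinarith

private lemma Pt3_m {V : Type} [Fintype V] (R : SimpleGraph V) (v : V) (X W : Finset V)
    (π : V → V) :
    ∑ u ∈ univ \ W, (if u ∈ X ∧ R.Adj v u then (1 : ℝ) else 0) * (if π u = u then 1 else 0) =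
      (((X.filter fun u => R.Adj v u).filter fun u => u ∉ W ∧ π u = u).card : ℝ) := by
  have h1 : ∀ u ∈ univ \ W, (if u ∈ X ∧ R.Adj v u then (1 : ℝ) else 0) *
      (if π u = u then 1 else 0) = if (u ∈ X ∧ R.Adj v u) ∧ π u = u then 1 else 0 := by
    intro u _
    by_cases h2 : u ∈ X ∧ R.Adj v u
    · by_cases h3 : π u = u
      · rw [if_pos h2, if_pos h3, if_pos ⟨h2, h3⟩, mul_one]
      · rw [if_pos h2, if_neg h3, if_neg (fun h => h3 h.2), mul_zero]
    · rw [if_neg h2, zero_mul, if_neg (fun h => h2 h.1)]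
  rw [sum_congr rfl h1, ← sum_filter, sum_const, nsmul_eq_mul, mul_one]
  have h2 : ((univ \ W).filter fun u => (u ∈ X ∧ R.Adj v u) ∧ π u = u) =
      ((X.filter fun u => R.Adj v u).filter fun u => u ∉ W ∧ π u = u) := by
    ext u
    rw [mem_filter, mem_filter, mem_filter, mem_sdiff]
    constructor
    · rintro ⟨⟨_, h3⟩, h4, h5⟩
      exact ⟨h4, h3, h5⟩
    · rintro ⟨h4, h3, h5⟩
      exact ⟨⟨mem_univ _, h3⟩, h4, h5⟩
  rw [h2]

theorem pt3 {V : Type} [Fintype V] (G R : SimpleGraph V) (Δ N T w0 : ℕ) (W F : ℕ → Finset V)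
    (F0 : Finset V) (h : Pd G R Δ N T w0 W F F0) (t : ℕ) (ht : t < T) (U : SimpleGraph V)
    (M : Finset V) (π : V → V) (hπ : Mt t W F U M π) :
    P3 R N T (t + 1) F (M ∪ univ.filter fun u => u ∉ W t ∧ π u = u) ≤
      ∑ v, ∑ s ∈ (range T).filter fun s => t + 1 ≤ s, E3 R N t F M v s +
      ∑ u ∈ univ \ W t, g3 R N T t F M u * (if π u = u then 1 else 0) := by
  have hN : (1000 : ℝ) ≤ (N : ℝ) := by exact_mod_cast h.xp.hN
  have hN0 : (0 : ℝ) < N := by linarith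
  unfold g3
  rw [Pt3_sw (univ \ W t) ((range T).filter fun s => t + 1 ≤ s) (128 / (N : ℝ) ^ 3)
    (fun v s => E3 R N t F M v s) (fun v s u => if u ∈ F s ∧ R.Adj v u then 1 else 0)
    (fun u => if π u = u then 1 else 0), ← sum_add_distrib]
  unfold P3
  refine sum_le_sum fun v _ => ?_
  rw [← sum_add_distrib]
  refine sum_le_sum fun s hs => ?_
  obtain ⟨hs1, hs2⟩ := mem_filter.1 hs
  have hsT := mem_range.1 hs1
  rw [Pt3_m R v (F s) (W t) π]
  obtain ⟨m, hm⟩ : ∃ m : ℕ, m = (((F s).filter fun u => R.Adj v u).filter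
    fun u => u ∉ W t ∧ π u = u).card := ⟨_, rfl⟩
  rw [← hm]
  have h1 : dn R v (F s ∩ (M ∪ univ.filter fun u => u ∉ W t ∧ π u = u)) ≤
      dn R v (F s ∩ M) + m := by
    unfold dn
    rw [hm]
    refine le_trans (card_le_card ?_) (card_union_le _ _)
    intro u hu
    obtain ⟨h2, h3⟩ := mem_filter.1 hu
    obtain ⟨h4, h5⟩ := mem_inter.1 h2
    rcases mem_union.1 h5 with h6 | h6
    · exact mem_union_left _ (mem_filter.2 ⟨mem_inter.2 ⟨h4, h6⟩, h3⟩)
    · exact mem_union_right _ (mem_filter.2 ⟨mem_filter.2 ⟨h4, h3⟩, (mem_filter.1 h6).2⟩)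
  have h2 : (m : ℝ) ≤ (N : ℝ) ^ 3 / 64 := by
    have h3 : m ≤ dn R v (F s ∩ F t) := by
      rw [hm]
      unfold dn
      apply card_le_card
      intro u hu
      obtain ⟨h4, h5, h6⟩ := mem_filter.1 hu
      obtain ⟨h7, h8⟩ := mem_filter.1 h4
      exact mem_filter.2 ⟨mem_inter.2 ⟨h7, (hπ.mis u h5 h6).1⟩, h8⟩
    have h4 : (m : ℝ) ≤ (dn R v (F s ∩ F t) : ℝ) := by exact_mod_cast h3
    exact h4.trans (h.fo s hsT t ht (by omega) v)
  have h3 : (0 : ℝ) < (N : ℝ) ^ 3 := by positivity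
  have h4 : 64 / (N : ℝ) ^ 3 * m ≤ 1 := by
    rw [div_mul_eq_mul_div, div_le_one h3]
    linarith
  have h5 : 0 ≤ 64 / (N : ℝ) ^ 3 * m := by positivity
  have h6 := Pt3_exp _ h5 h4
  have h7 : (dn R v (F s ∩ (M ∪ univ.filter fun u => u ∉ W t ∧ π u = u)) : ℝ) ≤
      dn R v (F s ∩ M) + m := by exact_mod_cast h1
  have h8 : 64 / (N : ℝ) ^ 3 *
      (dn R v (F s ∩ (M ∪ univ.filter fun u => u ∉ W t ∧ π u = u)) : ℝ) -
      128 / (N : ℝ) ^ 3 * e0 N * ∑ r ∈ range (t + 1), (dn R v (F r ∩ F s) : ℝ) ≤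
      (64 / (N : ℝ) ^ 3 * dn R v (F s ∩ M) -
      128 / (N : ℝ) ^ 3 * e0 N * ∑ r ∈ range (t + 1), (dn R v (F r ∩ F s) : ℝ)) +
      64 / (N : ℝ) ^ 3 * m := by
    have h9 : 64 / (N : ℝ) ^ 3 *
      (dn R v (F s ∩ (M ∪ univ.filter fun u => u ∉ W t ∧ π u = u)) : ℝ) ≤
      64 / (N : ℝ) ^ 3 * (dn R v (F s ∩ M) + m) :=
      mul_le_mul_of_nonneg_left h7 (by positivity)
    linarith
  refine (Real.exp_le_exp.2 h8).trans ?_
  rw [Real.exp_add]
  have h9 : 0 ≤ E3 R N t F M v s := (Real.exp_pos _).le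
  have h10 : Real.exp (64 / (N : ℝ) ^ 3 * dn R v (F s ∩ M) -
      128 / (N : ℝ) ^ 3 * e0 N * ∑ r ∈ range (t + 1), (dn R v (F r ∩ F s) : ℝ)) =
      E3 R N t F M v s := rfl
  rw [h10]
  calc E3 R N t F M v s * Real.exp (64 / (N : ℝ) ^ 3 * m) ≤
      E3 R N t F M v s * (1 + 2 * (64 / (N : ℝ) ^ 3 * m)) := mul_le_mul_of_nonneg_left h6 h9
    _ = E3 R N t F M v s + E3 R N t F M v s * (128 / (N : ℝ) ^ 3 * m) := by ring

theorem pt3a {V : Type} [Fintype V] (G R : SimpleGraph V) (Δ N T w0 : ℕ) (W F : ℕ → Finset V)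
    (F0 : Finset V) (h : Pd G R Δ N T w0 W F F0) (t : ℕ) (ht : t < T) (M : Finset V) :
    ∑ v, ∑ s ∈ (range T).filter fun s => t + 1 ≤ s, E3 R N t F M v s +
      ∑ u ∈ univ \ W t, g3 R N T t F M u * ev N t F M u ≤ P3 R N T t F M := by
  have hN : (1000 : ℝ) ≤ (N : ℝ) := by exact_mod_cast h.xp.hN
  have hN0 : (0 : ℝ) < N := by linarith
  have he : 0 ≤ e0 N := by unfold e0; positivity
  unfold g3
  rw [Pt3_sw (univ \ W t) ((range T).filter fun s => t + 1 ≤ s) (128 / (N : ℝ) ^ 3)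
    (fun v s => E3 R N t F M v s) (fun v s u => if u ∈ F s ∧ R.Adj v u then 1 else 0)
    (fun u => ev N t F M u), ← sum_add_distrib]
  unfold P3
  refine sum_le_sum fun v _ => ?_
  rw [← sum_add_distrib]
  have hsub : ((range T).filter fun s => t + 1 ≤ s) ⊆ ((range T).filter fun s => t ≤ s) := by
    intro s hs
    obtain ⟨h1, h2⟩ := mem_filter.1 hs
    exact mem_filter.2 ⟨h1, by omega⟩
  refine le_trans (sum_le_sum fun s hs => ?_)
    (sum_le_sum_of_subset_of_nonneg hsub fun s _ _ => (Real.exp_pos _).le)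
  have h1 : ∑ u ∈ univ \ W t, (if u ∈ F s ∧ R.Adj v u then (1 : ℝ) else 0) * ev N t F M u ≤
      e0 N * dn R v (F t ∩ F s) := by
    have h2 : (e0 N * dn R v (F t ∩ F s) : ℝ) =
        ∑ u, if u ∈ F t ∩ F s ∧ R.Adj v u then e0 N else 0 := by
      unfold dn
      rw [card_eq_sum_ones, Nat.cast_sum, Nat.cast_one, mul_sum, mul_one, ← sum_filter]
      apply sum_congr _ fun _ _ => rfl
      ext u
      simp
    rw [h2]
    refine le_trans (sum_le_sum fun u _ => ?_)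
      (sum_le_sum_of_subset_of_nonneg (subset_univ (univ \ W t)) fun u _ _ => ?_)
    · unfold ev
      by_cases h3 : u ∈ F s ∧ R.Adj v u
      · rw [if_pos h3, one_mul]
        by_cases h4 : u ∈ F t ∧ u ∉ M
        · rw [if_pos h4, if_pos ⟨mem_inter.2 ⟨h4.1, h3.1⟩, h3.2⟩]
        · rw [if_neg h4]
          split_ifs
          · exact he
          · exact le_rfl
      · rw [if_neg h3, zero_mul]
        split_ifs
        · exact he
        · exact le_rfl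
    · split_ifs
      · exact he
      · exact le_rfl
  obtain ⟨y, hy⟩ : ∃ y : ℝ, y = 128 / (N : ℝ) ^ 3 * (e0 N * dn R v (F t ∩ F s)) := ⟨_, rfl⟩
  have h3 : 128 / (N : ℝ) ^ 3 *
      ∑ u ∈ univ \ W t, (if u ∈ F s ∧ R.Adj v u then (1 : ℝ) else 0) * ev N t F M u ≤ y := by
    rw [hy]
    exact mul_le_mul_of_nonneg_left h1 (by positivity)
  have h4 : 0 ≤ E3 R N t F M v s := (Real.exp_pos _).le
  have h5 := Real.add_one_le_exp y
  calc E3 R N t F M v s + E3 R N t F M v s * (128 / (N : ℝ) ^ 3 *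
        ∑ u ∈ univ \ W t, (if u ∈ F s ∧ R.Adj v u then (1 : ℝ) else 0) * ev N t F M u) ≤
      E3 R N t F M v s + E3 R N t F M v s * y := by
        have := mul_le_mul_of_nonneg_left h3 h4
        linarith
    _ = E3 R N t F M v s * (y + 1) := by ring
    _ ≤ E3 R N t F M v s * Real.exp y := mul_le_mul_of_nonneg_left h5 h4
    _ = _ := by
      unfold E3
      rw [← Real.exp_add, hy, sum_range_succ]
      congr 1
      ring

end Pool.Agent.H12.LS
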