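import Mathlib
import Pool.Agent.H12.LS.Defs
import Pool.Agent.H12.LS.Pb2
import Pool.Agent.H71.EX.Ps

/-!
ZQ: averages with respect to the weights `z` of a step.

`zq`: `z v v = 0` (`¬ U.Adj v v`). By `Zw.sum` the left side is `1 - ∑ u, z v u * [¬ R.Adj v u]`, and
`∑ u, z v u [¬ R.Adj v u] = ∑ u ∉ W t, (U \ R).Adj v u, th = th (dg (U \ R) v - dn (U \ R) v (W t))`
`= th (Db - dl v - w v) = 1 - Qv v` (`th * Db = 1 - 1 / N ^ 10`, `Db > 0` by `dbl2`; compare `EXPs_row` in `EX/Ps.lean`).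

`zr`: all terms are nonnegative; if `z v u ≠ 0` and `R.Adj v u` then `(U ⊓ R).Adj v u` and `z v u ≤ 3/2 / (N ^ 2 Δ)`, and the number of
the `u ∈ F s` with `R.Adj v u` is at most `4 N ^ 4` (`fu`). `3/2 * 4 = 6`.
-/

set_option autoImplicit false

namespace Pool.Agent.H12.LS

open Finset Classical
open Pool.Agent.H71.DN Pool.Agent.H71.EX

private theorem Zq_th {V : Type} [Fintype V] (R U : SimpleGraph V) (Δ N t : ℕ) (W : ℕ → Finset V)
    (hdb0 : Db Δ N t ≠ 0) (v : V) :
    ∑ b, (if b ∉ W t ∧ (U \ R).Adj v b then th Δ N t else 0) = 1 - Qv R Δ N t W U v := by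
  have h1 : ∑ b, (if b ∉ W t ∧ (U \ R).Adj v b then th Δ N t else 0) =
      ∑ b ∈ univ \ W t, (if (U \ R).Adj v b then th Δ N t else 0) := by
    rw [← Finset.sum_subset (Finset.subset_univ (univ \ W t))]
    · apply Finset.sum_congr rfl
      intro b hb
      have hb' : b ∉ W t := (Finset.mem_sdiff.1 hb).2
      by_cases h2 : (U \ R).Adj v b
      · rw [if_pos h2, if_pos ⟨hb', h2⟩]
      · rw [if_neg h2, if_neg (fun h3 => h2 h3.2)]
    · intro b _ hb
      rw [if_neg]
      intro h3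
      exact hb (Finset.mem_sdiff.2 ⟨Finset.mem_univ b, h3.1⟩)
  have h3 : ∑ b ∈ univ \ W t, (if (U \ R).Adj v b then th Δ N t else 0) +
      ∑ b ∈ W t, (if (U \ R).Adj v b then th Δ N t else 0) =
      ∑ b, (if (U \ R).Adj v b then th Δ N t else 0) :=
    Finset.sum_sdiff (Finset.subset_univ (W t))
  have h4 : ∑ b ∈ W t, (if (U \ R).Adj v b then th Δ N t else 0) =
      (dn (U \ R) v (W t) : ℝ) * th Δ N t := by
    rw [← Finset.sum_filter, Finset.sum_const, nsmul_eq_mul]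
    have e : ((W t).filter fun b => (U \ R).Adj v b).card = dn (U \ R) v (W t) := by
      unfold dn
      exact congrArg Finset.card (by ext x; simp only [Finset.mem_filter])
    rw [e]
  have h5 : ∑ b, (if (U \ R).Adj v b then th Δ N t else 0) =
      (dg (U \ R) v : ℝ) * th Δ N t := by
    rw [← Finset.sum_filter, Finset.sum_const, nsmul_eq_mul]
    have e : (univ.filter fun b => (U \ R).Adj v b).card = dg (U \ R) v := by
      unfold dg
      exact congrArg Finset.card (by ext x; simp only [Finset.mem_filter])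
    rw [e]
  rw [h4, h5] at h3
  rw [h1]
  unfold Qv dl
  unfold th at h3 ⊢
  have h6 : (1 - 1 / (N : ℝ) ^ 10) / Db Δ N t * Db Δ N t = 1 - 1 / (N : ℝ) ^ 10 :=
    div_mul_cancel₀ _ hdb0
  linear_combination h3 + h6

theorem zq {V : Type} [Fintype V] (G R : SimpleGraph V) (Δ N T w0 : ℕ) (W F : ℕ → Finset V)
    (F0 : Finset V) (h : Pd G R Δ N T w0 W F F0) (t : ℕ) (ht : t < T) (U : SimpleGraph V)
    (M : Finset V) (z : V → V → ℝ) (hz : Zw R Δ N t W F U M z) (v : V) (hv : v ∉ W t) :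
    ∑ u, z v u * (if u = v ∨ R.Adj v u then 1 else 0) + ev N t F M v = Qv R Δ N t W U v := by
  have hN : (1000 : ℝ) ≤ N := by exact_mod_cast h.xp.hN
  have hN0 : (0 : ℝ) < N := by linarith
  have hΔ : (0 : ℝ) < Δ := by
    have h1 : 0 < N ^ 250 := pow_pos (by have := h.xp.hN; omega) 250
    exact_mod_cast h1.trans_le h.xp.hΔ
  have hdb := dbl2 G R Δ N T w0 W F F0 h t ht.le
  have hpos : (0 : ℝ) < 2 * (Δ / (N : ℝ) ^ 8) := by positivity
  have hdb0 : Db Δ N t ≠ 0 := by linarith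
  have h1 := hz.sum v hv
  have h2 := Zq_th R U Δ N t W hdb0 v
  have h3 : ∑ u, z v u - ∑ u, z v u * (if u = v ∨ R.Adj v u then 1 else 0) =
      ∑ b, (if b ∉ W t ∧ (U \ R).Adj v b then th Δ N t else 0) := by
    rw [← Finset.sum_sub_distrib]
    apply Finset.sum_congr rfl
    intro u _
    by_cases h4 : u ∉ W t ∧ (U \ R).Adj v u
    · rw [if_pos h4, hz.main v u hv h4.1 h4.2, if_neg]
      · ring
      · rintro (h5 | h5)
        · rw [h5] at h4
          exact (U \ R).irrefl h4.2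
        · exact (SimpleGraph.sdiff_adj _ _ _ _ |>.1 h4.2).2 h5
    · rw [if_neg h4]
      by_cases h5 : u = v ∨ R.Adj v u
      · rw [if_pos h5]
        ring
      · rw [if_neg h5]
        have h6 : z v u = 0 := by
          apply hz.zer v u
          by_cases h7 : u ∈ W t
          · exact Or.inr (Or.inl h7)
          · refine Or.inr (Or.inr fun h8 => h4 ⟨h7, ?_⟩)
            rw [SimpleGraph.sdiff_adj]
            exact ⟨h8, fun h9 => h5 (Or.inr h9)⟩
        rw [h6]
        ring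
  linarith

theorem zr {V : Type} [Fintype V] (G R : SimpleGraph V) (Δ N T w0 : ℕ) (W F : ℕ → Finset V)
    (F0 : Finset V) (h : Pd G R Δ N T w0 W F F0) (t : ℕ) (ht : t < T) (U : SimpleGraph V)
    (M : Finset V) (z : V → V → ℝ) (hz : Zw R Δ N t W F U M z) (v : V) (hv : v ∉ W t)
    (s : ℕ) (hs : s < T) :
    ∑ u, z v u * (if u ∈ F s ∧ R.Adj v u then 1 else 0) ≤ 6 * (N : ℝ) ^ 2 / Δ := by
  have hN : (1000 : ℝ) ≤ N := by exact_mod_cast h.xp.hN
  have hN0 : (0 : ℝ) < N := by linarith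
  have hΔ : (0 : ℝ) < Δ := by
    have h1 : 0 < N ^ 250 := pow_pos (by have := h.xp.hN; omega) 250
    exact_mod_cast h1.trans_le h.xp.hΔ
  have hc : (0 : ℝ) ≤ 3 / 2 * (1 / ((N : ℝ) ^ 2 * Δ)) := by positivity
  have h1 : ∑ u, z v u * (if u ∈ F s ∧ R.Adj v u then 1 else 0) ≤
      ∑ u, (if u ∈ F s ∧ R.Adj v u then 3 / 2 * (1 / ((N : ℝ) ^ 2 * Δ)) else 0) := by
    apply Finset.sum_le_sum
    intro u _
    by_cases h2 : u ∈ F s ∧ R.Adj v u
    · rw [if_pos h2, if_pos h2, mul_one]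
      by_cases h3 : u ∉ W t ∧ U.Adj v u
      · refine (hz.res v u hv h3.1 ?_).2
        rw [SimpleGraph.inf_adj]
        exact ⟨h3.2, h2.2⟩
      · have h6 : z v u = 0 := by
          apply hz.zer v u
          by_cases h7 : u ∈ W t
          · exact Or.inr (Or.inl h7)
          · exact Or.inr (Or.inr fun h8 => h3 ⟨h7, h8⟩)
        rw [h6]
        exact hc
    · rw [if_neg h2, if_neg h2, mul_zero]
  have h2 : ∑ u, (if u ∈ F s ∧ R.Adj v u then 3 / 2 * (1 / ((N : ℝ) ^ 2 * Δ)) else 0) =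
      (dn R v (F s) : ℝ) * (3 / 2 * (1 / ((N : ℝ) ^ 2 * Δ))) := by
    rw [← Finset.sum_filter, Finset.sum_const, nsmul_eq_mul]
    have e : (univ.filter fun u => u ∈ F s ∧ R.Adj v u).card = dn R v (F s) := by
      unfold dn
      exact congrArg Finset.card (by ext x; simp only [Finset.mem_filter, Finset.mem_univ, true_and])
    rw [e]
  rw [h2] at h1
  refine h1.trans ?_
  refine (mul_le_mul_of_nonneg_right (h.fu s hs v) hc).trans (le_of_eq ?_)
  field_simp
  norm_num

end Pool.Agent.H12.LS
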