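import Mathlib
import Pool.Agent.H12.LS.Defs
import Pool.Agent.H12.LS.Pa2
import Pool.Agent.H12.LS.Pt4
import Pool.Agent.H71.EX.Pi

/-!
PI2: the whole process. Compare `EX/Pi.lean` (proved; copy and adapt).

Proof.  By `pa2` and `pt4`, recursively: graphs `U t`, sets `M t`, `t ≤ T`, and maps `mm t`, `t < T`, with `U 0 = G`, `M 0 = ∅`,
`Sm .. t .. (U t) (M t)`, `Mt t W F (U t) (M t) (mm t)`, `(U (t + 1)).Adj a b ↔ (U t).Adj a b ∧ mm t a ≠ b`,
`M (t + 1) = M t ∪ {u ∉ W t : mm t u = u}`. `PM` as in `EX/Pi.lean`. The last claim: by induction on `t`,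
`#{s < t : v ∉ W s ∧ mm s v = v} ≤ if v ∈ M t then 1 else 0` (if `v ∉ W t` and `mm t v = v`, then `v ∉ M t` by `Mt.mis`, so the count
was `0`, and `v ∈ M (t + 1)`), and `M T ⊆ F0` (`Sm.mf`).
-/

set_option autoImplicit false

namespace Pool.Agent.H12.LS

open Finset Classical
open Pool.Agent.H71.DN Pool.Agent.H71.EX

private theorem Pi2_seq {V : Type} [Fintype V] (G R : SimpleGraph V) (Δ N T w0 : ℕ) (W F : ℕ → Finset V)
    (F0 : Finset V) (h : Pd G R Δ N T w0 W F F0) (t : ℕ) (ht : t ≤ T) :
    ∃ (U : ℕ → SimpleGraph V) (M : ℕ → Finset V) (mm : ℕ → V → V), U 0 = G ∧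
      Sm G R Δ N T t W F F0 (U t) (M t) ∧
      ∀ s < t, Mt s W F (U s) (M s) (mm s) ∧
        (∀ a b, (U (s + 1)).Adj a b ↔ (U s).Adj a b ∧ mm s a ≠ b) ∧
        M (s + 1) = M s ∪ univ.filter fun u => u ∉ W s ∧ mm s u = u := by
  induction t with
  | zero =>
    exact ⟨fun _ => G, fun _ => ∅, fun _ v => v, rfl, pa2 G R Δ N T w0 W F F0 h,
      fun s hs => absurd hs (Nat.not_lt_zero s)⟩
  | succ t ih =>
    obtain ⟨U, M, mm, hU0, hS, hst⟩ := ih (Nat.le_of_succ_le ht)
    obtain ⟨π, h1, h4⟩ := pt4 G R Δ N T w0 W F F0 h t ht (U t) (M t) hS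
    let U' : SimpleGraph V :=
      { Adj := fun a b => (U t).Adj a b ∧ π a ≠ b
        symm := by
          constructor
          intro a b hab
          refine ⟨hab.1.symm, fun hb => hab.2 ?_⟩
          rw [← hb, h1.inv]
        loopless := by
          constructor
          intro a ha
          exact (U t).loopless.irrefl a ha.1 }
    refine ⟨Function.update U (t + 1) U', Function.update M (t + 1) (M t ∪ univ.filter fun u => u ∉ W t ∧ π u = u),
      Function.update mm t π, ?_, ?_, ?_⟩
    · rw [Function.update_of_ne (Nat.succ_ne_zero t).symm]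
      exact hU0
    · rw [Function.update_self, Function.update_self]
      exact h4 U' fun a b => Iff.rfl
    · intro s hs
      rcases Nat.lt_or_eq_of_le (Nat.lt_succ_iff.1 hs) with hs' | hs'
      · have e1 : Function.update mm t π s = mm s := Function.update_of_ne hs'.ne _ _
        have e2 : Function.update U (t + 1) U' s = U s := Function.update_of_ne (by omega) _ _
        have e3 : Function.update U (t + 1) U' (s + 1) = U (s + 1) :=
          Function.update_of_ne (by omega) _ _
        have e4 : Function.update M (t + 1) (M t ∪ univ.filter fun u => u ∉ W t ∧ π u = u) s = M s :=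
          Function.update_of_ne (by omega) _ _
        have e5 : Function.update M (t + 1) (M t ∪ univ.filter fun u => u ∉ W t ∧ π u = u) (s + 1) = M (s + 1) :=
          Function.update_of_ne (by omega) _ _
        rw [e1, e2, e3, e4, e5]
        exact hst s hs'
      · subst hs'
        have e1 : Function.update mm s π s = π := Function.update_self _ _ _
        have e2 : Function.update U (s + 1) U' s = U s := Function.update_of_ne (by omega) _ _
        have e3 : Function.update U (s + 1) U' (s + 1) = U' := Function.update_self _ _ _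
        have e4 : Function.update M (s + 1) (M s ∪ univ.filter fun u => u ∉ W s ∧ π u = u) s = M s :=
          Function.update_of_ne (by omega) _ _
        have e5 : Function.update M (s + 1) (M s ∪ univ.filter fun u => u ∉ W s ∧ π u = u) (s + 1) =
            M s ∪ univ.filter fun u => u ∉ W s ∧ π u = u := Function.update_self _ _ _
        rw [e1, e2, e3, e4, e5]
        exact ⟨h1, fun a b => Iff.rfl, rfl⟩

theorem pi2 {V : Type} [Fintype V] (G R : SimpleGraph V) (Δ N T w0 : ℕ) (W F : ℕ → Finset V)
    (F0 : Finset V) (h : Pd G R Δ N T w0 W F F0) :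
    ∃ mm : ℕ → V → V, PM G T W mm ∧
      ∀ v, ((range T).filter fun t => mm t v = v).card ≤
        ((range T).filter fun t => v ∈ W t).card + (if v ∈ F0 then 1 else 0) := by
  obtain ⟨U, M, mm, hU0, hSm, hst⟩ := Pi2_seq G R Δ N T w0 W F F0 h T le_rfl
  -- monotonicity
  have hmono : ∀ t ≤ T, ∀ s ≤ t, U t ≤ U s := by
    intro t
    induction t with
    | zero =>
      intro _ s hs
      rw [Nat.le_zero.1 hs]
    | succ t ih =>
      intro ht s hs
      rcases Nat.lt_or_eq_of_le hs with hs' | hs'
      · refine le_trans ?_ (ih (Nat.le_of_succ_le ht) s (Nat.lt_succ_iff.1 hs'))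
        intro a b hab
        exact (((hst t ht).2.1 a b).1 hab).1
      · rw [hs']
  have hadj : ∀ t < T, ∀ v, mm t v ≠ v → (U t).Adj v (mm t v) := by
    intro t ht v hv
    exact (hst t ht).1.adj v hv
  have key : ∀ s t, s < t → t < T → ∀ v, mm t v ≠ v → mm s v ≠ mm t v := by
    intro s t hs ht v hv
    have h1 := hadj t ht v hv
    have h2 := hmono t ht.le (s + 1) hs h1
    exact (((hst s (hs.trans ht)).2.1 v (mm t v)).1 h2).2
  have hcount : ∀ v, ∀ t ≤ T, ((range t).filter fun s => v ∉ W s ∧ mm s v = v).card ≤ if v ∈ M t then 1 else 0 := by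
    intro v t
    induction t with
    | zero =>
      intro _
      simp
    | succ t ih =>
      intro ht
      have ih' := ih (Nat.le_of_succ_le ht)
      obtain ⟨h1, h2, h3⟩ := hst t ht
      rw [Finset.range_add_one, Finset.filter_insert]
      by_cases hv : v ∉ W t ∧ mm t v = v
      · rw [if_pos hv]
        have hm := h1.mis v hv.1 hv.2
        rw [if_neg hm.2] at ih'
        have h0 : ((range t).filter fun s => v ∉ W s ∧ mm s v = v).card = 0 := Nat.le_zero.1 ih'
        have hM : v ∈ M (t + 1) := by
          rw [h3]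
          exact Finset.mem_union_right _ (Finset.mem_filter.2 ⟨Finset.mem_univ v, hv⟩)
        rw [if_pos hM]
        refine (Finset.card_insert_le _ _).trans ?_
        rw [h0]
      · rw [if_neg hv]
        refine ih'.trans ?_
        by_cases hm : v ∈ M t
        · have hM : v ∈ M (t + 1) := by
            rw [h3]
            exact Finset.mem_union_left _ hm
          rw [if_pos hm, if_pos hM]
        · rw [if_neg hm]
          exact Nat.zero_le _
  refine ⟨mm, ⟨?_, ?_, ?_, ?_⟩, ?_⟩
  · intro t ht v
    exact (hst t ht).1.inv v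
  · intro t ht v hv
    have h1 := hmono t ht.le 0 (Nat.zero_le _) (hadj t ht v hv)
    rw [hU0] at h1
    exact h1
  · intro s hs t ht hne v hv
    rcases Nat.lt_or_gt_of_ne hne with hlt | hlt
    · by_cases hv' : mm t v = v
      · rw [hv']
        exact hv
      · exact key s t hlt ht v hv'
    · exact fun he => key t s hlt hs v hv he.symm
  · intro t ht v hv
    exact (hst t ht).1.fix v hv
  · intro v
    have h1 := hcount v T le_rfl
    have h2 : (if v ∈ M T then 1 else 0) ≤ (if v ∈ F0 then 1 else 0) := by
      by_cases hm : v ∈ M T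
      · rw [if_pos hm, if_pos (hSm.mf hm)]
      · rw [if_neg hm]
        exact Nat.zero_le _
    have h3 : ((range T).filter fun t => mm t v = v) ⊆
        ((range T).filter fun t => v ∈ W t) ∪ ((range T).filter fun s => v ∉ W s ∧ mm s v = v) := by
      intro t ht
      rw [Finset.mem_filter] at ht
      by_cases hw : v ∈ W t
      · exact Finset.mem_union_left _ (Finset.mem_filter.2 ⟨ht.1, hw⟩)
      · exact Finset.mem_union_right _ (Finset.mem_filter.2 ⟨ht.1, hw, ht.2⟩)
    calc ((range T).filter fun t => mm t v = v).card ≤ _ := Finset.card_le_card h3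
      _ ≤ ((range T).filter fun t => v ∈ W t).card + ((range T).filter fun s => v ∉ W s ∧ mm s v = v).card :=
        Finset.card_union_le _ _
      _ ≤ _ := Nat.add_le_add_left (h1.trans h2) _

end Pool.Agent.H12.LS
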