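import Mathlib
import Pool.Agent.H12.LS.Defs
import Pool.Agent.H12.LS.Gm
import Pool.Agent.H12.LS.As0
import Pool.Agent.H12.LS.Pi2

/-!
AS1: the matchings for all labels `t < T`.

Proof.  `as0` gives `F0`, `σ`, ..., `pi2` gives `m1` with `PM (Gm G F0) T W' m1`, `W' t = W t ∪ {v : σ t v ≠ v}`. Let
`mm t v = if σ t v ≠ v then σ t v else m1 t v`. For `t < T`: `m1 t` fixes the vertices moved by `σ t` (`PM.fix`), so (as `σ t`, `m1 t` are
involutions) `m1 t v` is not moved by `σ t` if `v` is not: `mm t` is an involution. `adj`: clear (`Gm G F0 ≤ G`). `fix`: `v ∈ W t` is not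
moved by `σ t` and fixed by `m1 t`. `dis` (`s ≠ t`, `mm s v ≠ v`, to show `mm s v ≠ mm t v`; the form of `PM.dis`): if both are `σ`-moves:
property of `σ`; if both are `m1`-moves: `PM.dis`; a `σ`-move is an edge inside `F0` (`σ t v` is moved by `σ t`, so in `F0`), an
`m1`-move is not (`Gm`); if `mm t v = v` clear.
Count: for `t < T`, `mm t v = v` iff `σ t v = v` and `m1 t v = v`. So `#{t < T : mm t v = v} = #{t < T : m1 t v = v} - #{t < T : σ t v ≠ v}`
(the `t` with `σ t v ≠ v` have `m1 t v = v`), `#{t < T : v ∈ W' t} = #{t < T : v ∈ W t} + #{t < T : σ t v ≠ v}` (disjoint: the vertices moved by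
`σ t` are not in `W t`), and `pi2`. The last claim: `σ t u = v ≠ u`, so `mm t u = v`.
-/

set_option autoImplicit false

namespace Pool.Agent.H12.LS

open Finset Classical
open Pool.Agent.H71.DN Pool.Agent.H71.EX

theorem as1 {V : Type} [Fintype V] (G : SimpleGraph V) (Δ N T : ℕ) (h : Xt G Δ N)
    (W : ℕ → Finset V) (hT : (T : ℝ) ≤ Δ - 3 * (Δ / (N : ℝ) ^ 8)) (hT2 : Δ ≤ 2 * T)
    (wc : ∀ v, (((range T).filter fun t => v ∈ W t).card : ℝ) ≤ Δ / (N : ℝ) ^ 30)
    (wd : ∀ t < T, ∀ v, (dn G v (W t) : ℝ) ≤ Δ / (N : ℝ) ^ 50) :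
    ∃ (F0 : Finset V) (mm : ℕ → V → V), PM G T W mm ∧
      (∀ v, ((range T).filter fun t => mm t v = v).card ≤
        ((range T).filter fun t => v ∈ W t).card + (if v ∈ F0 then 1 else 0)) ∧
      ∀ u ∈ F0, ∀ v ∈ F0, G.Adj u v → ∃ t < T, mm t u = v := by
  obtain ⟨F0, R1, w0, F, σ, hinv, hσ, hdis, hcov, hPd⟩ := as0 G Δ N T h W hT hT2 wc wd
  obtain ⟨m1, hPM, hcount⟩ := pi2 (Gm G F0) R1 Δ N T w0
    (fun t => W t ∪ univ.filter fun v => σ t v ≠ v) F F0 hPd
  have hσF : ∀ t < T, ∀ v, σ t v ≠ v → σ t v ∈ F0 := by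
    intro t ht v hv
    have h1 : σ t (σ t v) ≠ σ t v := by rw [hinv t ht v]; exact hv.symm
    exact (hσ t ht _ h1).1
  have hm1 : ∀ t < T, ∀ v, σ t v ≠ v → m1 t v = v := by
    intro t ht v hv
    refine hPM.fix t ht v ?_
    simp only [mem_union, mem_filter, mem_univ, true_and]
    exact Or.inr hv
  have hm1W : ∀ t < T, ∀ v ∈ W t, m1 t v = v := by
    intro t ht v hv
    refine hPM.fix t ht v ?_
    simp only [mem_union]
    exact Or.inl hv
  have hGm : ∀ t < T, ∀ v, m1 t v ≠ v → G.Adj v (m1 t v) ∧ ¬ (v ∈ F0 ∧ m1 t v ∈ F0) := by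
    intro t ht v hv
    exact hPM.adj t ht v hv
  obtain ⟨mm, hmm⟩ : ∃ mm : ℕ → V → V, mm = fun t v => if σ t v ≠ v then σ t v else m1 t v :=
    ⟨_, rfl⟩
  have hA : ∀ t v, σ t v ≠ v → mm t v = σ t v := by
    intro t v hv
    rw [hmm]
    exact if_pos hv
  have hB : ∀ t v, σ t v = v → mm t v = m1 t v := by
    intro t v hv
    rw [hmm]
    exact if_neg (fun k => k hv)
  refine ⟨F0, mm, ⟨?_, ?_, ?_, ?_⟩, ?_, ?_⟩
  · -- involution
    intro t ht v
    by_cases hv : σ t v = v
    · rw [hB t v hv]
      have h2 : m1 t (m1 t v) = v := hPM.inv t ht v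
      have h3 : σ t (m1 t v) = m1 t v := by
        by_contra hc
        have h4 := hm1 t ht _ hc
        rw [h2] at h4
        rw [← h4] at hc
        exact hc hv
      rw [hB t _ h3]
      exact h2
    · rw [hA t v hv]
      have h1 : σ t (σ t v) ≠ σ t v := by rw [hinv t ht v]; exact fun k => hv k.symm
      rw [hA t _ h1]
      exact hinv t ht v
  · intro t ht v hv
    by_cases hc : σ t v = v
    · rw [hB t v hc] at hv ⊢
      exact (hGm t ht v hv).1
    · rw [hA t v hc]
      exact (hσ t ht v hc).2.2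
  · intro s hs t ht hst v hv
    by_cases h1 : σ s v = v
    · by_cases h2 : σ t v = v
      · rw [hB s v h1] at hv ⊢
        rw [hB t v h2]
        exact hPM.dis s hs t ht hst v hv
      · rw [hB s v h1] at hv ⊢
        rw [hA t v h2]
        intro hc
        have h3 := (hGm s hs v hv).2
        rw [hc] at h3
        exact h3 ⟨(hσ t ht v h2).1, hσF t ht v h2⟩
    · by_cases h2 : σ t v = v
      · rw [hA s v h1, hB t v h2]
        intro hc
        have h4 : m1 t v ≠ v := by rw [← hc]; exact h1
        have h3 := (hGm t ht v h4).2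
        rw [← hc] at h3
        exact h3 ⟨(hσ s hs v h1).1, hσF s hs v h1⟩
      · rw [hA s v h1, hA t v h2]
        exact hdis s hs t ht hst v h1
  · intro t ht v hv
    have h1 : σ t v = v := by
      by_contra hc
      exact (hσ t ht v hc).2.1 hv
    rw [hB t v h1]
    exact hm1W t ht v hv
  · intro v
    have hc := hcount v
    have c1 : ((range T).filter fun t => mm t v = v).card +
        ((range T).filter fun t => σ t v ≠ v).card ≤
        ((range T).filter fun t => m1 t v = v).card := by
      rw [← card_union_of_disjoint]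
      · refine card_le_card ?_
        intro t ht
        rw [mem_union, mem_filter, mem_filter] at ht
        rw [mem_filter]
        rcases ht with ⟨h1, h2⟩ | ⟨h1, h2⟩
        · refine ⟨h1, ?_⟩
          by_cases hcc : σ t v = v
          · rw [hB t v hcc] at h2
            exact h2
          · exact hm1 t (mem_range.mp h1) v hcc
        · exact ⟨h1, hm1 t (mem_range.mp h1) v h2⟩
      · rw [disjoint_left]
        intro t ht1 ht2
        rw [mem_filter] at ht1 ht2
        have h3 := ht1.2
        rw [hA t v ht2.2] at h3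
        exact ht2.2 h3
    have c2 : ((range T).filter fun t => v ∈ W t ∪ univ.filter fun v => σ t v ≠ v).card ≤
        ((range T).filter fun t => v ∈ W t).card + ((range T).filter fun t => σ t v ≠ v).card := by
      refine le_trans (card_le_card ?_) (card_union_le _ _)
      intro t ht
      rw [mem_filter, mem_union, mem_filter] at ht
      rw [mem_union, mem_filter, mem_filter]
      rcases ht.2 with h1 | h1
      · exact Or.inl ⟨ht.1, h1⟩
      · exact Or.inr ⟨ht.1, h1.2⟩
    have c3 : ((range T).filter fun t => m1 t v = v).card ≤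
        ((range T).filter fun t => v ∈ W t ∪ univ.filter fun v => σ t v ≠ v).card +
          (if v ∈ F0 then 1 else 0) := hc
    omega
  · intro u hu v hv huv
    obtain ⟨t, ht, htv⟩ := hcov u hu v hv huv
    refine ⟨t, ht, ?_⟩
    have h1 : σ t u ≠ u := by
      rw [htv]
      exact huv.ne'
    rw [hA t u h1]
    exact htv

end Pool.Agent.H12.LS
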