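import Mathlib
import Pool.Agent.H12.LS.Defs
import Pool.Agent.H12.LS.Np2
import Pool.Agent.H71.EX.Sa

/-!
SA2: one class of the sparse random classes. Compare `EX/Sa.lean` (proved; copy and adapt; the general lemmas `Sa_markov`, `Sa_dn`,
`Sa_exp` can be used; the ones with the hypothesis `Xp` have to be repeated with `Xs`). Only difference: no condition on the size
of `X`.

Proof.  As in `EX/Sa.lean` with `np_s` for `np`; `f` is bad if `3 N < dn G v (X f)` for some `v`. The number of bad `f` is at most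
`n K ^ n exp (2 / N ^ 3 - 3 N) ≤ K ^ n exp (- 2 N + 1) ≤ K ^ n / Δ`, as `Δ ≤ 2 n ≤ 2 exp N` (`cv_s`; if `V` is empty nothing is bad).
(`V` nonempty may be assumed: otherwise all sums are empty and `X = ∅` works.)
-/

set_option autoImplicit false

namespace Pool.Agent.H12.LS

open Finset Classical
open Pool.Agent.H71.DN Pool.Agent.H71.EX

theorem Sa2_pairs {V : Type} [Fintype V] (G : SimpleGraph V) (Δ N : ℕ) (h : Xs G Δ N) (U : Finset V)
    (hU : ∀ v, (dn G v U : ℝ) ≤ 3 * Δ / (N : ℝ) ^ 3) (v : V) :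
    (Δ : ℝ) ^ 2 / (4 * N) ≤ (np2 G (univ \ U) v).card := by
  have hN := h.hN
  have hNr : (1000:ℝ) ≤ N := by exact_mod_cast hN
  have h1 := np_s G Δ N h v
  have hsub : np2 G univ v ⊆ np2 G (univ \ U) v ∪
      ((U.filter fun u => G.Adj v u) ×ˢ (univ.filter fun u => G.Adj v u) ∪
       (univ.filter fun u => G.Adj v u) ×ˢ (U.filter fun u => G.Adj v u)) := by
    intro x hx
    simp only [np2, mem_filter, mem_product, mem_univ, true_and, mem_union, mem_sdiff] at hx ⊢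
    by_cases h1 : x.1 ∈ U
    · right; left; exact ⟨⟨h1, hx.1⟩, hx.2.1⟩
    · by_cases h2 : x.2 ∈ U
      · right; right; exact ⟨hx.1, h2, hx.2.1⟩
      · left; exact ⟨⟨h1, h2⟩, hx⟩
  have hcard := (card_le_card hsub).trans ((card_union_le _ _).trans
    (Nat.add_le_add_left (card_union_le _ _) _))
  rw [card_product, card_product] at hcard
  have e1 : (U.filter fun u => G.Adj v u).card = dn G v U := rfl
  have e2 : (univ.filter fun u => G.Adj v u).card = dg G v := rfl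
  rw [e1, e2] at hcard
  have hcr : ((np2 G univ v).card : ℝ) ≤
      (np2 G (univ \ U) v).card + (dn G v U * dg G v + dg G v * dn G v U) := by
    exact_mod_cast hcard
  have hd : (dg G v : ℝ) ≤ Δ := by exact_mod_cast h.up v
  have hdn := hU v
  have hΔ0 : (0:ℝ) ≤ Δ := by positivity
  have hprod : (dn G v U : ℝ) * dg G v ≤ 3 * Δ / (N:ℝ)^3 * Δ :=
    mul_le_mul hdn hd (by positivity) (by positivity)
  have hkey : (Δ:ℝ)^2 / (4*N) + 2 * (3 * Δ / (N:ℝ)^3 * Δ) ≤ (Δ:ℝ)^2 / (2*N) := by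
    have hN0 : (N:ℝ) ≠ 0 := by positivity
    have e3 : (Δ:ℝ)^2 / (2*N) - ((Δ:ℝ)^2 / (4*N) + 2 * (3 * Δ / (N:ℝ)^3 * Δ)) =
        (Δ:ℝ)^2 / (4 * (N:ℝ)^3) * ((N:ℝ)^2 - 24) := by
      field_simp
      ring
    have h24 : (0:ℝ) ≤ (N:ℝ)^2 - 24 := by nlinarith
    have h25 : 0 ≤ (Δ:ℝ)^2 / (4 * (N:ℝ)^3) * ((N:ℝ)^2 - 24) := mul_nonneg (by positivity) h24
    linarith
  have hcomm : (dg G v : ℝ) * dn G v U = dn G v U * dg G v := mul_comm _ _
  linarith

theorem Sa2_ev {V : Type} [Fintype V] (G : SimpleGraph V) (Δ N : ℕ) (h : Xs G Δ N) (U : Finset V)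
    (hU : ∀ v, (dn G v U : ℝ) ≤ 3 * Δ / (N : ℝ) ^ 3) (v : V) :
    ∑ f : V → Fin (N ^ 3 * Δ),
      (if Ev G ((univ \ U).filter fun a => (f a : ℕ) = 0) v then Real.exp (-1) else 1) *
        Real.exp (1 / (32 * (N : ℝ) ^ 7)) ≤ ((N ^ 3 * Δ : ℕ) : ℝ) ^ (Fintype.card V) := by
  have hN := h.hN
  have hNr : (1000:ℝ) ≤ N := by exact_mod_cast hN
  have hΔ1 : 1 ≤ Δ := le_trans (Nat.one_le_pow _ _ (by omega)) h.hΔ
  have h1 := pz G Δ N hN hΔ1 h.up (univ \ U) v (Sa2_pairs G Δ N h U hU v)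
  set M : ℝ := ((N ^ 3 * Δ : ℕ) : ℝ) ^ (Fintype.card V) with hM
  have hM0 : 0 ≤ M := by positivity
  set E : Finset (V → Fin (N ^ 3 * Δ)) := univ.filter fun f =>
    Ev G ((univ \ U).filter fun a => (f a : ℕ) = 0) v with hE
  have hcard : (Fintype.card (V → Fin (N ^ 3 * Δ)) : ℝ) = M := by
    rw [hM, Fintype.card_fun, Fintype.card_fin]
    push_cast
    rfl
  have hsum : ∑ f : V → Fin (N ^ 3 * Δ),
      (if Ev G ((univ \ U).filter fun a => (f a : ℕ) = 0) v then Real.exp (-1) else 1) =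
      M - (1 - Real.exp (-1)) * E.card := by
    have h2 : ∀ f : V → Fin (N ^ 3 * Δ),
        (if Ev G ((univ \ U).filter fun a => (f a : ℕ) = 0) v then Real.exp (-1) else (1:ℝ)) =
        1 - (1 - Real.exp (-1)) *
          (if Ev G ((univ \ U).filter fun a => (f a : ℕ) = 0) v then 1 else 0) := by
      intro f
      split_ifs <;> ring
    rw [sum_congr rfl fun f _ => h2 f, sum_sub_distrib, ← mul_sum, sum_boole, sum_const, card_univ,
      nsmul_eq_mul, mul_one, hcard]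
  have he : Real.exp (-1) ≤ 1 / 2 := by
    have h3 : (2:ℝ) ≤ Real.exp 1 := by have := Real.add_one_le_exp (1:ℝ); linarith
    rw [Real.exp_neg, inv_eq_one_div]
    exact one_div_le_one_div_of_le (by norm_num) h3
  rw [← sum_mul, hsum]
  set y : ℝ := 1 / (32 * (N : ℝ) ^ 7) with hy
  have hP : M / (16 * (N:ℝ)^7) = 2 * (M * y) := by rw [hy]; ring
  rw [hP] at h1
  have hEc : M * y ≤ (1 - Real.exp (-1)) * E.card := by
    have h4 : (0:ℝ) ≤ E.card := by positivity
    nlinarith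
  have h5 : M - (1 - Real.exp (-1)) * E.card ≤ M * Real.exp (-y) := by
    have h6 : 1 - y ≤ Real.exp (-y) := by have := Real.add_one_le_exp (-y); linarith
    nlinarith [mul_le_mul_of_nonneg_left h6 hM0]
  calc (M - (1 - Real.exp (-1)) * E.card) * Real.exp y ≤ M * Real.exp (-y) * Real.exp y :=
        mul_le_mul_of_nonneg_right h5 (Real.exp_pos _).le
    _ = M := by rw [mul_assoc, ← Real.exp_add]; simp

theorem Sa2_bad {V : Type} [Fintype V] (G : SimpleGraph V) (Δ N : ℕ) (h : Xs G Δ N)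
    (hne : Nonempty V) (C : Finset V) :
    (((univ : Finset (V → Fin (N ^ 3 * Δ))).filter fun f =>
        ∃ v, 3 * N < dn G v (C.filter fun a => (f a : ℕ) = 0)).card : ℝ) ≤
      ((N ^ 3 * Δ : ℕ) : ℝ) ^ (Fintype.card V) / Δ := by
  have hN := h.hN
  have hNr : (1000:ℝ) ≤ N := by exact_mod_cast hN
  have hΔ1 : 1 ≤ Δ := le_trans (Nat.one_le_pow _ _ (by omega)) h.hΔ
  have hΔr : (1:ℝ) ≤ Δ := by exact_mod_cast hΔ1
  have hK : 1 ≤ N ^ 3 * Δ := Nat.one_le_iff_ne_zero.2 (by positivity)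
  set M : ℝ := ((N ^ 3 * Δ : ℕ) : ℝ) ^ (Fintype.card V) with hM
  have hM0 : 0 ≤ M := by positivity
  have hcv : (Δ:ℝ) ≤ 2 * Fintype.card V := by exact_mod_cast cv_s G Δ N h hne.some
  set n : ℕ := Fintype.card V with hn
  -- second kind
  have hb2 : (((univ : Finset (V → Fin (N ^ 3 * Δ))).filter fun f =>
      ∃ v, 3 * N < dn G v (C.filter fun a => (f a : ℕ) = 0)).card : ℝ) ≤
      M * (2 * Real.exp (-(2 * N))) := by
    have h1 : ∀ v : V, (((univ : Finset (V → Fin (N ^ 3 * Δ))).filter fun f =>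
        3 * N < dn G v (C.filter fun a => (f a : ℕ) = 0)).card : ℝ) ≤
        M * (2 * Real.exp (-(3 * N))) := by
      intro v
      have h2 := Sa_markov (F := V → Fin (N ^ 3 * Δ))
        (fun f => (dn G v (C.filter fun a => (f a : ℕ) = 0) : ℝ)) (3 * N)
        (fun f => 3 * N < dn G v (C.filter fun a => (f a : ℕ) = 0)) (by
          intro f hf
          exact_mod_cast hf.le)
      have h3 := h2.trans (Sa_exp G Δ N hN hΔ1 h.up C v)
      rw [← hn, ← hM] at h3
      have h4 : Real.exp (2 / (N:ℝ)^3) ≤ 2 := by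
        have h5 : 2 / (N:ℝ)^3 ≤ 1 / 2 := by
          rw [div_le_div_iff₀ (by positivity) (by norm_num)]
          have h6 : (4:ℝ) ≤ (N:ℝ)^3 := by
            calc (4:ℝ) ≤ 1000 ^ 3 := by norm_num
              _ ≤ (N:ℝ)^3 := pow_le_pow_left₀ (by norm_num) hNr 3
          linarith
        have h7 : Real.exp (2 / (N:ℝ)^3) ≤ Real.exp (1/2) := Real.exp_le_exp.2 h5
        have h8 : Real.exp (1/2) ≤ 2 := by
          have h9 : Real.exp (1/2) * Real.exp (1/2) = Real.exp 1 := by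
            rw [← Real.exp_add]; norm_num
          have h10 := Real.exp_one_lt_d9
          nlinarith [Real.exp_pos (1/2 : ℝ)]
        exact h7.trans h8
      have h12 : M * Real.exp (2 / (N:ℝ)^3) ≤
          (M * (2 * Real.exp (-(3 * N)))) * Real.exp (3 * N) := by
        have h13 : (M * (2 * Real.exp (-(3 * (N:ℝ))))) * Real.exp (3 * N) = M * 2 := by
          rw [mul_assoc, mul_assoc, ← Real.exp_add]; simp
        rw [h13]
        exact mul_le_mul_of_nonneg_left h4 hM0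
      exact le_of_mul_le_mul_right (h3.trans h12) (Real.exp_pos _)
    have h2 : ((univ : Finset (V → Fin (N ^ 3 * Δ))).filter fun f =>
        ∃ v, 3 * N < dn G v (C.filter fun a => (f a : ℕ) = 0)) ⊆
        (univ : Finset V).biUnion fun v => (univ : Finset (V → Fin (N ^ 3 * Δ))).filter fun f =>
          3 * N < dn G v (C.filter fun a => (f a : ℕ) = 0) := by
      intro f hf
      obtain ⟨v, hv⟩ := (mem_filter.1 hf).2
      exact mem_biUnion.2 ⟨v, mem_univ _, mem_filter.2 ⟨mem_univ _, hv⟩⟩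
    have h3 : (((univ : Finset (V → Fin (N ^ 3 * Δ))).filter fun f =>
        ∃ v, 3 * N < dn G v (C.filter fun a => (f a : ℕ) = 0)).card : ℝ) ≤
        ∑ v : V, (((univ : Finset (V → Fin (N ^ 3 * Δ))).filter fun f =>
          3 * N < dn G v (C.filter fun a => (f a : ℕ) = 0)).card : ℝ) := by
      exact_mod_cast (card_le_card h2).trans card_biUnion_le
    refine h3.trans ((sum_le_sum fun v _ => h1 v).trans ?_)
    rw [sum_const, card_univ, nsmul_eq_mul, ← hn]
    have h4 := h.n2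
    rw [← hn] at h4
    have h5 : (n:ℝ) * (M * (2 * Real.exp (-(3 * N)))) ≤
        Real.exp N * (M * (2 * Real.exp (-(3 * N)))) :=
      mul_le_mul_of_nonneg_right h4 (by positivity)
    refine h5.trans (le_of_eq ?_)
    have h6 : Real.exp (-(2 * (N:ℝ))) = Real.exp N * Real.exp (-(3 * N)) := by
      rw [← Real.exp_add]; congr 1; ring
    rw [h6]; ring
  refine hb2.trans ?_
  have hn2 := h.n2
  rw [← hn] at hn2
  have hn0 : (0:ℝ) < n := by linarith
  have hexpN : (4:ℝ) ≤ Real.exp N := by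
    have := Real.add_one_le_exp (N:ℝ)
    linarith
  have h1 : 2 * Real.exp (-(2 * (N:ℝ))) ≤ Real.exp (-N) / 2 := by
    have h2 : Real.exp (-(N:ℝ)) = Real.exp N * Real.exp (-(2 * N)) := by
      rw [← Real.exp_add]; congr 1; ring
    rw [h2]
    have h3 := mul_le_mul_of_nonneg_right hexpN (Real.exp_pos (-(2 * (N:ℝ)))).le
    linarith
  have h2 : Real.exp (-(N:ℝ)) / 2 ≤ 1 / Δ := by
    rw [Real.exp_neg, inv_eq_one_div, div_div]
    apply one_div_le_one_div_of_le (by positivity)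
    linarith
  calc M * (2 * Real.exp (-(2 * (N:ℝ)))) ≤ M * (1 / Δ) :=
        mul_le_mul_of_nonneg_left (h1.trans h2) hM0
    _ = M / Δ := by ring

theorem sa2 {V : Type} [Fintype V] (G : SimpleGraph V) (Δ N : ℕ) (h : Xs G Δ N) (U : Finset V)
    (hU : ∀ v, (dn G v U : ℝ) ≤ 3 * Δ / (N : ℝ) ^ 3) (α β : V → ℝ) (hα : ∀ v, 0 < α v)
    (hβ : ∀ v, 0 ≤ β v) :
    ∃ X : Finset V, Disjoint X U ∧ (∀ v, dn G v X ≤ 3 * N) ∧
      ∑ v, α v * (if Ev G X v then Real.exp (-1) else 1) * Real.exp (1 / (32 * (N : ℝ) ^ 7)) +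
        ∑ v, β v * Real.exp (dn G v X - 2 / (N : ℝ) ^ 3) ≤
      (∑ v, α v + ∑ v, β v) * (1 + 2 / Δ) := by
  have hN := h.hN
  have hNr : (1000:ℝ) ≤ N := by exact_mod_cast hN
  have hΔ1 : 1 ≤ Δ := le_trans (Nat.one_le_pow _ _ (by omega)) h.hΔ
  have hΔr : (1:ℝ) ≤ Δ := by exact_mod_cast hΔ1
  have hΔ3 : (3:ℝ) ≤ Δ := by
    have h1 : (N:ℝ)^250 ≤ Δ := by exact_mod_cast h.hΔ
    have h2 : (N:ℝ) ≤ (N:ℝ)^250 := by
      calc (N:ℝ) = (N:ℝ)^1 := by ring
        _ ≤ (N:ℝ)^250 := pow_le_pow_right₀ (by linarith) (by norm_num)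
    linarith
  have hK : 1 ≤ N ^ 3 * Δ := Nat.one_le_iff_ne_zero.2 (by positivity)
  rcases isEmpty_or_nonempty V with hVe | hVne
  · refine ⟨∅, by simp, fun v => hVe.elim v, ?_⟩
    simp
  set M : ℝ := ((N ^ 3 * Δ : ℕ) : ℝ) ^ (Fintype.card V) with hM
  have hM0 : 0 < M := by
    rw [hM]
    apply pow_pos
    exact_mod_cast hK
  set Ψ0 : ℝ := ∑ v, α v + ∑ v, β v with hΨ0
  have hΨ0p : 0 < Ψ0 := by
    have h1 : 0 < ∑ v, α v := sum_pos (fun v _ => hα v) univ_nonempty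
    have h2 : 0 ≤ ∑ v, β v := sum_nonneg fun v _ => hβ v
    linarith
  let X : (V → Fin (N ^ 3 * Δ)) → Finset V := fun f => (univ \ U).filter fun a => (f a : ℕ) = 0
  let Ψ : (V → Fin (N ^ 3 * Δ)) → ℝ := fun f =>
    ∑ v, α v * (if Ev G (X f) v then Real.exp (-1) else 1) * Real.exp (1 / (32 * (N : ℝ) ^ 7)) +
      ∑ v, β v * Real.exp (dn G v (X f) - 2 / (N : ℝ) ^ 3)
  let bad : (V → Fin (N ^ 3 * Δ)) → Prop := fun f =>
    ∃ v, 3 * N < dn G v (X f)
  have hΨn : ∀ f, 0 ≤ Ψ f := by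
    intro f
    refine add_nonneg (sum_nonneg fun v _ => ?_) (sum_nonneg fun v _ => ?_)
    · refine mul_nonneg (mul_nonneg (hα v).le ?_) (Real.exp_pos _).le
      split_ifs
      · exact (Real.exp_pos _).le
      · norm_num
    · exact mul_nonneg (hβ v) (Real.exp_pos _).le
  have hS1 : ∑ f, Ψ f ≤ M * Ψ0 := by
    simp only [Ψ]
    rw [sum_add_distrib, sum_comm, hΨ0, mul_add]
    refine add_le_add ?_ ?_
    · rw [mul_sum]
      refine sum_le_sum fun v _ => ?_
      have h1 := Sa2_ev G Δ N h U hU v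
      have h2 : ∑ f : V → Fin (N ^ 3 * Δ),
          α v * (if Ev G (X f) v then Real.exp (-1) else 1) * Real.exp (1 / (32 * (N : ℝ) ^ 7)) =
          α v * ∑ f : V → Fin (N ^ 3 * Δ), (if Ev G (X f) v then Real.exp (-1) else 1) *
            Real.exp (1 / (32 * (N : ℝ) ^ 7)) := by
        rw [mul_sum]
        exact sum_congr rfl fun f _ => by ring
      rw [h2, mul_comm M]
      exact mul_le_mul_of_nonneg_left h1 (hα v).le
    · rw [sum_comm, mul_sum]
      refine sum_le_sum fun v _ => ?_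
      have h1 := Sa_exp G Δ N hN hΔ1 h.up (univ \ U) v
      rw [← mul_sum, mul_comm M]
      refine mul_le_mul_of_nonneg_left ?_ (hβ v)
      have h2 : ∑ f : V → Fin (N ^ 3 * Δ), Real.exp (dn G v (X f) - 2 / (N : ℝ) ^ 3) =
          (∑ f : V → Fin (N ^ 3 * Δ), Real.exp (dn G v (X f) : ℝ)) *
            Real.exp (-(2 / (N : ℝ) ^ 3)) := by
        rw [sum_mul]
        refine sum_congr rfl fun f _ => ?_
        rw [← Real.exp_add]
        rfl
      rw [h2]
      calc (∑ f : V → Fin (N ^ 3 * Δ), Real.exp (dn G v (X f) : ℝ)) *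
            Real.exp (-(2 / (N : ℝ) ^ 3)) ≤
          (M * Real.exp (2 / (N : ℝ) ^ 3)) * Real.exp (-(2 / (N : ℝ) ^ 3)) :=
            mul_le_mul_of_nonneg_right h1 (Real.exp_pos _).le
        _ = M := by rw [mul_assoc, ← Real.exp_add]; simp
  have hS2 : ∑ f, (if bad f then (1:ℝ) else 0) ≤ M / Δ := by
    rw [sum_boole]
    exact Sa2_bad G Δ N h hVne (univ \ U)
  have hS3 : ∑ f, (Ψ f + 2 * Ψ0 * (if bad f then (1:ℝ) else 0)) ≤
      ∑ _f : V → Fin (N ^ 3 * Δ), Ψ0 * (1 + 2 / Δ) := by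
    rw [sum_add_distrib, ← mul_sum, sum_const, card_univ, nsmul_eq_mul]
    have hcard : (Fintype.card (V → Fin (N ^ 3 * Δ)) : ℝ) = M := by
      rw [hM, Fintype.card_fun, Fintype.card_fin]
      push_cast
      rfl
    rw [hcard]
    have h1 : 2 * Ψ0 * ∑ f, (if bad f then (1:ℝ) else 0) ≤ 2 * Ψ0 * (M / Δ) :=
      mul_le_mul_of_nonneg_left hS2 (by positivity)
    calc _ ≤ M * Ψ0 + 2 * Ψ0 * (M / Δ) := add_le_add hS1 h1
      _ = M * (Ψ0 * (1 + 2 / Δ)) := by ring
  have hne : (univ : Finset (V → Fin (N ^ 3 * Δ))).Nonempty := by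
    have : Nonempty (Fin (N ^ 3 * Δ)) := ⟨⟨0, hK⟩⟩
    exact univ_nonempty
  obtain ⟨f, -, hf⟩ := exists_le_of_sum_le hne hS3
  have hnb : ¬ bad f := by
    intro hb
    rw [if_pos hb, mul_one] at hf
    have h1 := hΨn f
    have h2 : 2 * Ψ0 ≤ Ψ0 * (1 + 2 / Δ) := by linarith
    have h3 : (2:ℝ) / Δ < 1 := by rw [div_lt_one (by linarith)]; linarith
    nlinarith
  rw [if_neg hnb, mul_zero, add_zero] at hf
  simp only [bad, not_exists, not_lt] at hnb
  refine ⟨X f, ?_, hnb, hf⟩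
  rw [Finset.disjoint_left]
  intro a ha
  exact (mem_sdiff.1 (mem_filter.1 ha).1).2

end Pool.Agent.H12.LS
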