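import Mathlib
import Pool.Agent.H12.LS.Defs
import Pool.Agent.H12.LS.Np2
import Pool.Agent.H12.LS.Sb2
import Pool.Agent.H71.EX.Bn

/-!
CO2: the vertex labelling. Compare `EX/Bn.lean` (proved), which has in addition the switchers `s j`.

Proof.  `bn2`: `Y j = {a ∈ X j : a has no neighbour in X j}`, `D0 = ⋃ j < m0, Y j`, `c1 v = j` if `v ∈ X j`, `j < m0` (unique by
`hX.dis`), `Fb u = ∅`. Apply `gr` (`EX/Gr.lean`) with `φ = Δ / N ^ 8`, `B = 3 N`.
`hfree`: let `u ∉ D0`, `c = c1` on `D0`, `D0 ⊆ D`, `u ∉ D`. Let `P = {w ∈ D : G.Adj u w}`, `#P ≤ Δ`. The number of the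
different colours `#(P.image c)` is at most `#P - Z`, `Z = #{j < m0 : Ev G (X j) u}`: for such a `j` there are two
different `a, b ∈ X j` adjacent to `u` without neighbours in `X j`, so `a, b ∈ Y j ∩ P` and both have the colour `j`. So at least
`m0 - (Δ - Z) ≥ - 5 Δ / N ^ 8 + Δ / (100 N ^ 7) ≥ Δ / N ^ 8` labels `j < m0` are free (`N ≥ 1000`).
`hB`: the `u ∈ D0` adjacent to `v` with `c1 u = j` are in `X j`: at most `3 N` by `hX.fr`.
Proper: if `u ∉ D0` or `v ∉ D0`: by `gr`. If `u ∈ Y i`, `v ∈ Y j` are adjacent then `i ≠ j` (`u` has no neighbour in `X i`).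
Classes: if `j < m0` at most `3 N + 2 N ^ 8 + log (n m0) ≤ 3 N ^ 8` (`m0 ≤ Δ ≤ 2 n`, `n ≤ exp N`, so `log (n m0) ≤ 2 N + 1`); if
`j ≥ m0` the set is empty. (In `EX/Bn.lean` the auxiliary lemmas `EXBn_free` etc. are the model.)
`col2`: `m0 = ⌊Δ - 4 Δ / N ^ 8⌋₊`, `sb2`, `bn2`.
-/

set_option autoImplicit false

namespace Pool.Agent.H12.LS

open Finset Classical
open Pool.Agent.H71.DN Pool.Agent.H71.EX

private noncomputable def Co2_Y {V : Type} [Fintype V] (G : SimpleGraph V) (X : ℕ → Finset V)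
    (j : ℕ) : Finset V := (X j).filter fun a => ∀ u ∈ X j, ¬ G.Adj a u

private noncomputable def Co2_D {V : Type} [Fintype V] (G : SimpleGraph V) (X : ℕ → Finset V)
    (m0 : ℕ) : Finset V :=
  (range m0).biUnion (Co2_Y G X)

private noncomputable def Co2_c {V : Type} (X : ℕ → Finset V) (m0 : ℕ) (v : V) : ℕ :=
  if h : ∃ j, j < m0 ∧ v ∈ X j then h.choose else 0

section
variable {V : Type} [Fintype V] {G : SimpleGraph V} {Δ N m0 : ℕ} {X : ℕ → Finset V}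

private theorem Co2_c1X (hX : Sy G Δ N m0 X) {j : ℕ} (hj : j < m0) {v : V} (hv : v ∈ X j) :
    Co2_c X m0 v = j := by
  have h : ∃ j, j < m0 ∧ v ∈ X j := ⟨j, hj, hv⟩
  unfold Co2_c
  rw [dif_pos h]
  by_contra hne
  exact (Finset.disjoint_left.mp (hX.dis _ h.choose_spec.1 _ hj hne)) h.choose_spec.2 hv

private theorem Co2_mem {v : V} (hv : v ∈ Co2_D G X m0) :
    ∃ j, j < m0 ∧ v ∈ X j ∧ ∀ u ∈ X j, ¬ G.Adj v u := by
  unfold Co2_D Co2_Y at hv
  rw [mem_biUnion] at hv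
  obtain ⟨j, hj, h1⟩ := hv
  rw [mem_filter] at h1
  exact ⟨j, mem_range.mp hj, h1.1, h1.2⟩

private theorem Co2_memY {j : ℕ} (hj : j < m0) {v : V} (hv : v ∈ X j) (h : ∀ u ∈ X j, ¬ G.Adj v u) :
    v ∈ Co2_D G X m0 := by
  unfold Co2_D Co2_Y
  rw [mem_biUnion]
  refine ⟨j, mem_range.mpr hj, ?_⟩
  rw [mem_filter]
  exact ⟨hv, h⟩

private theorem Co2_used (hX : Sy G Δ N m0 X) (u : V) (c : V → ℕ)
    (hc : ∀ v ∈ Co2_D G X m0, c v = Co2_c X m0 v) (D : Finset V) (hD : Co2_D G X m0 ⊆ D) :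
    ((D.filter fun w => G.Adj u w).image c).card +
      ((range m0).filter fun j => Ev G (X j) u).card ≤ (D.filter fun w => G.Adj u w).card := by
  set P := D.filter fun w => G.Adj u w with hP
  set Z := (range m0).filter fun j => Ev G (X j) u with hZ
  have h1 : P.card = ∑ k ∈ P.image c, (P.filter fun w => c w = k).card :=
    card_eq_sum_card_image c P
  have h2 : ∀ j ∈ Z, 2 ≤ (P.filter fun w => c w = j).card := by
    intro j hj
    rw [hZ, mem_filter, mem_range] at hj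
    obtain ⟨hj0, a, ha, b, hb, hab, h3, h4, h5, h6⟩ := hj
    have ha1 : a ∈ Co2_D G X m0 := Co2_memY hj0 ha h5
    have hb1 : b ∈ Co2_D G X m0 := Co2_memY hj0 hb h6
    have h7 : ({a, b} : Finset V) ⊆ P.filter fun w => c w = j := by
      intro w hw
      rw [mem_insert, mem_singleton] at hw
      rw [mem_filter, hP, mem_filter]
      rcases hw with rfl | rfl
      · exact ⟨⟨hD ha1, h3⟩, by rw [hc _ ha1]; exact Co2_c1X hX hj0 ha⟩
      · exact ⟨⟨hD hb1, h4⟩, by rw [hc _ hb1]; exact Co2_c1X hX hj0 hb⟩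
    have h8 := card_le_card h7
    rw [card_pair hab] at h8
    exact h8
  have h3 : Z ⊆ P.image c := by
    intro j hj
    have h4 := h2 j hj
    have h5 : (P.filter fun w => c w = j).Nonempty := card_pos.mp (by omega)
    obtain ⟨w, hw⟩ := h5
    rw [mem_filter] at hw
    exact mem_image.mpr ⟨w, hw.1, hw.2⟩
  have h4 : ∑ k ∈ P.image c, (1 + if k ∈ Z then 1 else 0) ≤
      ∑ k ∈ P.image c, (P.filter fun w => c w = k).card := by
    refine sum_le_sum fun k hk => ?_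
    split_ifs with hkZ
    · exact h2 k hkZ
    · obtain ⟨w, hw, hwk⟩ := mem_image.mp hk
      have h5 : (P.filter fun w => c w = k).Nonempty := ⟨w, mem_filter.mpr ⟨hw, hwk⟩⟩
      exact card_pos.mpr h5
  rw [sum_add_distrib, sum_const, smul_eq_mul, mul_one, ← sum_filter, sum_const, smul_eq_mul,
    mul_one] at h4
  have h5 : (P.image c).filter (fun k => k ∈ Z) = Z := by
    ext k
    rw [mem_filter]
    exact ⟨fun h => h.2, fun h => ⟨h3 h, h⟩⟩
  rw [h5, ← h1] at h4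
  exact h4

private theorem Co2_free (h : Xs G Δ N) (hm2 : (Δ : ℝ) - 5 * (Δ / (N : ℝ) ^ 8) ≤ m0)
    (hX : Sy G Δ N m0 X) (u : V) (c : V → ℕ)
    (hc : ∀ v ∈ Co2_D G X m0, c v = Co2_c X m0 v) (D : Finset V) (hD : Co2_D G X m0 ⊆ D) :
    (Δ : ℝ) / (N : ℝ) ^ 8 ≤ ((range m0).filter fun j => j ∉ (∅ : Finset ℕ) ∧
      ∀ w ∈ D, G.Adj u w → c w ≠ j).card := by
  have h1 := Co2_used hX u c hc D hD
  have h3 : (D.filter fun w => G.Adj u w).card ≤ Δ := by
    refine le_trans (card_le_card ?_) (h.up u)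
    exact filter_subset_filter _ (subset_univ D)
  have h4 : m0 ≤ ((range m0).filter fun j => j ∉ (∅ : Finset ℕ) ∧
      ∀ w ∈ D, G.Adj u w → c w ≠ j).card +
        ((D.filter fun w => G.Adj u w).image c).card := by
    have h5 : range m0 ⊆ ((range m0).filter fun j => j ∉ (∅ : Finset ℕ) ∧
        ∀ w ∈ D, G.Adj u w → c w ≠ j) ∪ (D.filter fun w => G.Adj u w).image c := by
      intro j hj
      rw [mem_union, mem_filter]
      by_cases h7 : ∀ w ∈ D, G.Adj u w → c w ≠ j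
      · exact Or.inl ⟨hj, notMem_empty j, h7⟩
      · push Not at h7
        obtain ⟨w, hw, hw1, hw2⟩ := h7
        exact Or.inr (mem_image.mpr ⟨w, mem_filter.mpr ⟨hw, hw1⟩, hw2⟩)
    have h6 := card_le_card h5
    rw [card_range] at h6
    exact h6.trans (card_union_le _ _)
  have h5 := hX.ev u
  have h7 : (1000 : ℝ) ≤ N := by exact_mod_cast h.hN
  have hN : (0 : ℝ) < N := by linarith
  have hΔ : (0 : ℝ) ≤ Δ := Nat.cast_nonneg _
  have h8 : (Δ : ℝ) / (100 * (N : ℝ) ^ 7) ≥ 10 * (Δ / (N : ℝ) ^ 8) := by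
    have e1 : (Δ : ℝ) / (100 * (N : ℝ) ^ 7) = (N / 100) * (Δ / (N : ℝ) ^ 8) := by
      field_simp
    rw [e1]
    have : (0 : ℝ) ≤ Δ / (N : ℝ) ^ 8 := by positivity
    apply mul_le_mul_of_nonneg_right _ this
    linarith
  have h10 : (0 : ℝ) ≤ Δ / (N : ℝ) ^ 8 := by positivity
  have g1 : (((D.filter fun w => G.Adj u w).image c).card : ℝ) +
      ((range m0).filter fun j => Ev G (X j) u).card ≤ Δ := by
    exact_mod_cast h1.trans h3
  have g4 : (m0 : ℝ) ≤ ((range m0).filter fun j => j ∉ (∅ : Finset ℕ) ∧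
      ∀ w ∈ D, G.Adj u w → c w ≠ j).card +
        (((D.filter fun w => G.Adj u w).image c).card : ℝ) := by
    exact_mod_cast h4
  linarith

private theorem Co2_B (hX : Sy G Δ N m0 X) (v : V) (j : ℕ) (hj : j < m0) :
    (((Co2_D G X m0).filter fun u => G.Adj v u ∧ Co2_c X m0 u = j).card : ℝ) ≤
      3 * (N : ℝ) := by
  have h1 : ((Co2_D G X m0).filter fun u => G.Adj v u ∧ Co2_c X m0 u = j) ⊆
      ((X j).filter fun u => G.Adj v u) := by
    intro u hu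
    rw [mem_filter] at hu
    rw [mem_filter]
    obtain ⟨hu0, hu1, hu2⟩ := hu
    obtain ⟨i, hi, h2, h3⟩ := Co2_mem hu0
    rw [Co2_c1X hX hi h2] at hu2
    subst hu2
    exact ⟨h2, hu1⟩
  have h2 := card_le_card h1
  have h3 := hX.fr j hj v
  unfold dn at h3
  have h4 := h2.trans h3
  exact_mod_cast h4

private theorem Co2_log (h : Xs G Δ N) (hm : m0 ≤ Δ) (v : V) :
    Real.log (Fintype.card V * m0) ≤ 2 * N + 1 := by
  have h7 : (1000 : ℝ) ≤ N := by exact_mod_cast h.hN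
  rcases Nat.eq_zero_or_pos (Fintype.card V * m0) with h0 | h0
  · have : ((Fintype.card V : ℝ) * m0) = 0 := by exact_mod_cast h0
    rw [this, Real.log_zero]
    linarith
  · have h1 : (0 : ℝ) < (Fintype.card V : ℝ) * m0 := by exact_mod_cast h0
    rw [Real.log_le_iff_le_exp h1, two_mul, Real.exp_add, Real.exp_add]
    have h2 := h.n2
    have h4 : m0 ≤ 2 * Fintype.card V := hm.trans (cv_s G Δ N h v)
    have h5 : (m0 : ℝ) ≤ 2 * (Fintype.card V : ℝ) := by exact_mod_cast h4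
    have h6 : (2 : ℝ) ≤ Real.exp 1 := by
      have := Real.add_one_le_exp (1 : ℝ)
      linarith
    have h8 : (m0 : ℝ) ≤ Real.exp N * Real.exp 1 := by
      have h9 : 2 * (Fintype.card V : ℝ) ≤ Real.exp 1 * Real.exp N :=
        mul_le_mul h6 h2 (Nat.cast_nonneg _) (Real.exp_pos _).le
      linarith
    rw [mul_assoc]
    exact mul_le_mul h2 h8 (Nat.cast_nonneg _) (Real.exp_pos _).le

end

theorem bn2 {V : Type} [Fintype V] (G : SimpleGraph V) (Δ N m0 : ℕ) (h : Xs G Δ N)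
    (hm : m0 ≤ Δ) (hm2 : (Δ : ℝ) - 5 * (Δ / (N : ℝ) ^ 8) ≤ m0) (X : ℕ → Finset V)
    (hX : Sy G Δ N m0 X) :
    ∃ c : V → ℕ, (∀ v, c v < m0) ∧ (∀ u v, G.Adj u v → c u ≠ c v) ∧
      ∀ v j, (univ.filter fun u => G.Adj v u ∧ c u = j).card ≤ 3 * N ^ 8 := by
  have h7 : (1000 : ℝ) ≤ N := by exact_mod_cast h.hN
  have hN0 : (0 : ℝ) < N := by linarith
  have hΔ0 : 0 < Δ := lt_of_lt_of_le (pow_pos (by have := h.hN; omega) _) h.hΔ
  have hΔ : (0 : ℝ) < Δ := by exact_mod_cast hΔ0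
  have hφ : (0 : ℝ) < (Δ : ℝ) / (N : ℝ) ^ 8 := by positivity
  obtain ⟨c, hc1, hc2, hc3⟩ := gr G m0 (Δ : ℝ) ((Δ : ℝ) / (N : ℝ) ^ 8) (3 * N) hφ
    (fun v => by exact_mod_cast h.up v) (Co2_D G X m0) (Co2_c X m0) (fun _ => ∅)
    (fun u _ c hc D hD _ => Co2_free h hm2 hX u c hc D hD)
    (fun v j hj => Co2_B hX v j hj)
  have hlt : ∀ v, c v < m0 := by
    intro v
    by_cases hv : v ∈ Co2_D G X m0
    · rw [hc1 v hv]
      obtain ⟨i, hi, h2, h3⟩ := Co2_mem hv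
      rw [Co2_c1X hX hi h2]
      exact hi
    · exact (hc2 v hv).1
  refine ⟨c, hlt, ?_, ?_⟩
  · intro u v huv
    by_cases hu1 : u ∈ Co2_D G X m0
    · by_cases hv1 : v ∈ Co2_D G X m0
      · obtain ⟨i, hi, h2, h3⟩ := Co2_mem hu1
        obtain ⟨j, hj, h4, h5⟩ := Co2_mem hv1
        rw [hc1 _ hu1, hc1 _ hv1, Co2_c1X hX hi h2, Co2_c1X hX hj h4]
        rintro rfl
        exact h3 v h4 huv
      · exact (hc2 v hv1).2.2 u huv.symm
    · exact ((hc2 u hu1).2.2 v huv).symm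
  · intro v j
    by_cases hj : j < m0
    · have h1 := hc3 v j hj
      have h2 := Co2_log (m0 := m0) h hm v
      have h3 : 2 * (Δ : ℝ) / ((Δ : ℝ) / (N : ℝ) ^ 8) = 2 * (N : ℝ) ^ 8 := by
        field_simp
      rw [h3] at h1
      have h4 : (5 : ℝ) * N + 1 ≤ (N : ℝ) ^ 8 := by
        have e1 : (N : ℝ) ^ 2 ≤ (N : ℝ) ^ 8 := pow_le_pow_right₀ (by linarith) (by norm_num)
        nlinarith
      have h5 : (((univ.filter fun u => G.Adj v u ∧ c u = j).card : ℕ) : ℝ) ≤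
          ((3 * N ^ 8 : ℕ) : ℝ) := by
        push_cast
        linarith
      exact_mod_cast h5
    · have h1 : (univ.filter fun u => G.Adj v u ∧ c u = j) = ∅ := by
        rw [filter_eq_empty_iff]
        rintro u - ⟨-, h2⟩
        exact hj (h2 ▸ hlt u)
      rw [h1, card_empty]
      exact Nat.zero_le _

theorem col2 {V : Type} [Fintype V] (G : SimpleGraph V) (Δ N : ℕ) (h : Xs G Δ N) :
    ∃ (m0 : ℕ) (c : V → ℕ), (∀ v, c v < m0) ∧ (∀ u v, G.Adj u v → c u ≠ c v) ∧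
      (m0 : ℝ) ≤ Δ - 4 * (Δ / (N : ℝ) ^ 8) ∧ Δ ≤ 2 * m0 ∧
      ∀ v j, (univ.filter fun u => G.Adj v u ∧ c u = j).card ≤ 3 * N ^ 8 := by
  have h7 : (1000 : ℝ) ≤ N := by exact_mod_cast h.hN
  have hN0 : (0 : ℝ) < N := by linarith
  have hΔ0 : 0 < Δ := lt_of_lt_of_le (pow_pos (by have := h.hN; omega) _) h.hΔ
  have hΔ : (0 : ℝ) < Δ := by exact_mod_cast hΔ0
  obtain ⟨t, ht⟩ : ∃ t : ℝ, t = (Δ : ℝ) / (N : ℝ) ^ 8 := ⟨_, rfl⟩
  have ht1 : 1 ≤ t := by
    rw [ht, le_div_iff₀ (by positivity), one_mul]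
    have h1 : (N : ℝ) ^ 250 ≤ Δ := by exact_mod_cast h.hΔ
    refine le_trans ?_ h1
    exact pow_le_pow_right₀ (by linarith) (by norm_num)
  have ht2 : 1000 * t ≤ Δ := by
    have h1 : t * (N : ℝ) ^ 8 = Δ := by
      rw [ht]
      field_simp
    have h2 : (1000 : ℝ) ≤ (N : ℝ) ^ 8 := by
      have e1 : (N : ℝ) ^ 1 ≤ (N : ℝ) ^ 8 := pow_le_pow_right₀ (by linarith) (by norm_num)
      rw [pow_one] at e1
      linarith
    nlinarith
  obtain ⟨m0, hm0⟩ : ∃ m0 : ℕ, m0 = ⌊(Δ : ℝ) - 4 * t⌋₊ := ⟨_, rfl⟩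
  have f1 : (m0 : ℝ) ≤ (Δ : ℝ) - 4 * t := by
    rw [hm0]
    exact Nat.floor_le (by linarith)
  have f2 : (Δ : ℝ) - 4 * t < m0 + 1 := by
    rw [hm0]
    exact Nat.lt_floor_add_one _
  have g1 : m0 ≤ Δ := by
    have : (m0 : ℝ) ≤ Δ := by linarith
    exact_mod_cast this
  have g2 : Δ ≤ 2 * m0 := by
    have : (Δ : ℝ) ≤ 2 * m0 := by linarith
    exact_mod_cast this
  have g3 : (Δ : ℝ) - 5 * (Δ / (N : ℝ) ^ 8) ≤ m0 := by
    rw [← ht]
    linarith
  obtain ⟨X, hX⟩ := sb2 G Δ N m0 h g1 g2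
  obtain ⟨c, hc1, hc2, hc3⟩ := bn2 G Δ N m0 h g1 g3 X hX
  refine ⟨m0, c, hc1, hc2, ?_, g2, hc3⟩
  rw [← ht]
  exact f1

end Pool.Agent.H12.LS
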