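import Mathlib
import Pool.Agent.H12.LS.Defs
import Pool.Agent.H12.LS.Gm
import Pool.Agent.H12.LS.Co2
import Pool.Agent.H12.LS.As1
import Pool.Agent.H71.DX.Fn2

/-!
AS2: the labelling for `p ≤ Δ / N ^ 60`. Compare `EX/Mx.lean` (proved from its imports; copy and adapt).

Proof.  `xs_t`, `col2` give `m0`, `c`. `T = m0 + p - 1`, `W t = univ.filter fun v => c v < t + p ∧ t < c v + p`. `as1`:
`hT`: `m0 + p - 1 ≤ Δ - 4 Δ / N ^ 8 + Δ / N ^ 60 ≤ Δ - 3 Δ / N ^ 8`; `hT2`: `Δ ≤ 2 m0`; `wc`: the `t` with `v ∈ W t` are in an interval with `2 p - 1`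
elements, `2 p - 1 ≤ 2 Δ / N ^ 60 ≤ Δ / N ^ 30`; `wd`: `dn G v (W t) ≤ (2 p - 1) * 3 N ^ 8 ≤ 6 Δ / N ^ 52 ≤ Δ / N ^ 50` (`W t` = the vertices with `c u`
in an interval of `2 p - 1` labels).
`final2` (`H71/DX/Fn2.lean`) with `k' = m0`, `L = T`, `mm` of `as1`: `hL`: `m0 + p - 1 ≤ T`; `hL2`: `T + 1 ≤ Δ + 2 p`; `hinv`, `hadj`, `hdis`,
`hfix`: `PM` (`v ∈ W ℓ` iff `c v < ℓ + p ∧ ℓ < c v + p`). `hd`: `dg G v ≤ Δ` and `#{ℓ < T : mm ℓ v = v} ≤ (2 p - 1) + 1`. `hind`: equality at `a` and `b` means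
(`dg ≤ Δ`, windows `≤ 2 p - 1`) that `a, b ∈ F0`, so the last claim of `as1` gives `ℓ < T` with `mm ℓ a = b`.
-/

set_option autoImplicit false

namespace Pool.Agent.H12.LS

open Finset Classical
open Pool.Agent.H71.DN Pool.Agent.H71.EX

private theorem As2_int (a p : ℕ) (hp : 1 ≤ p) :
    (Finset.Ico (a + 1 - p) (a + p)).card ≤ 2 * p - 1 := by
  rw [Nat.card_Ico]
  omega

theorem as2 {V : Type} [Fintype V] (G : SimpleGraph V) (Δ N p : ℕ) (h : Xt G Δ N) (hp : 1 ≤ p)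
    (hpN : p * N ^ 60 ≤ Δ) : H70.HY.HYLab G Δ p := by
  have hXs := xs_t G Δ N h
  obtain ⟨m0, c, hc, hprop, hm0, hm02, hfr⟩ := col2 G Δ N hXs
  have hN : (1000 : ℝ) ≤ N := by exact_mod_cast h.hN
  have hN0 : (0 : ℝ) < N := by linarith
  have hN1 : (1 : ℝ) ≤ N := by linarith
  have hΔ0 : (0 : ℝ) ≤ Δ := Nat.cast_nonneg _
  have hpN' : (p : ℝ) * (N : ℝ) ^ 60 ≤ Δ := by exact_mod_cast hpN
  have hp0 : (0 : ℝ) ≤ p := Nat.cast_nonneg _
  have hpr : (p : ℝ) ≤ Δ / (N : ℝ) ^ 60 := by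
    rw [le_div_iff₀ (by positivity)]
    exact hpN'
  have h8 : (Δ : ℝ) / (N : ℝ) ^ 60 ≤ Δ / (N : ℝ) ^ 8 :=
    div_le_div_of_nonneg_left hΔ0 (by positivity) (pow_le_pow_right₀ hN1 (by norm_num))
  have hsub : ((2 * p - 1 : ℕ) : ℝ) ≤ 2 * p := by
    have : 2 * p - 1 ≤ 2 * p := Nat.sub_le _ _
    exact_mod_cast this
  obtain ⟨W, hW⟩ : ∃ W : ℕ → Finset V,
      ∀ t, W t = univ.filter fun v => c v < t + p ∧ t < c v + p := ⟨_, fun _ => rfl⟩
  have hmem : ∀ t v, v ∈ W t ↔ c v < t + p ∧ t < c v + p := by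
    intro t v
    rw [hW, Finset.mem_filter]
    exact ⟨fun h => h.2, fun h => ⟨Finset.mem_univ _, h⟩⟩
  have hwc : ∀ v, ((range (m0 + p - 1)).filter fun t => v ∈ W t).card ≤ 2 * p - 1 := by
    intro v
    refine (Finset.card_le_card fun t ht => ?_).trans (As2_int (c v) p hp)
    rw [Finset.mem_filter, hmem] at ht
    rw [Finset.mem_Ico]
    omega
  have hT : ((m0 + p - 1 : ℕ) : ℝ) ≤ Δ - 3 * (Δ / (N : ℝ) ^ 8) := by
    have h1 : ((m0 + p - 1 : ℕ) : ℝ) ≤ m0 + p := by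
      have : m0 + p - 1 ≤ m0 + p := Nat.sub_le _ _
      exact_mod_cast this
    linarith
  have hT2 : Δ ≤ 2 * (m0 + p - 1) := by omega
  have hwc' : ∀ v, (((range (m0 + p - 1)).filter fun t => v ∈ W t).card : ℝ) ≤
      Δ / (N : ℝ) ^ 30 := by
    intro v
    have h1 : (((range (m0 + p - 1)).filter fun t => v ∈ W t).card : ℝ) ≤
        ((2 * p - 1 : ℕ) : ℝ) := by exact_mod_cast hwc v
    refine (h1.trans hsub).trans ?_
    rw [le_div_iff₀ (by positivity)]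
    have e1 : (2 : ℝ) * p * (N : ℝ) ^ 30 ≤ (N : ℝ) ^ 30 * (p * (N : ℝ) ^ 30) := by
      have h2 : (0 : ℝ) ≤ p * (N : ℝ) ^ 30 := by positivity
      have h3 : (2 : ℝ) ≤ (N : ℝ) ^ 30 := by
        have h4 : (N : ℝ) ^ 1 ≤ (N : ℝ) ^ 30 := pow_le_pow_right₀ hN1 (by norm_num)
        rw [pow_one] at h4
        linarith
      nlinarith
    have e2 : (N : ℝ) ^ 30 * (p * (N : ℝ) ^ 30) = p * (N : ℝ) ^ 60 := by ring
    linarith
  have hwd : ∀ t < m0 + p - 1, ∀ v, (dn G v (W t) : ℝ) ≤ Δ / (N : ℝ) ^ 50 := by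
    intro t _ v
    have h1 : dn G v (W t) ≤ (2 * p - 1) * (3 * N ^ 8) := by
      unfold dn
      have h2 : (W t).filter (fun u => G.Adj v u) ⊆
          (Finset.Ico (t + 1 - p) (t + p)).biUnion
            fun j => univ.filter fun u => G.Adj v u ∧ c u = j := by
        intro u hu
        rw [Finset.mem_filter, hmem] at hu
        rw [Finset.mem_biUnion]
        refine ⟨c u, ?_, ?_⟩
        · rw [Finset.mem_Ico]
          omega
        · rw [Finset.mem_filter]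
          exact ⟨Finset.mem_univ _, hu.2, rfl⟩
      refine (Finset.card_le_card h2).trans ((Finset.card_biUnion_le_card_mul _ _ _
        fun j _ => hfr v j).trans ?_)
      exact Nat.mul_le_mul_right _ (As2_int t p hp)
    have h2 : (dn G v (W t) : ℝ) ≤ ((2 * p - 1 : ℕ) : ℝ) * (3 * (N : ℝ) ^ 8) := by
      exact_mod_cast h1
    refine h2.trans ((mul_le_mul_of_nonneg_right hsub (by positivity)).trans ?_)
    rw [le_div_iff₀ (by positivity)]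
    have e1 : (2 : ℝ) * p * (3 * (N : ℝ) ^ 8) * (N : ℝ) ^ 50 = 6 * (p * (N : ℝ) ^ 58) := by ring
    have e2 : (p : ℝ) * (N : ℝ) ^ 60 = N ^ 2 * (p * (N : ℝ) ^ 58) := by ring
    have e3 : (6 : ℝ) ≤ (N : ℝ) ^ 2 := by nlinarith
    have e4 : 6 * ((p : ℝ) * (N : ℝ) ^ 58) ≤ N ^ 2 * (p * (N : ℝ) ^ 58) :=
      mul_le_mul_of_nonneg_right e3 (by positivity)
    linarith
  obtain ⟨F0, mm, hPM, hcnt, hlast⟩ := as1 G Δ N (m0 + p - 1) h W hT hT2 hwc' hwd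
  have hm0' : m0 ≤ Δ := by
    have h1 : (0 : ℝ) ≤ Δ / (N : ℝ) ^ 8 := by positivity
    have h2 : (m0 : ℝ) ≤ Δ := by linarith
    exact_mod_cast h2
  have hF : ∀ a, dg G a + ((range (m0 + p - 1)).filter fun ℓ => mm ℓ a = a).card =
      Δ + 2 * p → a ∈ F0 := by
    intro a ha
    by_contra hn
    have h1 := hcnt a
    rw [if_neg hn] at h1
    have h2 := hwc a
    have h3 := h.up a
    omega
  refine H71.DX.final2 G Δ p m0 (m0 + p - 1) hp le_rfl (by omega) c hc hprop mm hPM.inv hPM.adj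
    hPM.dis ?_ ?_ ?_
  · intro ℓ hℓ v h1 h2
    exact hPM.fix ℓ hℓ v ((hmem ℓ v).2 ⟨h1, h2⟩)
  · intro v
    have h1 := hcnt v
    have h2 := hwc v
    have h3 := h.up v
    have h4 : (if v ∈ F0 then 1 else 0 : ℕ) ≤ 1 := by split_ifs <;> omega
    omega
  · intro a b hab ha hb
    exact hlast a (hF a ha) b (hF b hb) hab

end Pool.Agent.H12.LS
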