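import Mathlib

/-!
NU2: the choice of `b` and `N0` (pure numerics).

Proof.  `b = min (δ / 100) (1 / 300)`, `N0 = ⌈Δ ^ b⌉₊`. For large `Δ` (depending on `b`, `C`): `1000 ≤ Δ ^ b ≤ N0 ≤ 2 Δ ^ b`,
so `8 N0 ≤ 16 Δ ^ b`. `(8 N0) ^ 250 ≤ 16 ^ 250 Δ ^ (250 b) ≤ Δ ^ (300 b) ≤ Δ`; `Δ / N0 ≤ Δ ^ (1 - b)`;
`(8 N0) ^ 60 Δ ≤ 16 ^ 60 Δ ^ (60 b) Δ ≤ Δ ^ (1 + 100 b) ≤ Δ ^ (1 + δ)`; `12 Δ ^ 2 ≤ exp (7 N0)` (`exp (7 Δ ^ b)` beats `12 Δ ^ 2`) and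
`exp (Δ ^ b) ≤ exp N0`; `C Δ ^ (3/4) (log Δ) ^ (1/4) (8 N0) ^ 60 ≤ C 16 ^ 60 Δ ^ (3/4 + 1/5) (log Δ) ^ (1/4) ≤ Δ` (compare `ev4` in `H71/SX/MnS.lean`).
Use `Filter.eventually_atTop` for each condition (`tendsto_rpow_atTop`, `isLittleO_log_rpow_rpow_atTop`,
`isLittleO_rpow_exp_pos_mul_atTop` or `Real.add_pow_le_pow_mul_pow_of_add_eq_one`, ...).
-/

set_option autoImplicit false

namespace Pool.Agent.H12.LS

theorem nu2 (δ : ℝ) (hδ : 0 < δ) : ∃ b : ℝ, 0 < b ∧ ∀ C : ℝ, ∃ Δ0 : ℕ, ∀ Δ : ℕ, Δ0 ≤ Δ →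
    2 ≤ Δ ∧ ∃ N0 : ℕ, 1000 ≤ N0 ∧ (8 * N0) ^ 250 ≤ Δ ∧
      (Δ : ℝ) / N0 ≤ (Δ : ℝ) ^ (1 - b) ∧
      (((8 * N0) ^ 60 * Δ : ℕ) : ℝ) ≤ (Δ : ℝ) ^ (1 + δ) ∧
      Real.exp ((Δ : ℝ) ^ b) * (12 * (Δ : ℝ) ^ 2) ≤ Real.exp ((8 * N0 : ℕ) : ℝ) ∧
      C * (Δ : ℝ) ^ (3 / 4 : ℝ) * (Real.log Δ) ^ (1 / 4 : ℝ) * (((8 * N0) ^ 60 : ℕ) : ℝ) ≤ Δ := by
  obtain ⟨b, hb0, hb1, hb2⟩ : ∃ b : ℝ, 0 < b ∧ 100 * b ≤ δ ∧ 300 * b ≤ 1 := by
    refine ⟨min (δ / 100) (1 / 300), ?_, ?_, ?_⟩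
    · exact lt_min (by positivity) (by norm_num)
    · have := min_le_left (δ / 100) (1 / 300 : ℝ)
      linarith
    · have := min_le_right (δ / 100) (1 / 300 : ℝ)
      linarith
  refine ⟨b, hb0, fun C => ?_⟩
  have e1 : ∀ᶠ n : ℕ in Filter.atTop, (1048576 : ℝ) ≤ (n : ℝ) ^ b :=
    ((tendsto_rpow_atTop hb0).comp tendsto_natCast_atTop_atTop).eventually_ge_atTop _
  have elog : ∀ a : ℝ, 0 < a → ∀ᶠ n : ℕ in Filter.atTop, Real.log (n : ℝ) ≤ (n : ℝ) ^ a := by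
    intro a ha
    have h := (isLittleO_log_rpow_atTop ha).bound one_pos
    have h2 := tendsto_natCast_atTop_atTop.eventually h
    filter_upwards [h2] with n hn
    have h3 : (0 : ℝ) ≤ (n : ℝ) ^ a := Real.rpow_nonneg (Nat.cast_nonneg n) a
    have h4 := le_trans (le_abs_self (Real.log (n : ℝ))) hn
    simpa [Real.norm_eq_abs, abs_of_nonneg h3] using h4
  have e2 := elog b hb0
  have e3 : ∀ᶠ n : ℕ in Filter.atTop, |C| ≤ (n : ℝ) ^ (1 / 200 : ℝ) :=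
    ((tendsto_rpow_atTop (by norm_num : (0 : ℝ) < 1 / 200)).comp
      tendsto_natCast_atTop_atTop).eventually_ge_atTop _
  have e4 := elog (1 / 50) (by norm_num)
  have e5 : ∀ᶠ n : ℕ in Filter.atTop, 2 ≤ n := Filter.eventually_ge_atTop 2
  obtain ⟨Δ0, hall⟩ :=
    Filter.eventually_atTop.mp (e1.and (e2.and (e3.and (e4.and e5))))
  refine ⟨Δ0, fun Δ hΔ => ?_⟩
  obtain ⟨h1, h2, h3, h4, h5⟩ := hall Δ hΔ
  refine ⟨h5, ⌈(Δ : ℝ) ^ b⌉₊, ?_⟩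
  have hD2 : (2 : ℝ) ≤ (Δ : ℝ) := by exact_mod_cast h5
  have hD1 : (1 : ℝ) ≤ (Δ : ℝ) := by linarith
  have hD0 : (0 : ℝ) < (Δ : ℝ) := by linarith
  have hDn : (0 : ℝ) ≤ (Δ : ℝ) := hD0.le
  generalize hx : (Δ : ℝ) ^ b = x at *
  have hx0 : 0 < x := by linarith
  have hxn : 0 ≤ x := hx0.le
  have hx1 : 1 ≤ x := by linarith
  have hN1 : x ≤ (⌈x⌉₊ : ℝ) := Nat.le_ceil x
  have hN2 : (⌈x⌉₊ : ℝ) ≤ 2 * x := by
    have := Nat.ceil_lt_add_one hxn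
    linarith
  generalize hN : ⌈x⌉₊ = N at *
  have hy0 : (0 : ℝ) ≤ 8 * (N : ℝ) := by positivity
  have hy1 : 8 * (N : ℝ) ≤ 16 * x := by linarith
  -- the main comparison
  have hy5 : (8 * (N : ℝ)) ^ 5 ≤ x ^ 6 := by
    calc (8 * (N : ℝ)) ^ 5 ≤ (16 * x) ^ 5 := pow_le_pow_left₀ hy0 hy1 5
      _ = 1048576 * x ^ 5 := by ring
      _ ≤ x * x ^ 5 := mul_le_mul_of_nonneg_right h1 (by positivity)
      _ = x ^ 6 := by ring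
  have hy60 : (8 * (N : ℝ)) ^ 60 ≤ x ^ 72 := by
    calc (8 * (N : ℝ)) ^ 60 = ((8 * (N : ℝ)) ^ 5) ^ 12 := by rw [← pow_mul]
      _ ≤ (x ^ 6) ^ 12 := pow_le_pow_left₀ (by positivity) hy5 12
      _ = x ^ 72 := by rw [← pow_mul]
  have hy250 : (8 * (N : ℝ)) ^ 250 ≤ x ^ 300 := by
    calc (8 * (N : ℝ)) ^ 250 = ((8 * (N : ℝ)) ^ 5) ^ 50 := by rw [← pow_mul]
      _ ≤ (x ^ 6) ^ 50 := pow_le_pow_left₀ (by positivity) hy5 50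
      _ = x ^ 300 := by rw [← pow_mul]
  have hxpow : ∀ k : ℕ, x ^ k = (Δ : ℝ) ^ (b * (k : ℝ)) := by
    intro k
    rw [← hx, Real.rpow_mul hDn, Real.rpow_natCast]
  have hx300 : x ^ 300 ≤ (Δ : ℝ) := by
    rw [hxpow 300]
    calc (Δ : ℝ) ^ (b * ((300 : ℕ) : ℝ)) ≤ (Δ : ℝ) ^ (1 : ℝ) := by
          apply Real.rpow_le_rpow_of_exponent_le hD1
          push_cast
          linarith
      _ = (Δ : ℝ) := Real.rpow_one _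
  have hx72 : x ^ 72 ≤ (Δ : ℝ) ^ (6 / 25 : ℝ) := by
    rw [hxpow 72]
    apply Real.rpow_le_rpow_of_exponent_le hD1
    push_cast
    linarith
  have hx72d : x ^ 72 ≤ (Δ : ℝ) ^ δ := by
    rw [hxpow 72]
    apply Real.rpow_le_rpow_of_exponent_le hD1
    push_cast
    linarith
  refine ⟨?_, ?_, ?_, ?_, ?_, ?_⟩
  · have : (1000 : ℝ) ≤ (N : ℝ) := by linarith
    exact_mod_cast this
  · have : (8 * (N : ℝ)) ^ 250 ≤ (Δ : ℝ) := hy250.trans hx300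
    exact_mod_cast this
  · have hNpos : (0 : ℝ) < (N : ℝ) := by linarith
    rw [Real.rpow_sub hD0, Real.rpow_one, hx]
    exact div_le_div_of_nonneg_left hDn hx0 hN1
  · have h6 : (((8 * N) ^ 60 * Δ : ℕ) : ℝ) = (8 * (N : ℝ)) ^ 60 * (Δ : ℝ) := by
      push_cast
      ring
    rw [h6, add_comm (1 : ℝ) δ, Real.rpow_add hD0, Real.rpow_one]
    exact mul_le_mul_of_nonneg_right (hy60.trans hx72d) hDn
  · have h9 : (Δ : ℝ) ≤ Real.exp x := by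
      calc (Δ : ℝ) = Real.exp (Real.log (Δ : ℝ)) := (Real.exp_log hD0).symm
        _ ≤ Real.exp x := Real.exp_le_exp.mpr h2
    have h8 : (12 : ℝ) ≤ Real.exp x := by
      have := Real.add_one_le_exp x
      linarith
    have h10 : 12 * (Δ : ℝ) ^ 2 ≤ Real.exp (3 * x) := by
      calc 12 * (Δ : ℝ) ^ 2 ≤ Real.exp x * (Real.exp x) ^ 2 :=
            mul_le_mul h8 (pow_le_pow_left₀ hDn h9 2) (by positivity) (Real.exp_pos x).le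
        _ = Real.exp (3 * x) := by
            rw [← Real.exp_nat_mul, ← Real.exp_add]
            have h11 : x + ((2 : ℕ) : ℝ) * x = 3 * x := by
              push_cast
              ring
            rw [h11]
    calc Real.exp x * (12 * (Δ : ℝ) ^ 2)
        ≤ Real.exp x * Real.exp (3 * x) :=
          mul_le_mul_of_nonneg_left h10 (Real.exp_pos x).le
      _ = Real.exp (x + 3 * x) := (Real.exp_add _ _).symm
      _ ≤ Real.exp (((8 * N : ℕ)) : ℝ) := by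
          apply Real.exp_le_exp.mpr
          push_cast
          linarith
  · have h6 : (((8 * N) ^ 60 : ℕ) : ℝ) = (8 * (N : ℝ)) ^ 60 := by
      push_cast
      ring
    rw [h6]
    have hl0 : 0 ≤ Real.log (Δ : ℝ) := Real.log_nonneg hD1
    have h7 : (Real.log (Δ : ℝ)) ^ (1 / 4 : ℝ) ≤ (Δ : ℝ) ^ (1 / 200 : ℝ) := by
      calc (Real.log (Δ : ℝ)) ^ (1 / 4 : ℝ) ≤ ((Δ : ℝ) ^ (1 / 50 : ℝ)) ^ (1 / 4 : ℝ) :=
            Real.rpow_le_rpow hl0 h4 (by norm_num)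
        _ = (Δ : ℝ) ^ (1 / 200 : ℝ) := by
            rw [← Real.rpow_mul hDn]
            norm_num
    have h8 : C ≤ (Δ : ℝ) ^ (1 / 200 : ℝ) := (le_abs_self C).trans h3
    have p1 : (0 : ℝ) ≤ (Δ : ℝ) ^ (3 / 4 : ℝ) := Real.rpow_nonneg hDn _
    have p2 : (0 : ℝ) ≤ (Real.log (Δ : ℝ)) ^ (1 / 4 : ℝ) := Real.rpow_nonneg hl0 _
    have p3 : (0 : ℝ) ≤ (8 * (N : ℝ)) ^ 60 := pow_nonneg hy0 60
    have p4 : (0 : ℝ) ≤ (Δ : ℝ) ^ (1 / 200 : ℝ) := Real.rpow_nonneg hDn _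
    have p5 : (0 : ℝ) ≤ (Δ : ℝ) ^ (6 / 25 : ℝ) := Real.rpow_nonneg hDn _
    calc C * (Δ : ℝ) ^ (3 / 4 : ℝ) * (Real.log (Δ : ℝ)) ^ (1 / 4 : ℝ) * (8 * (N : ℝ)) ^ 60
        ≤ (Δ : ℝ) ^ (1 / 200 : ℝ) * (Δ : ℝ) ^ (3 / 4 : ℝ) * (Real.log (Δ : ℝ)) ^ (1 / 4 : ℝ) *
            (8 * (N : ℝ)) ^ 60 := by
          apply mul_le_mul_of_nonneg_right _ p3
          apply mul_le_mul_of_nonneg_right _ p2
          exact mul_le_mul_of_nonneg_right h8 p1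
      _ ≤ (Δ : ℝ) ^ (1 / 200 : ℝ) * (Δ : ℝ) ^ (3 / 4 : ℝ) * (Δ : ℝ) ^ (1 / 200 : ℝ) *
            (Δ : ℝ) ^ (6 / 25 : ℝ) := by
          apply mul_le_mul _ (hy60.trans hx72) p3 (by positivity)
          exact mul_le_mul_of_nonneg_left h7 (by positivity)
      _ = (Δ : ℝ) ^ (1 : ℝ) := by
          rw [← Real.rpow_add hD0, ← Real.rpow_add hD0, ← Real.rpow_add hD0]
          norm_num
      _ = (Δ : ℝ) := Real.rpow_one _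

end Pool.Agent.H12.LS
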