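import Mathlib
import Pool.Agent.H12.LS.Defs
import Pool.Agent.H12.LS.Nu2
import Pool.Agent.H84.RG.Re
import Pool.Agent.H12.LS.As2
import Pool.Agent.H70.HY.Main
import Pool.Agent.H2.HV.FIN

/-!
FIN2: the theorem.

Proof.  `C` from `H2.HV.main_hv`; `nu2` for `δ` gives `b` and, with this `C`, `Δ0`. Let `Δ = G.maxDegree ≥ Δ0` and `N0` as in `nu2`. Let `p ≥ 1`.
If `C Δ ^ (3/4) (log Δ) ^ (1/4) ≤ p`: `main_hv`. Otherwise `p (8 N0) ^ 60 ≤ Δ` by the last inequality of `nu2`. The regularisation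
(`Pool/Agent/H84/RG/Re.lean`) for `G`: `up`: `dg G v = G.degree v ≤ G.maxDegree`; `hs`, `hb`: the hypotheses and `Δ / N0 ≤ Δ ^ (1 - b)`; `hn`: the
hypothesis on `#V` and `nu2`. It gives `G'`, `φ` with `Xt G' Δ (8 N0)`; `as2` gives `HYLab G' Δ p`, and `H70.HY.HYLab.comap` (`H70/HY/Main.lean`) `HYLab G Δ p`.
-/

set_option autoImplicit false

namespace Pool.Agent.H12.LS

open Finset Classical
open Pool.Agent.H71.DN Pool.Agent.H71.EX

private theorem Fin2_dg {V : Type} [Fintype V] (G : SimpleGraph V) [DecidableRel G.Adj] (v : V) :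
    dg G v ≤ G.maxDegree := by
  have h1 : dg G v = G.degree v := by
    unfold dg
    rw [← SimpleGraph.card_neighborFinset_eq_degree]
    apply congrArg
    ext u
    simp
  rw [h1]
  exact G.degree_le_maxDegree v

theorem fin2 (δ : ℝ) (hδ : 0 < δ) : ∃ b : ℝ, 0 < b ∧ ∃ Δ0 : ℕ,
    ∀ (V : Type) [Fintype V] (G : SimpleGraph V) [DecidableRel G.Adj],
      Δ0 ≤ G.maxDegree →
      (Fintype.card V : ℝ) ≤ Real.exp ((G.maxDegree : ℝ) ^ b) →
      (∀ S : Finset V, (S.card : ℝ) ≤ (G.maxDegree : ℝ) ^ (1 + δ) →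
        (ee G S S : ℝ) ≤ ((G.maxDegree : ℝ) - (G.maxDegree : ℝ) ^ (1 - b)) * S.card) →
      (∀ A B : Finset V, Disjoint A B → 2 * (ee G A B : ℝ) ≤
        ((G.maxDegree : ℝ) - (G.maxDegree : ℝ) ^ (1 - b)) * (A.card + B.card)) →
      ∀ p : ℕ, 1 ≤ p → H70.HY.HYLab G G.maxDegree p := by
  obtain ⟨C, hC, hmain⟩ := H2.HV.main_hv
  obtain ⟨b, hb, hnu⟩ := nu2 δ hδ
  obtain ⟨Δ0, hΔ0⟩ := hnu C
  refine ⟨b, hb, Δ0, ?_⟩
  intro V _ G _ hΔ hcard hS hAB p hp
  obtain ⟨h2, N0, hN0, hN250, hdiv, hpow, hexp, hCC⟩ := hΔ0 _ hΔ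
  by_cases hbig : C * (G.maxDegree : ℝ) ^ (3 / 4 : ℝ) * (Real.log G.maxDegree) ^ (1 / 4 : ℝ) ≤
      (p : ℝ)
  · exact hmain V G p h2 hbig
  · rw [not_le] at hbig
    have hp60 : p * (8 * N0) ^ 60 ≤ G.maxDegree := by
      have h3 : ((p * (8 * N0) ^ 60 : ℕ) : ℝ) ≤ G.maxDegree := by
        refine le_trans ?_ hCC
        rw [Nat.cast_mul]
        exact mul_le_mul_of_nonneg_right hbig.le (Nat.cast_nonneg _)
      exact_mod_cast h3
    have hmono : ∀ x : ℝ, 0 ≤ x → ((G.maxDegree : ℝ) - (G.maxDegree : ℝ) ^ (1 - b)) * x ≤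
        ((G.maxDegree : ℝ) - (G.maxDegree : ℝ) / N0) * x := by
      intro x hx
      exact mul_le_mul_of_nonneg_right (by linarith) hx
    obtain ⟨W, _, G', φ, hφ, hadj, hX⟩ := H84.RG.re2 G G.maxDegree N0 hN0 hN250
      (by
        refine le_trans ?_ hexp
        exact mul_le_mul_of_nonneg_right hcard (by positivity))
      (Fin2_dg G)
      (fun S hSc => by
        refine le_trans (hS S ?_) (hmono _ (Nat.cast_nonneg _))
        exact le_trans (by exact_mod_cast hSc) hpow)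
      (fun A B hd => by
        refine le_trans (hAB A B hd) (hmono _ ?_)
        positivity)
    exact H70.HY.HYLab.comap φ hφ hadj (as2 G' G.maxDegree (8 * N0) p hX hp hp60)

end Pool.Agent.H12.LS
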