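import Mathlib
import Pool.Agent.H12.LS.Defs
import Pool.Agent.H12.LS.Rgg

/-!
RE1: nearly `q`-regular random graphs on `Fin M`.

Proof.  If `q ≤ Δ / N ^ 22` take `Γ = ⊥`. Otherwise let `d = q - Δ / (2 N ^ 22) > 0` (real), `k = ⌈M / d⌉₊`; `k ≥ 1`,
`M / k ≤ d`, and `M / k ≥ M / (M / d + 1) = d / (1 + d / M) ≥ d - d ^ 2 / M ≥ d - Δ / (2 N ^ 60)` (`d ≤ Δ`, `M ≥ 2 N ^ 60 Δ`).
`rgg` for `G = ⊤` on `Fin M` with this `k`, `D = M`, `ε = Δ / N ^ 24`, `l = 1 / N ^ 25`: `l ε - l ^ 2 D / k ≥ Δ / N ^ 49 - Δ / N ^ 50 ≥ Δ / (2 N ^ 49)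
≥ N ^ 200`, and `16 M exp (- κ) < 1`, since `M ≤ Δ ^ 2` and `κ ≥ Δ / (2 N ^ 49) ≥ Δ ^ (1/2) ≥ ...` (for instance: `Δ / (2 N ^ 49) ≥ Δ ^ (4/5) / 2`, as
`N ^ 250 ≤ Δ`; or `exp κ ≥ κ ^ 5 / 120 ≥ Δ ^ 5 / (120 * 32 N ^ 245) ≥ Δ ^ 4 / 3840 > 16 Δ ^ 2`, `Real.pow_div_factorial_le_exp`).
`dg ⊤ i = M - 1`, so `dg Γ i ≤ (M - 1) / k + ε ≤ d + ε ≤ q` and `dg Γ i ≥ (M - 1) / k - ε ≥ d - Δ / (2 N ^ 60) - 1 - ε ≥ q - Δ / N ^ 22`.
`ee ⊤ A B = #A #B` for disjoint `A`, `B`: `ee Γ A B ≤ #A #B / k + ε (#A + #B)`, `1 / k ≤ d / M ≤ q / M`.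
`ee Γ S S = ∑ i ∈ S, dg Γ i - ee Γ S (univ \ S) ≤ #S ((M - 1) / k + ε) - #S (M - #S) / k + ε #S ≤ #S ^ 2 / k + 2 ε #S`.
-/

set_option autoImplicit false

namespace Pool.Agent.H12.LS

open Finset Classical
open Pool.Agent.H71.DN Pool.Agent.H71.EX

private lemma Re1_top {V : Type} [Fintype V] (A B : Finset V) (h : Disjoint A B) :
    ee (⊤ : SimpleGraph V) A B = A.card * B.card := by
  unfold ee
  rw [← Finset.card_product]
  congr 1
  ext x
  simp only [Finset.mem_filter, and_iff_left_iff_imp]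
  intro hx
  rw [Finset.mem_product] at hx
  rw [SimpleGraph.top_adj]
  intro e
  exact Finset.disjoint_left.mp h hx.1 (e ▸ hx.2)

private lemma Re1_dgtop {M : ℕ} (v : Fin M) :
    (dg (⊤ : SimpleGraph (Fin M)) v : ℝ) = (M : ℝ) - 1 := by
  have h1 : dg (⊤ : SimpleGraph (Fin M)) v = (univ.erase v).card := by
    unfold dg
    congr 1
    ext u
    simp only [Finset.mem_filter, Finset.mem_erase, SimpleGraph.top_adj]
    exact ⟨fun h => ⟨h.2.symm, h.1⟩, fun h => ⟨h.2, h.1.symm⟩⟩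
  have h2 : dg (⊤ : SimpleGraph (Fin M)) v = M - 1 := by
    rw [h1, Finset.card_erase_of_mem (Finset.mem_univ v), Finset.card_univ, Fintype.card_fin]
  rw [h2, Nat.cast_sub (by have := v.isLt; omega)]
  norm_num

private lemma Re1_split {V : Type} [Fintype V] (G : SimpleGraph V) (S : Finset V) :
    (ee G S S : ℝ) + ee G S (univ \ S) = ∑ v ∈ S, (dg G v : ℝ) := by
  have h : ee G S S + ee G S (univ \ S) = ∑ v ∈ S, dg G v := by
    unfold ee dg
    rw [Finset.card_filter, Finset.card_filter, Finset.sum_product, Finset.sum_product,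
      ← Finset.sum_add_distrib]
    refine Finset.sum_congr rfl fun v _ => ?_
    rw [Finset.card_filter, ← Finset.sum_sdiff (Finset.subset_univ S), add_comm]
  rw [← Nat.cast_add, h, Nat.cast_sum]

private lemma Re1_S {V : Type} [Fintype V] (R : SimpleGraph V) (S : Finset V) (x ε : ℝ)
    (h0 : 0 ≤ x) (hd : ∀ v, (dg R v : ℝ) ≤ ((Fintype.card V : ℝ) - 1) * x + ε)
    (hr : (ee (⊤ : SimpleGraph V) S (univ \ S) : ℝ) * x - ε * S.card ≤ ee R S (univ \ S)) :
    (ee R S S : ℝ) ≤ (S.card : ℝ) ^ 2 * x + 2 * ε * S.card := by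
  have h1 := Re1_split R S
  rw [Re1_top S (univ \ S) Finset.disjoint_sdiff, Nat.cast_mul,
    Finset.card_sdiff_of_subset (Finset.subset_univ S), Finset.card_univ,
    Nat.cast_sub (Finset.card_le_univ S)] at hr
  have h3 : ∑ v ∈ S, (dg R v : ℝ) ≤ S.card * (((Fintype.card V : ℝ) - 1) * x + ε) := by
    calc ∑ v ∈ S, (dg R v : ℝ) ≤ ∑ _v ∈ S, (((Fintype.card V : ℝ) - 1) * x + ε) :=
          Finset.sum_le_sum fun v _ => hd v
      _ = S.card * (((Fintype.card V : ℝ) - 1) * x + ε) := by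
          rw [Finset.sum_const, nsmul_eq_mul]
  have h4 : (S.card : ℝ) * (((Fintype.card V : ℝ) - 1) * x + ε) -
      ((S.card : ℝ) * ((Fintype.card V : ℝ) - S.card) * x - ε * S.card) =
      (S.card : ℝ) ^ 2 * x - S.card * x + 2 * ε * S.card := by ring
  have h8 : 0 ≤ (S.card : ℝ) * x := by positivity
  linarith

theorem re1 (Δ N M q : ℕ) (hN : 1000 ≤ N) (hΔ : N ^ 250 ≤ Δ) (hM : 2 * (N ^ 60 * Δ) ≤ M)
    (hM2 : M ≤ Δ ^ 2) (hq : q ≤ Δ) :
    ∃ Γ : SimpleGraph (Fin M), (∀ i, dg Γ i ≤ q) ∧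
      (∀ i, (q : ℝ) - Δ / (N : ℝ) ^ 22 ≤ dg Γ i) ∧
      (∀ A B : Finset (Fin M), Disjoint A B →
        (ee Γ A B : ℝ) ≤ (A.card : ℝ) * B.card * q / M + Δ / (N : ℝ) ^ 22 * (A.card + B.card)) ∧
      ∀ S : Finset (Fin M),
        (ee Γ S S : ℝ) ≤ (S.card : ℝ) ^ 2 * q / M + Δ / (N : ℝ) ^ 22 * S.card := by
  have hn : (1000 : ℝ) ≤ N := by exact_mod_cast hN
  have hD : (N : ℝ) ^ 250 ≤ Δ := by exact_mod_cast hΔ
  have hm : 2 * ((N : ℝ) ^ 60 * Δ) ≤ M := by exact_mod_cast hM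
  have hm2 : (M : ℝ) ≤ (Δ : ℝ) ^ 2 := by exact_mod_cast hM2
  have hQ : (q : ℝ) ≤ Δ := by exact_mod_cast hq
  obtain ⟨n, hndef⟩ : ∃ n : ℝ, n = (N : ℝ) := ⟨_, rfl⟩
  obtain ⟨D, hDdef⟩ : ∃ D : ℝ, D = (Δ : ℝ) := ⟨_, rfl⟩
  obtain ⟨m, hmdef⟩ : ∃ m : ℝ, m = (M : ℝ) := ⟨_, rfl⟩
  obtain ⟨Q, hQdef⟩ : ∃ Q : ℝ, Q = (q : ℝ) := ⟨_, rfl⟩
  simp only [← hndef, ← hDdef, ← hmdef, ← hQdef] at hn hD hm hm2 hQ ⊢
  have hn0 : 0 < n := by linarith
  have hn1 : 1 ≤ n := by linarith
  have hQ0 : 0 ≤ Q := by rw [hQdef]; positivity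
  have hn250 : n ^ 1 ≤ n ^ 250 := pow_le_pow_right₀ hn1 (by norm_num)
  have hDn : 1000 ≤ D := by rw [pow_one] at hn250; linarith
  have hD0 : 0 < D := by linarith
  have hm0 : 0 < m := by
    have : 0 < 2 * (n ^ 60 * D) := by positivity
    linarith
  by_cases hc : Q ≤ D / n ^ 22
  · refine ⟨⊥, fun i => ?_, fun i => ?_, fun A B _ => ?_, fun S => ?_⟩
    · have : dg (⊥ : SimpleGraph (Fin M)) i = 0 := by
        unfold dg
        simp
      rw [this]
      exact Nat.zero_le _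
    · have : (0 : ℝ) ≤ dg (⊥ : SimpleGraph (Fin M)) i := by positivity
      linarith
    · have : ee (⊥ : SimpleGraph (Fin M)) A B = 0 := by
        unfold ee
        simp
      rw [this, Nat.cast_zero]
      positivity
    · have : ee (⊥ : SimpleGraph (Fin M)) S S = 0 := by
        unfold ee
        simp
      rw [this, Nat.cast_zero]
      positivity
  · rw [not_le] at hc
    have hb0 : 0 < D / n ^ 22 := by positivity
    obtain ⟨b, hbdef⟩ : ∃ b : ℝ, b = D / n ^ 22 := ⟨_, rfl⟩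
    rw [← hbdef] at hc hb0
    have hbD : b * n ^ 22 = D := by rw [hbdef]; field_simp
    have hbig : n ^ 228 ≤ b := by
      rw [hbdef, le_div_iff₀ (by positivity)]
      calc n ^ 228 * n ^ 22 = n ^ 250 := by rw [← pow_add]
        _ ≤ D := hD
    have hb1000 : 1000 ≤ b := by
      have h1 : n ^ 1 ≤ n ^ 228 := pow_le_pow_right₀ hn1 (by norm_num)
      rw [pow_one] at h1
      linarith
    have he24 : D / n ^ 24 ≤ b / 1000 := by
      rw [hbdef, div_div, div_le_div_iff_of_pos_left hD0 (by positivity) (by positivity)]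
      have : n ^ 24 = n ^ 22 * (n * n) := by ring
      rw [this]
      have h2 : 1000 ≤ n * n := by nlinarith
      have h3 : 0 < n ^ 22 := by positivity
      nlinarith
    have he60 : D / (2 * n ^ 60) ≤ b / 1000 := by
      rw [hbdef, div_div, div_le_div_iff_of_pos_left hD0 (by positivity) (by positivity)]
      have h1 : n ^ 60 = n ^ 22 * (n * n ^ 37) := by ring
      rw [h1]
      have h4 : 1 ≤ n ^ 37 := one_le_pow₀ hn1
      have h2 : 1000 ≤ n * n ^ 37 := by nlinarith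
      have h3 : 0 < n ^ 22 := by positivity
      nlinarith
    obtain ⟨d, hddef⟩ : ∃ d : ℝ, d = Q - b / 2 := ⟨_, rfl⟩
    have hd0 : 0 < d := by linarith
    have hdD : d ≤ D := by linarith
    have hdm : d ≤ m := by
      have h1 : 1 ≤ n ^ 60 := one_le_pow₀ hn1
      nlinarith
    obtain ⟨k, hkdef⟩ : ∃ k : ℕ, k = ⌈m / d⌉₊ := ⟨_, rfl⟩
    have hmd : 0 < m / d := by positivity
    have hk1 : 1 ≤ k := by
      rw [hkdef]
      exact Nat.one_le_iff_ne_zero.mpr (Nat.pos_iff_ne_zero.mp (Nat.ceil_pos.mpr hmd))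
    have hk0 : (0 : ℝ) < k := by exact_mod_cast hk1
    have hkge : m / d ≤ k := by rw [hkdef]; exact Nat.le_ceil _
    have hkle : (k : ℝ) < m / d + 1 := by rw [hkdef]; exact Nat.ceil_lt_add_one hmd.le
    have hkd1 : m ≤ k * d := by rwa [div_le_iff₀ hd0] at hkge
    have hkd2 : k * d ≤ m + d := by
      have h1 : (k : ℝ) * d ≤ (m / d + 1) * d := by nlinarith
      have h2 : (m / d + 1) * d = m + d := by field_simp
      linarith
    have hmk : m / k ≤ d := by
      rw [div_le_iff₀ hk0]; linarith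
    have hmk2 : d - D / (2 * n ^ 60) ≤ m / k := by
      have h1 : d ^ 2 / m ≤ D / (2 * n ^ 60) := by
        rw [div_le_div_iff₀ hm0 (by positivity)]
        have h2 : d ^ 2 ≤ D * D := by nlinarith
        have h3 : 0 < 2 * n ^ 60 := by positivity
        calc d ^ 2 * (2 * n ^ 60) ≤ D * D * (2 * n ^ 60) :=
              mul_le_mul_of_nonneg_right h2 h3.le
          _ = D * (2 * (n ^ 60 * D)) := by ring
          _ ≤ D * m := mul_le_mul_of_nonneg_left hm hD0.le
      have h2 : d - d ^ 2 / m ≤ m / k := by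
        rw [le_div_iff₀ hk0]
        have h3 : 0 ≤ 1 - d / m := by
          rw [sub_nonneg, div_le_one hm0]; exact hdm
        have h4 : (d - d ^ 2 / m) * k = k * d * (1 - d / m) := by field_simp
        have h5 : (m + d) * (1 - d / m) = m - d ^ 2 / m := by field_simp; ring
        have h6 : 0 ≤ d ^ 2 / m := by positivity
        have h7 : k * d * (1 - d / m) ≤ (m + d) * (1 - d / m) :=
          mul_le_mul_of_nonneg_right hkd2 h3
        linarith
      linarith
    have h1k : 1 / (k : ℝ) ≤ Q / m := by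
      rw [div_le_div_iff₀ hk0 hm0]
      nlinarith
    have h1k1 : 1 / (k : ℝ) ≤ 1 := by
      rw [div_le_one hk0]
      exact_mod_cast hk1
    have hκ : 16 * (Fintype.card (Fin M) : ℝ) *
        Real.exp (- (1 / n ^ 25 * (D / n ^ 24) - (1 / n ^ 25) ^ 2 * m / k)) < 1 := by
      rw [Fintype.card_fin, ← hmdef]
      obtain ⟨t, htdef⟩ : ∃ t : ℝ, t = D / n ^ 49 := ⟨_, rfl⟩
      have ht0 : 0 < t := by rw [htdef]; positivity
      have h1 : 1 / n ^ 25 * (D / n ^ 24) = t := by rw [htdef]; field_simp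
      have h2 : (1 / n ^ 25) ^ 2 * m / k ≤ t / 2 := by
        have h3 : (1 / n ^ 25) ^ 2 * m / k = (1 / n ^ 25) ^ 2 * (m / k) := by ring
        rw [h3]
        calc (1 / n ^ 25) ^ 2 * (m / k) ≤ (1 / n ^ 25) ^ 2 * D :=
              mul_le_mul_of_nonneg_left (hmk.trans hdD) (by positivity)
          _ = D / n ^ 49 * (1 / n) := by field_simp
          _ ≤ D / n ^ 49 * (1 / 2) := by
              refine mul_le_mul_of_nonneg_left ?_ (by positivity)
              exact one_div_le_one_div_of_le (by norm_num) (by linarith)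
          _ = t / 2 := by rw [htdef]; ring
      have h4 : t / 2 ≤ 1 / n ^ 25 * (D / n ^ 24) - (1 / n ^ 25) ^ 2 * m / k := by
        rw [h1]; linarith
      have h5 : Real.exp (- (1 / n ^ 25 * (D / n ^ 24) - (1 / n ^ 25) ^ 2 * m / k)) ≤
          Real.exp (- (t / 2)) := Real.exp_le_exp.mpr (by linarith)
      have h6 : (t / 2) ^ 5 / (Nat.factorial 5 : ℝ) ≤ Real.exp (t / 2) :=
        Real.pow_div_factorial_le_exp (t / 2) (by positivity) 5
      have h7 : D ^ 4 ≤ t ^ 5 := by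
        have h8 : n ^ 245 ≤ D := (pow_le_pow_right₀ hn1 (by norm_num)).trans hD
        have h9 : t ^ 5 = D ^ 5 / n ^ 245 := by rw [htdef, div_pow, ← pow_mul]
        rw [h9, le_div_iff₀ (by positivity)]
        calc D ^ 4 * n ^ 245 ≤ D ^ 4 * D := mul_le_mul_of_nonneg_left h8 (by positivity)
          _ = D ^ 5 := by ring
      have h8 : 16 * m < Real.exp (t / 2) := by
        have h9 : (Nat.factorial 5 : ℝ) = 120 := by norm_num [Nat.factorial]
        rw [h9] at h6
        have h10 : (t / 2) ^ 5 / 120 = t ^ 5 / 3840 := by ring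
        rw [h10] at h6
        have h11 : 1000000 * D ^ 2 ≤ D ^ 4 := by
          have h12 : 1000000 ≤ D ^ 2 := by nlinarith
          nlinarith
        have h13 : 0 < D ^ 2 := by positivity
        linarith
      rw [Real.exp_neg (t / 2)] at h5
      have h9 : 0 < Real.exp (t / 2) := Real.exp_pos _
      calc 16 * m * Real.exp (- (1 / n ^ 25 * (D / n ^ 24) - (1 / n ^ 25) ^ 2 * m / k))
          ≤ 16 * m * (Real.exp (t / 2))⁻¹ := mul_le_mul_of_nonneg_left h5 (by positivity)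
        _ = 16 * m / Real.exp (t / 2) := (div_eq_mul_inv _ _).symm
        _ < 1 := by rw [div_lt_one h9]; exact h8
    obtain ⟨R, -, r1, r2, r3⟩ := rgg (⊤ : SimpleGraph (Fin M)) k m (D / n ^ 24) (1 / n ^ 25) hk1
      (by positivity) (by
        rw [div_le_one (by positivity)]
        exact one_le_pow₀ hn1)
      (fun v => by rw [Re1_dgtop, ← hmdef]; linarith) hκ
    have hdg : ∀ i, ((m - 1) / k - D / n ^ 24 ≤ (dg R i : ℝ)) ∧
        ((dg R i : ℝ) ≤ (m - 1) / k + D / n ^ 24) := by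
      intro i
      have h1 := r1 i
      rw [Re1_dgtop, ← hmdef, abs_le] at h1
      constructor <;> linarith [h1.1, h1.2]
    have hsub : (m - 1) / k = m / k - 1 / k := by ring
    have h1k0 : 0 < 1 / (k : ℝ) := by positivity
    refine ⟨R, fun i => ?_, fun i => ?_, fun A B hAB => ?_, fun S => ?_⟩
    · have h1 : (dg R i : ℝ) ≤ q := by
        rw [← hQdef]
        have := (hdg i).2
        rw [hsub] at this
        linarith
      exact_mod_cast h1
    · have := (hdg i).1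
      rw [hsub] at this
      rw [← hbdef]
      linarith
    · have h1 := r2 A B hAB
      rw [Re1_top A B hAB, Nat.cast_mul] at h1
      have h2 : (A.card : ℝ) * B.card / k ≤ (A.card : ℝ) * B.card * Q / m := by
        have h3 : (A.card : ℝ) * B.card * (1 / k) ≤ (A.card : ℝ) * B.card * (Q / m) :=
          mul_le_mul_of_nonneg_left h1k (by positivity)
        have h4 : (A.card : ℝ) * B.card / k = (A.card : ℝ) * B.card * (1 / k) := by ring
        have h5 : (A.card : ℝ) * B.card * Q / m = (A.card : ℝ) * B.card * (Q / m) := by ring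
        rw [h4, h5]
        exact h3
      have h3 : D / n ^ 24 * ((A.card : ℝ) + B.card) ≤ D / n ^ 22 * ((A.card : ℝ) + B.card) := by
        refine mul_le_mul_of_nonneg_right ?_ (by positivity)
        rw [← hbdef]
        linarith
      linarith
    · have h1 := Re1_S R S (1 / k) (D / n ^ 24) (by positivity) (fun v => by
        have h2 := (hdg v).2
        rw [Fintype.card_fin, ← hmdef]
        have h3 : (m - 1) * (1 / (k : ℝ)) = (m - 1) / k := by ring
        rw [h3]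
        exact h2) (by
        have h2 := r3 S
        rw [mul_one_div]
        exact h2)
      have h5 : (S.card : ℝ) ^ 2 * (1 / k) ≤ (S.card : ℝ) ^ 2 * (Q / m) :=
        mul_le_mul_of_nonneg_left h1k (by positivity)
      have h6 : (S.card : ℝ) ^ 2 * Q / m = (S.card : ℝ) ^ 2 * (Q / m) := by ring
      have h7 : 2 * (D / n ^ 24) * (S.card : ℝ) ≤ D / n ^ 22 * S.card := by
        refine mul_le_mul_of_nonneg_right ?_ (by positivity)
        rw [← hbdef]
        linarith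
      rw [h6]
      linarith

end Pool.Agent.H12.LS
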