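import Mathlib
import Pool.Agent.H12.LS.Defs
import Pool.Agent.H12.LS.Re1

/-!
RE2: regularisation. `N = 8 N0`, `M = 2 N ^ 60 Δ`, `V' = V × Fin M`,
`G'.Adj (u, i) (v, j) ↔ (i = j ∧ G.Adj u v) ∨ (u = v ∧ (Γ u).Adj i j)`, where `Γ u` is the graph of `re1` for `q = Δ - dg G u`.
`re2a`, `re2b`, `re2c` are the properties `Xt.ex`, `Xt.nb` and `Xt.lo`, `Xt.up` of this graph.

Proof.  Write `q v = Δ - dg G v`, `κ = Δ / N ^ 22`, `D = ∑ x ∈ S, dg G x.1`, `Q = ∑ x ∈ S, q x.1 = Δ #S - D`. `M ≤ Δ ^ 2`: `2 N ^ 60 ≤ Δ`.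
`re2c`: `dg G' (v, i) = dg G v + dg (Γ v) i`, so `≤ Δ` and `≥ Δ - κ ≥ Δ - Δ / N ^ 21`.
`re2e`: `ee G' A B = ∑ i, ee G (A_i) (B_i) + ∑ v, ee (Γ v) (A^v) (B^v)`, `A_i = {v : (v, i) ∈ A}`, `A^v = {i : (v, i) ∈ A}` (the two kinds of edges are
disjoint, as `G` and `Γ v` are irreflexive).
`re2a`: let `#S ≤ N ^ 60 Δ`. `ee G' S S = ∑ i, ee G (S_i) (S_i) + ∑ v, ee (Γ v) (S^v) (S^v)`. First sum: `#(S_i) ≤ #S ≤ N ^ 60 Δ`, so by `hs` it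
is at most `(Δ - Δ / N0) #S`, and it is at most `∑ i, ∑ v ∈ S_i, dg G v = D`. Second sum: at most
`∑ v, (#(S^v) ^ 2 q v / M + κ #(S^v)) ≤ ∑ v, #(S^v) q v / 2 + κ #S = Q / 2 + κ #S` (`#(S^v) ≤ #S ≤ M / 2`). So
`ee G' S S ≤ min (Δ - Δ / N0) #S, Δ #S - Q) + Q / 2 + κ #S ≤ (Δ - Δ / (2 N0)) #S + κ #S` (if `Q ≤ (Δ / N0) #S` use the first, otherwise the second
term of the minimum). Hence `ee G' S (univ \ S) = ∑ x ∈ S, dg G' x - ee G' S S ≥ (Δ / (2 N0) - 2 κ) #S = (4 Δ / N - 2 κ) #S ≥ 2 (Δ / N) #S`.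
`re2b`: let `A`, `B` be disjoint, `s = #A + #B`, `D`, `Q` as above for `S = A ∪ B` (`#S = s`). `2 ee G' A B = ∑ i, 2 ee G (A_i) (B_i) + ∑ v, 2 ee (Γ v) (A^v) (B^v)`.
First sum: `≤ (Δ - Δ / N0) s` by `hb`, and `≤ D` (`ee G (A_i) (B_i) ≤ ∑ v ∈ A_i, dg G v`, and by symmetry `≤ ∑ v ∈ B_i, dg G v`). Second sum:
`2 ee (Γ v) (A^v) (B^v) ≤ 2 #A^v #B^v q v / M + 2 κ (..) ≤ (#A^v + #B^v) q v / 2 + 2 κ (#A^v + #B^v)`, as `4 x y ≤ (x + y) ^ 2` and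
`#A^v + #B^v ≤ M`. So `2 ee G' A B ≤ (Δ - Δ / (2 N0)) s + 2 κ s ≤ (Δ - Δ / N) s` (`Δ / (2 N0) = 4 Δ / N`).
`re2`: `n M ≤ exp N` is `hn`. `ι v = (v, 0)` (`0 < M`).
-/

set_option autoImplicit false

namespace Pool.Agent.H12.LS

open Finset Classical
open Pool.Agent.H71.DN Pool.Agent.H71.EX

/-- `M` copies of `G`, with the graph `Γ v` on the copies of `v`. -/
def Gc {V : Type} (G : SimpleGraph V) (M : ℕ) (Γ : V → SimpleGraph (Fin M)) :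
    SimpleGraph (V × Fin M) where
  Adj x y := (x.2 = y.2 ∧ G.Adj x.1 y.1) ∨ (x.1 = y.1 ∧ (Γ x.1).Adj x.2 y.2)
  symm := ⟨fun x y h => by
    rcases h with h | h
    · exact Or.inl ⟨h.1.symm, h.2.symm⟩
    · refine Or.inr ⟨h.1.symm, ?_⟩
      rw [← h.1]
      exact h.2.symm⟩
  loopless := ⟨fun x h => by
    rcases h with h | h
    · exact h.2.ne rfl
    · exact h.2.ne rfl⟩

theorem re2c {V : Type} [Fintype V] (G : SimpleGraph V) (M : ℕ) (Γ : V → SimpleGraph (Fin M))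
    (v : V) (i : Fin M) : dg (Gc G M Γ) (v, i) = dg G v + dg (Γ v) i := by
  sorry

theorem re2e {V : Type} [Fintype V] (G : SimpleGraph V) (M : ℕ) (Γ : V → SimpleGraph (Fin M))
    (A B : Finset (V × Fin M)) :
    ee (Gc G M Γ) A B =
      ∑ i, ee G (univ.filter fun v => (v, i) ∈ A) (univ.filter fun v => (v, i) ∈ B) +
      ∑ v, ee (Γ v) (univ.filter fun i => (v, i) ∈ A) (univ.filter fun i => (v, i) ∈ B) := by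
  sorry

theorem re2a {V : Type} [Fintype V] (G : SimpleGraph V) (Δ N0 M : ℕ) (Γ : V → SimpleGraph (Fin M))
    (hN0 : 1000 ≤ N0) (hM : 2 * ((8 * N0) ^ 60 * Δ) ≤ M)
    (up : ∀ v, dg G v ≤ Δ)
    (hlo : ∀ v i, ((Δ - dg G v : ℕ) : ℝ) - Δ / ((8 * N0 : ℕ) : ℝ) ^ 22 ≤ dg (Γ v) i)
    (hΓ : ∀ v, ∀ S : Finset (Fin M), (ee (Γ v) S S : ℝ) ≤
      (S.card : ℝ) ^ 2 * ((Δ - dg G v : ℕ) : ℝ) / M + Δ / ((8 * N0 : ℕ) : ℝ) ^ 22 * S.card)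
    (hs : ∀ S : Finset V, S.card ≤ (8 * N0) ^ 60 * Δ →
      (ee G S S : ℝ) ≤ ((Δ : ℝ) - Δ / N0) * S.card)
    (S : Finset (V × Fin M)) (hS : S.card ≤ (8 * N0) ^ 60 * Δ) :
    2 * ((Δ : ℝ) / ((8 * N0 : ℕ) : ℝ)) * S.card ≤ ee (Gc G M Γ) S (univ \ S) := by
  sorry

theorem re2b {V : Type} [Fintype V] (G : SimpleGraph V) (Δ N0 M : ℕ) (Γ : V → SimpleGraph (Fin M))
    (hN0 : 1000 ≤ N0) (hM : 2 * ((8 * N0) ^ 60 * Δ) ≤ M)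
    (up : ∀ v, dg G v ≤ Δ)
    (hΓ : ∀ v, ∀ A B : Finset (Fin M), Disjoint A B → (ee (Γ v) A B : ℝ) ≤
      (A.card : ℝ) * B.card * ((Δ - dg G v : ℕ) : ℝ) / M +
        Δ / ((8 * N0 : ℕ) : ℝ) ^ 22 * (A.card + B.card))
    (hb : ∀ A B : Finset V, Disjoint A B →
      2 * (ee G A B : ℝ) ≤ ((Δ : ℝ) - Δ / N0) * (A.card + B.card))
    (A B : Finset (V × Fin M)) (hAB : Disjoint A B) :
    (Δ : ℝ) / ((8 * N0 : ℕ) : ℝ) * (A.card + B.card) + 2 * ee (Gc G M Γ) A B ≤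
      Δ * (A.card + B.card) := by
  sorry

theorem re2 {V : Type} [Fintype V] (G : SimpleGraph V) (Δ N0 : ℕ) (hN0 : 1000 ≤ N0)
    (hΔ : (8 * N0) ^ 250 ≤ Δ)
    (hn : (Fintype.card V : ℝ) * (2 * ((8 * N0) ^ 60 * Δ) : ℕ) ≤ Real.exp ((8 * N0 : ℕ) : ℝ))
    (up : ∀ v, dg G v ≤ Δ)
    (hs : ∀ S : Finset V, S.card ≤ (8 * N0) ^ 60 * Δ →
      (ee G S S : ℝ) ≤ ((Δ : ℝ) - Δ / N0) * S.card)
    (hb : ∀ A B : Finset V, Disjoint A B →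
      2 * (ee G A B : ℝ) ≤ ((Δ : ℝ) - Δ / N0) * (A.card + B.card)) :
    ∃ (M : ℕ) (G' : SimpleGraph (V × Fin M)) (φ : V → V × Fin M), Function.Injective φ ∧
      (∀ u v, G.Adj u v → G'.Adj (φ u) (φ v)) ∧ Xt G' Δ (8 * N0) := by
  sorry

end Pool.Agent.H12.LS
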